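import Mathlib

/-!
# Admissible triples of Lie groups (MP_e90164_al): definitions
-/

set_option autoImplicit false

namespace Pool.Agent.Helper337.Amalgam

open Topology
open scoped Manifold ContDiff MatrixGroups

/-- A finite-dimensional real Lie group: a group `carrier` with a Hausdorff second countable
topology and a smooth atlas modelled on the finite-dimensional real vector space `E`, with
smooth multiplication and inversion. -/
structure RealLieGroup where
  carrier : Type
  E : Type
  [normed : NormedAddCommGroup E]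
  [space : NormedSpace ℝ E]
  [finDim : FiniteDimensional ℝ E]
  [top : TopologicalSpace carrier]
  [t2 : T2Space carrier]
  [countable : SecondCountableTopology carrier]
  [group : Group carrier]
  [atlas : ChartedSpace E carrier]
  [lie : LieGroup 𝓘(ℝ, E) ∞ carrier]

attribute [instance] RealLieGroup.normed RealLieGroup.space RealLieGroup.finDim
  RealLieGroup.top RealLieGroup.t2 RealLieGroup.countable RealLieGroup.group
  RealLieGroup.atlas RealLieGroup.lie

/-- `j : M → L` is an injective immersion of Lie groups, so that its range is a Lie subgroup. -/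
structure IsLieInclusion (M L : RealLieGroup) (j : M.carrier →* L.carrier) : Prop where
  injective : Function.Injective j
  smooth : ContMDiff 𝓘(ℝ, M.E) 𝓘(ℝ, L.E) ∞ j
  immersion : ∀ x, Function.Injective (mfderiv 𝓘(ℝ, M.E) 𝓘(ℝ, L.E) j x)

/-- Conditions (1) and (2) for one index, with `K = ℝ`. -/
structure Piece {G : Type} [Group G] [TopologicalSpace G] (H B : Subgroup G) : Prop where
  closed : IsClosed (H : Set G)
  le : B ≤ H
  nilpotent : Group.IsNilpotent ↥B
  lie : ∃ (L : RealLieGroup) (e : L.carrier ≃ₜ* ↥H) (M : RealLieGroup)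
    (j : M.carrier →* L.carrier), IsLieInclusion M L j ∧ SimplyConnectedSpace M.carrier ∧
      ∀ x : L.carrier, x ∈ j.range ↔ (e x : G) ∈ B
  quotient : ∃ _ : (B.subgroupOf H).Normal, Nonempty ((↥H ⧸ B.subgroupOf H) ≃ₜ* SL(2,ℝ))

/-- The admissible triples `(G; G₁, G₂)` with `K = ℝ`, where `B₁, B₂` are the normal subgroups of
condition (2). -/
structure Admissible (G : Type) [Group G] [TopologicalSpace G] (G₁ G₂ B₁ B₂ : Subgroup G) :
    Prop where
  topologicalGroup : IsTopologicalGroup G
  hausdorff : T2Space G
  piece₁ : Piece G₁ B₁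
  piece₂ : Piece G₂ B₂
  product_le : ∀ b₁ ∈ B₁, ∀ b₂ ∈ B₂, b₁ * b₂ ∈ G₁ ⊓ G₂
  core : ∀ N : Subgroup G, N ≤ B₁ ⊓ B₂ → N.Normal → N = ⊥

end Pool.Agent.Helper337.Amalgam
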