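import Mathlib
import Pool.Agent.Helper337.AmalgamDefs

/-!
# Admissible triples of Lie groups (MP_e90164_al): the construction
-/

set_option autoImplicit false

namespace Pool.Agent.Helper337.Amalgam

open Matrix Topology
open scoped Manifold ContDiff MatrixGroups commutatorElement Pointwise

noncomputable section

/-! ### `SL(2,ℝ)` as a Lie group: a single global chart -/

/-- `(c,d)` is the bottom row; `rr = c² + d²` -/
def rr (g : SL(2,ℝ)) : ℝ := (g 1 0) ^ 2 + (g 1 1) ^ 2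

theorem det_eq (g : SL(2,ℝ)) : g 0 0 * g 1 1 - g 0 1 * g 1 0 = 1 := by
  have := g.det_coe
  rwa [Matrix.det_fin_two] at this

theorem rr_pos (g : SL(2,ℝ)) : 0 < rr g := by
  have h := det_eq g
  unfold rr
  by_contra hn
  have h1 : (g 1 0) ^ 2 = 0 ∧ (g 1 1) ^ 2 = 0 := by
    constructor <;> nlinarith [sq_nonneg (g 1 0), sq_nonneg (g 1 1)]
  have h2 : g 1 0 = 0 := by simpa using h1.1
  have h3 : g 1 1 = 0 := by simpa using h1.2
  rw [h2, h3] at h
  simp at h

theorem rr_ne (g : SL(2,ℝ)) : rr g ≠ 0 := (rr_pos g).ne'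

/-- the unipotent coordinate -/
def tau (g : SL(2,ℝ)) : ℝ := (g 0 0 * g 1 0 + g 0 1 * g 1 1) / rr g

/-- the upper unipotent matrix -/
def uu (t : ℝ) : SL(2,ℝ) := ⟨!![1, t; 0, 1], by simp [Matrix.det_fin_two]⟩

@[simp] theorem uu_00 (t : ℝ) : (uu t) 0 0 = 1 := by simp [uu]
@[simp] theorem uu_01 (t : ℝ) : (uu t) 0 1 = t := by simp [uu]
@[simp] theorem uu_10 (t : ℝ) : (uu t) 1 0 = 0 := by simp [uu]
@[simp] theorem uu_11 (t : ℝ) : (uu t) 1 1 = 1 := by simp [uu]

theorem mul_entries (g h : SL(2,ℝ)) (i j : Fin 2) : (g * h) i j = g i 0 * h 0 j + g i 1 * h 1 j := by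
  have : (g * h) i j = ((g : Matrix (Fin 2) (Fin 2) ℝ) * (h : Matrix (Fin 2) (Fin 2) ℝ)) i j := rfl
  rw [this, Matrix.mul_apply, Fin.sum_univ_two]

theorem ext_entries {g h : SL(2,ℝ)} (h00 : g 0 0 = h 0 0) (h01 : g 0 1 = h 0 1)
    (h10 : g 1 0 = h 1 0) (h11 : g 1 1 = h 1 1) : g = h := by
  apply Matrix.SpecialLinearGroup.ext
  intro i j
  fin_cases i <;> fin_cases j <;> assumption

theorem uu_add (s t : ℝ) : uu (s + t) = uu s * uu t := by
  apply ext_entries <;> rw [mul_entries] <;> simp [add_comm]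

theorem uu_zero : uu 0 = 1 := by
  apply ext_entries <;> simp

theorem uu_bottom (t : ℝ) (g : SL(2,ℝ)) : (uu t * g) 1 0 = g 1 0 ∧ (uu t * g) 1 1 = g 1 1 := by
  rw [mul_entries, mul_entries]; simp

theorem tau_uu_mul (t : ℝ) (g : SL(2,ℝ)) : tau (uu t * g) = t + tau g := by
  have h := rr_ne g
  have hr : rr (uu t * g) = rr g := by
    simp [rr, (uu_bottom t g).1, (uu_bottom t g).2]
  unfold tau
  rw [hr, div_eq_iff h, add_mul, div_mul_cancel₀ _ h]
  rw [(uu_bottom t g).1, (uu_bottom t g).2, mul_entries, mul_entries]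
  simp only [uu_00, uu_01, rr]
  ring

theorem tau_one : tau 1 = 0 := by
  simp [tau]

theorem tau_uu (t : ℝ) : tau (uu t) = t := by
  have := tau_uu_mul t 1
  rwa [mul_one, tau_one, add_zero] at this

/-- the chart -/
def Psi (g : SL(2,ℝ)) : ℝ × ℝ × ℝ := (tau g, g 1 0, g 1 1)

/-- the set of values of the chart -/
def tgt : Set (ℝ × ℝ × ℝ) := {p | p.2.1 ^ 2 + p.2.2 ^ 2 ≠ 0}

theorem isOpen_tgt : IsOpen tgt := by
  apply IsOpen.preimage (t := {x : ℝ | x ≠ 0}) (f := fun p : ℝ × ℝ × ℝ => p.2.1 ^ 2 + p.2.2 ^ 2)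
  · fun_prop
  · exact isOpen_ne

/-- the inverse chart -/
def PsiInv (p : tgt) : SL(2,ℝ) :=
  ⟨!![p.1.2.2 / (p.1.2.1 ^ 2 + p.1.2.2 ^ 2) + p.1.1 * p.1.2.1,
      -p.1.2.1 / (p.1.2.1 ^ 2 + p.1.2.2 ^ 2) + p.1.1 * p.1.2.2; p.1.2.1, p.1.2.2], by
    have h : p.1.2.1 ^ 2 + p.1.2.2 ^ 2 ≠ 0 := p.2
    rw [Matrix.det_fin_two]
    simp only [Matrix.of_apply, Matrix.cons_val', Matrix.cons_val_zero, Matrix.cons_val_one,
      Matrix.cons_val_fin_one]
    field_simp
    ring⟩

theorem continuous_entry (i j : Fin 2) : Continuous (fun g : SL(2,ℝ) => g i j) := by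
  have h1 : Continuous (fun g : SL(2,ℝ) => (g : Matrix (Fin 2) (Fin 2) ℝ)) :=
    continuous_subtype_val
  exact h1.matrix_elem i j

theorem continuous_tau : Continuous tau := by
  unfold tau
  apply Continuous.div
  · exact ((continuous_entry 0 0).mul (continuous_entry 1 0)).add
      ((continuous_entry 0 1).mul (continuous_entry 1 1))
  · exact ((continuous_entry 1 0).pow 2).add ((continuous_entry 1 1).pow 2)
  · exact rr_ne

/-- the chart as a homeomorphism onto its image -/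
def PsiHomeo : SL(2,ℝ) ≃ₜ tgt where
  toFun g := ⟨Psi g, rr_ne g⟩
  invFun := PsiInv
  left_inv g := by
    have h := rr_ne g
    have hd := det_eq g
    unfold rr at h
    apply ext_entries
    · simp only [PsiInv, Psi, tau, rr]
      simp
      field_simp
      linear_combination (-(g 1 1)) * hd
    · simp only [PsiInv, Psi, tau, rr]
      simp
      field_simp
      linear_combination (g 1 0) * hd
    · simp [PsiInv, Psi]
    · simp [PsiInv, Psi]
  right_inv p := by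
    have h : p.1.2.1 ^ 2 + p.1.2.2 ^ 2 ≠ 0 := p.2
    apply Subtype.ext
    simp only [Psi, PsiInv, tau, rr]
    apply Prod.ext
    · simp
      field_simp
      ring
    · simp
  continuous_toFun := by
    apply Continuous.subtype_mk
    exact continuous_tau.prodMk ((continuous_entry 1 0).prodMk (continuous_entry 1 1))
  continuous_invFun := by
    apply Continuous.subtype_mk
    apply continuous_matrix
    have h1 : ∀ p : tgt, p.1.2.1 ^ 2 + p.1.2.2 ^ 2 ≠ 0 := fun p => p.2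
    intro i j
    fin_cases i <;> fin_cases j <;> simp <;> fun_prop (disch := exact h1 _)

theorem isOpenEmbedding_Psi : IsOpenEmbedding Psi := by
  have : Psi = Subtype.val ∘ PsiHomeo := rfl
  rw [this]
  exact isOpen_tgt.isOpenEmbedding_subtypeVal.comp PsiHomeo.isOpenEmbedding

instance chSL : ChartedSpace (ℝ × ℝ × ℝ) SL(2,ℝ) := isOpenEmbedding_Psi.singletonChartedSpace

instance : IsManifold 𝓘(ℝ, ℝ × ℝ × ℝ) ∞ SL(2,ℝ) := isOpenEmbedding_Psi.isManifold_singleton

theorem contMDiff_Psi : ContMDiff 𝓘(ℝ, ℝ × ℝ × ℝ) 𝓘(ℝ, ℝ × ℝ × ℝ) ∞ Psi :=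
  contMDiff_isOpenEmbedding isOpenEmbedding_Psi

theorem smooth_of_Psi {F : ℝ × ℝ × ℝ → ℝ}
    (hF : ∀ p : ℝ × ℝ × ℝ, p.2.1 ^ 2 + p.2.2 ^ 2 ≠ 0 → ContDiffAt ℝ ∞ F p) :
    ContMDiff 𝓘(ℝ, ℝ × ℝ × ℝ) 𝓘(ℝ, ℝ) ∞ (F ∘ Psi) := by
  intro g
  apply ContMDiffAt.comp g _ (contMDiff_Psi g)
  rw [contMDiffAt_iff_contDiffAt]
  exact hF _ (rr_ne g)

theorem smooth_entry (i j : Fin 2) :
    ContMDiff 𝓘(ℝ, ℝ × ℝ × ℝ) 𝓘(ℝ, ℝ) ∞ (fun g : SL(2,ℝ) => g i j) := by
  have h10 : ContMDiff 𝓘(ℝ, ℝ × ℝ × ℝ) 𝓘(ℝ, ℝ) ∞ (fun g : SL(2,ℝ) => g 1 0) :=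
    smooth_of_Psi (F := fun p => p.2.1) (fun p _ => by fun_prop)
  have h11 : ContMDiff 𝓘(ℝ, ℝ × ℝ × ℝ) 𝓘(ℝ, ℝ) ∞ (fun g : SL(2,ℝ) => g 1 1) :=
    smooth_of_Psi (F := fun p => p.2.2) (fun p _ => by fun_prop)
  have h00 : ContMDiff 𝓘(ℝ, ℝ × ℝ × ℝ) 𝓘(ℝ, ℝ) ∞ (fun g : SL(2,ℝ) => g 0 0) := by
    have : (fun g : SL(2,ℝ) => g 0 0) =
        (fun p : ℝ × ℝ × ℝ => p.2.2 / (p.2.1 ^ 2 + p.2.2 ^ 2) + p.1 * p.2.1) ∘ Psi := by
      ext g
      have h := PsiHomeo.left_inv g
      have h2 := congrArg (fun g : SL(2,ℝ) => g 0 0) h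
      exact h2.symm
    rw [this]
    exact smooth_of_Psi (fun p hp => by fun_prop (disch := exact hp))
  have h01 : ContMDiff 𝓘(ℝ, ℝ × ℝ × ℝ) 𝓘(ℝ, ℝ) ∞ (fun g : SL(2,ℝ) => g 0 1) := by
    have : (fun g : SL(2,ℝ) => g 0 1) =
        (fun p : ℝ × ℝ × ℝ => -p.2.1 / (p.2.1 ^ 2 + p.2.2 ^ 2) + p.1 * p.2.2) ∘ Psi := by
      ext g
      have h := PsiHomeo.left_inv g
      have h2 := congrArg (fun g : SL(2,ℝ) => g 0 1) h
      exact h2.symm
    rw [this]
    exact smooth_of_Psi (fun p hp => by fun_prop (disch := exact hp))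
  fin_cases i <;> fin_cases j
  · exact h00
  · exact h01
  · exact h10
  · exact h11

/-- a map into `SL(2,ℝ)` with smooth entries is smooth -/
theorem smooth_into {E' H' M : Type} [NormedAddCommGroup E'] [NormedSpace ℝ E']
    [TopologicalSpace H'] {I : ModelWithCorners ℝ E' H'} [TopologicalSpace M] [ChartedSpace H' M]
    {f : M → SL(2,ℝ)} (hf : ∀ i j : Fin 2, ContMDiff I 𝓘(ℝ, ℝ) ∞ (fun x => f x i j)) :
    ContMDiff I 𝓘(ℝ, ℝ × ℝ × ℝ) ∞ f := by
  apply ContMDiff.of_comp_isOpenEmbedding isOpenEmbedding_Psi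
  have h1 : ContMDiff I 𝓘(ℝ, ℝ) ∞ (fun x => tau (f x)) := by
    unfold tau rr
    apply ContMDiff.div₀
    · exact ((hf 0 0).mul (hf 1 0)).add ((hf 0 1).mul (hf 1 1))
    · exact ((hf 1 0).pow 2).add ((hf 1 1).pow 2)
    · intro x; exact rr_ne (f x)
  exact h1.prodMk_space ((hf 1 0).prodMk_space (hf 1 1))

instance lieSL : LieGroup 𝓘(ℝ, ℝ × ℝ × ℝ) ∞ SL(2,ℝ) where
  contMDiff_mul := by
    apply smooth_into
    intro i j
    simp only [mul_entries]
    have hl : ∀ i j : Fin 2, ContMDiff (𝓘(ℝ, ℝ × ℝ × ℝ).prod 𝓘(ℝ, ℝ × ℝ × ℝ)) 𝓘(ℝ, ℝ) ∞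
        (fun p : SL(2,ℝ) × SL(2,ℝ) => p.1 i j) := fun i j => (smooth_entry i j).comp contMDiff_fst
    have hr : ∀ i j : Fin 2, ContMDiff (𝓘(ℝ, ℝ × ℝ × ℝ).prod 𝓘(ℝ, ℝ × ℝ × ℝ)) 𝓘(ℝ, ℝ) ∞
        (fun p : SL(2,ℝ) × SL(2,ℝ) => p.2 i j) := fun i j => (smooth_entry i j).comp contMDiff_snd
    exact ((hl i 0).mul (hr 0 j)).add ((hl i 1).mul (hr 1 j))
  contMDiff_inv := by
    apply smooth_into
    intro i j
    have : ∀ x : SL(2,ℝ), (x⁻¹) i j = (Matrix.adjugate (x : Matrix (Fin 2) (Fin 2) ℝ)) i j := by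
      intro x; rfl
    simp only [this, Matrix.adjugate_fin_two]
    fin_cases i <;> fin_cases j <;> simp
    · exact smooth_entry 1 1
    · exact (smooth_entry 0 1).neg
    · exact (smooth_entry 1 0).neg
    · exact smooth_entry 0 0

/-! ### binary forms of degree `k` -/

/-- coefficient vectors of binary forms `∑ cᵢ xⁱ y^{k-i}` of degree `k` -/
abbrev VV (k : ℕ) : Type := Fin (k + 1) → ℝ

/-- the value of the form at `(x,y)` -/
def form (k : ℕ) (v : VV k) (x y : ℝ) : ℝ := ∑ i : Fin (k + 1), v i * (x ^ (i : ℕ) * y ^ (k - (i : ℕ)))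

/-- coefficient of `x^j y^{k-j}` in `(a x + c y)^i (b x + d y)^{k-i}` -/
def coefM (k : ℕ) (a b c d : ℝ) (i j : ℕ) : ℝ :=
  ∑ l ∈ Finset.range (i + 1), ∑ m ∈ Finset.range (k - i + 1),
    if l + m = j then
      (a ^ l * c ^ (i - l) * (i.choose l : ℝ)) * (b ^ m * d ^ (k - i - m) * ((k - i).choose m : ℝ))
    else 0

theorem coefM_spec (k : ℕ) (a b c d : ℝ) (i : ℕ) (hi : i ≤ k) (x y : ℝ) :
    (x * a + y * c) ^ i * (x * b + y * d) ^ (k - i) =
      ∑ j : Fin (k + 1), coefM k a b c d i j * (x ^ (j : ℕ) * y ^ (k - (j : ℕ))) := by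
  rw [Finset.sum_fin_eq_sum_range]
  have h0 : ∀ j ∈ Finset.range (k + 1), (if h : j < k + 1 then
      coefM k a b c d i ((⟨j, h⟩ : Fin (k+1)) : ℕ) * (x ^ ((⟨j, h⟩ : Fin (k+1)) : ℕ) *
        y ^ (k - ((⟨j, h⟩ : Fin (k+1)) : ℕ))) else 0) = coefM k a b c d i j * (x ^ j * y ^ (k - j)) := by
    intro j hj
    rw [dif_pos (Finset.mem_range.mp hj)]
  rw [Finset.sum_congr rfl h0, add_pow, add_pow, Finset.sum_mul_sum]
  have h1 : ∀ j ∈ Finset.range (k + 1), coefM k a b c d i j * (x ^ j * y ^ (k - j)) =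
      ∑ l ∈ Finset.range (i + 1), ∑ m ∈ Finset.range (k - i + 1),
        if l + m = j then
          (a ^ l * c ^ (i - l) * (i.choose l : ℝ)) *
            (b ^ m * d ^ (k - i - m) * ((k - i).choose m : ℝ)) * (x ^ j * y ^ (k - j))
        else 0 := by
    intro j _
    rw [coefM, Finset.sum_mul]
    apply Finset.sum_congr rfl
    intro l _
    rw [Finset.sum_mul]
    apply Finset.sum_congr rfl
    intro m _
    rw [ite_mul, zero_mul]
  rw [Finset.sum_congr rfl h1]
  conv_rhs => rw [Finset.sum_comm]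
  apply Finset.sum_congr rfl
  intro l hl
  conv_rhs => rw [Finset.sum_comm]
  apply Finset.sum_congr rfl
  intro m hm
  rw [Finset.mem_range] at hl hm
  have hlm : l + m ∈ Finset.range (k + 1) := by rw [Finset.mem_range]; omega
  rw [Finset.sum_ite_eq, if_pos hlm]
  have e1 : k - (l + m) = (i - l) + (k - i - m) := by omega
  rw [e1, mul_pow, mul_pow, mul_pow, mul_pow, pow_add, pow_add]
  ring

/-- the action of a matrix with entries `a b c d` on forms -/
def actM (k : ℕ) (a b c d : ℝ) (v : VV k) : VV k :=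
  fun j => ∑ i : Fin (k + 1), v i * coefM k a b c d i j

theorem form_actM (k : ℕ) (a b c d : ℝ) (v : VV k) (x y : ℝ) :
    form k (actM k a b c d v) x y = form k v (x * a + y * c) (x * b + y * d) := by
  unfold form actM
  simp_rw [Finset.sum_mul]
  rw [Finset.sum_comm]
  apply Finset.sum_congr rfl
  intro i _
  rw [coefM_spec k a b c d i (by omega) x y, Finset.mul_sum]
  apply Finset.sum_congr rfl
  intro j _
  ring

theorem form_inj (k : ℕ) {v w : VV k} (h : ∀ y, form k v 1 y = form k w 1 y) : v = w := by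
  have h1 : (∑ i : Fin (k + 1), Polynomial.C (v i) * Polynomial.X ^ (k - (i : ℕ))) =
      ∑ i : Fin (k + 1), Polynomial.C (w i) * Polynomial.X ^ (k - (i : ℕ)) := by
    apply Polynomial.funext
    intro y
    have := h y
    simp only [form, one_pow, one_mul] at this
    simpa [Polynomial.eval_finsetSum] using this
  have hc : ∀ u : VV k, ∀ j : Fin (k + 1),
      (∑ i : Fin (k + 1), Polynomial.C (u i) * Polynomial.X ^ (k - (i : ℕ))).coeff (k - (j : ℕ))
        = u j := by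
    intro u j
    rw [Polynomial.finsetSum_coeff, Finset.sum_eq_single j]
    · simp
    · intro i _ hij
      rw [Polynomial.coeff_C_mul, Polynomial.coeff_X_pow, if_neg, mul_zero]
      intro hh
      apply hij
      apply Fin.ext
      omega
    · intro hj; exact absurd (Finset.mem_univ j) hj
  ext j
  rw [← hc v j, ← hc w j, h1]

/-- the representation of `SL(2,ℝ)` on binary forms -/
def rep (k : ℕ) (g : SL(2,ℝ)) (v : VV k) : VV k := actM k (g 0 0) (g 0 1) (g 1 0) (g 1 1) v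

theorem form_ext (k : ℕ) {v w : VV k} (h : ∀ x y, form k v x y = form k w x y) : v = w :=
  form_inj k (fun y => h 1 y)

theorem form_add (k : ℕ) (v w : VV k) (x y : ℝ) :
    form k (v + w) x y = form k v x y + form k w x y := by
  simp [form, add_mul, Finset.sum_add_distrib]

theorem form_neg (k : ℕ) (v : VV k) (x y : ℝ) : form k (-v) x y = - form k v x y := by
  simp [form]

theorem form_sub (k : ℕ) (v w : VV k) (x y : ℝ) :
    form k (v - w) x y = form k v x y - form k w x y := by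
  rw [sub_eq_add_neg, form_add, form_neg, sub_eq_add_neg]

theorem form_zero (k : ℕ) (x y : ℝ) : form k 0 x y = 0 := by
  simp [form]

theorem form_rep (k : ℕ) (g : SL(2,ℝ)) (v : VV k) (x y : ℝ) :
    form k (rep k g v) x y = form k v (x * g 0 0 + y * g 1 0) (x * g 0 1 + y * g 1 1) :=
  form_actM k _ _ _ _ v x y

theorem rep_one (k : ℕ) (v : VV k) : rep k 1 v = v := by
  apply form_ext
  intro x y
  rw [form_rep]
  simp

theorem rep_mul (k : ℕ) (g h : SL(2,ℝ)) (v : VV k) : rep k (g * h) v = rep k g (rep k h v) := by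
  apply form_ext
  intro x y
  rw [form_rep, form_rep, form_rep]
  have : ∀ i j : Fin 2, (g * h) i j = g i 0 * h 0 j + g i 1 * h 1 j := by
    intro i j
    have : (g * h) i j =
      ((g : Matrix (Fin 2) (Fin 2) ℝ) * (h : Matrix (Fin 2) (Fin 2) ℝ)) i j := rfl
    rw [this, Matrix.mul_apply, Fin.sum_univ_two]
  rw [this, this, this, this]
  congr 1 <;> ring

theorem rep_add (k : ℕ) (g : SL(2,ℝ)) (v w : VV k) :
    rep k g (v + w) = rep k g v + rep k g w := by
  apply form_ext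
  intro x y
  rw [form_add, form_rep, form_rep, form_rep, form_add]

theorem rep_neg (k : ℕ) (g : SL(2,ℝ)) (v : VV k) : rep k g (-v) = - rep k g v := by
  apply form_ext
  intro x y
  rw [form_neg, form_rep, form_rep, form_neg]

theorem rep_zero (k : ℕ) (g : SL(2,ℝ)) : rep k g 0 = 0 := by
  apply form_ext
  intro x y
  rw [form_rep, form_zero, form_zero]

/-- the functional `f ↦ f(0,1)`, invariant under upper unipotent matrices -/
def ph (k : ℕ) (v : VV k) : ℝ := v 0

theorem ph_eq (k : ℕ) (v : VV k) : ph k v = form k v 0 1 := by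
  unfold ph form
  rw [Finset.sum_eq_single 0]
  · simp
  · intro i _ hi
    have : (i : ℕ) ≠ 0 := fun h => hi (Fin.ext h)
    simp [this]
  · intro h; exact absurd (Finset.mem_univ _) h

theorem ph_rep (k : ℕ) (g : SL(2,ℝ)) (v : VV k) : ph k (rep k g v) = form k v (g 1 0) (g 1 1) := by
  rw [ph_eq, form_rep]
  simp

theorem ph_add (k : ℕ) (v w : VV k) : ph k (v + w) = ph k v + ph k w := rfl

theorem form_smul_homog (k : ℕ) (v : VV k) (r x y : ℝ) :
    form k v (r * x) (r * y) = r ^ k * form k v x y := by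
  unfold form
  rw [Finset.mul_sum]
  apply Finset.sum_congr rfl
  intro i _
  have : r ^ k = r ^ (i : ℕ) * r ^ (k - (i : ℕ)) := by
    rw [← pow_add]; congr 1; omega
  rw [mul_pow, mul_pow, this]
  ring

/-- a form with `φ(g v) = φ(v)` for all `g` vanishes (degree at least one) -/
theorem eq_zero_of_ph (k : ℕ) (hk : 0 < k) (v : VV k)
    (h : ∀ g : SL(2,ℝ), ph k (rep k g v) = ph k v) : v = 0 := by
  have hconst : ∀ x y : ℝ, x ^ 2 + y ^ 2 ≠ 0 → form k v x y = ph k v := by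
    intro x y hxy
    let g : SL(2,ℝ) := ⟨!![y / (x ^ 2 + y ^ 2), -x / (x ^ 2 + y ^ 2); x, y], by
      rw [Matrix.det_fin_two]
      simp only [Matrix.of_apply, Matrix.cons_val', Matrix.cons_val_zero, Matrix.cons_val_one,
        Matrix.cons_val_fin_one]
      field_simp
      ring⟩
    have h1 := h g
    rw [ph_rep] at h1
    exact h1
  have h1 := hconst 0 1 (by norm_num)
  have h2 := hconst 0 2 (by norm_num)
  have h3 := form_smul_homog k v 2 0 1
  rw [mul_zero, mul_one, h1, h2] at h3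
  have h4 : (1 : ℝ) < 2 ^ k := one_lt_pow₀ (by norm_num) hk.ne'
  have h5 : ph k v = 0 := by
    have : (2 ^ k - 1) * ph k v = 0 := by rw [sub_mul, one_mul, ← h3, sub_self]
    rcases mul_eq_zero.mp this with h6 | h6
    · linarith
    · exact h6
  apply form_inj k
  intro y
  rw [hconst 1 y (by positivity), h5, form_zero]

theorem contDiff_actM (k : ℕ) :
    ContDiff ℝ ∞ (fun p : (ℝ × ℝ × ℝ × ℝ) × VV k =>
      actM k p.1.1 p.1.2.1 p.1.2.2.1 p.1.2.2.2 p.2) := by
  rw [contDiff_pi]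
  intro j
  unfold actM
  apply ContDiff.sum
  intro i _
  apply ContDiff.mul
  · fun_prop
  · unfold coefM
    apply ContDiff.sum
    intro l _
    apply ContDiff.sum
    intro m _
    split_ifs
    · fun_prop
    · fun_prop

/-! ### the groups -/

theorem contMDiff_rep (k : ℕ) {E' H' M : Type} [NormedAddCommGroup E'] [NormedSpace ℝ E']
    [TopologicalSpace H'] {I : ModelWithCorners ℝ E' H'} [TopologicalSpace M] [ChartedSpace H' M]
    {f : M → SL(2,ℝ)} {v : M → VV k} (hf : ContMDiff I 𝓘(ℝ, ℝ × ℝ × ℝ) ∞ f)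
    (hv : ContMDiff I 𝓘(ℝ, VV k) ∞ v) : ContMDiff I 𝓘(ℝ, VV k) ∞ (fun x => rep k (f x) (v x)) := by
  have h1 : (fun x => rep k (f x) (v x)) = (fun p : (ℝ × ℝ × ℝ × ℝ) × VV k =>
      actM k p.1.1 p.1.2.1 p.1.2.2.1 p.1.2.2.2 p.2) ∘
      (fun x => (((f x) 0 0, (f x) 0 1, (f x) 1 0, (f x) 1 1), v x)) := rfl
  rw [h1]
  apply ContMDiff.comp (contDiff_actM k).contMDiff
  have he : ∀ i j : Fin 2, ContMDiff I 𝓘(ℝ, ℝ) ∞ (fun x => f x i j) :=
    fun i j => (smooth_entry i j).comp hf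
  exact ((he 0 0).prodMk_space ((he 0 1).prodMk_space ((he 1 0).prodMk_space (he 1 1)))).prodMk_space hv

theorem smooth_uu : ContMDiff 𝓘(ℝ, ℝ) 𝓘(ℝ, ℝ × ℝ × ℝ) ∞ uu := by
  apply smooth_into
  intro i j
  fin_cases i <;> fin_cases j
  · simp only [Fin.zero_eta, uu_00]; exact contMDiff_const
  · simp only [Fin.zero_eta, Fin.mk_one, uu_01]; exact contMDiff_id
  · simp only [Fin.zero_eta, Fin.mk_one, uu_10]; exact contMDiff_const
  · simp only [Fin.mk_one, uu_11]; exact contMDiff_const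

/-- the semidirect product of the space of forms with the unipotent group -/
def QQ (k : ℕ) : Type := VV k × ℝ

instance (k : ℕ) : TopologicalSpace (QQ k) := inferInstanceAs (TopologicalSpace (VV k × ℝ))
instance (k : ℕ) : T2Space (QQ k) := inferInstanceAs (T2Space (VV k × ℝ))
instance (k : ℕ) : SecondCountableTopology (QQ k) :=
  inferInstanceAs (SecondCountableTopology (VV k × ℝ))
instance (k : ℕ) : LocallyCompactSpace (QQ k) := inferInstanceAs (LocallyCompactSpace (VV k × ℝ))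
instance (k : ℕ) : SimplyConnectedSpace (QQ k) :=
  inferInstanceAs (SimplyConnectedSpace (VV k × ℝ))
instance (k : ℕ) : ChartedSpace (VV k × ℝ) (QQ k) :=
  inferInstanceAs (ChartedSpace (VV k × ℝ) (VV k × ℝ))

instance (k : ℕ) : Group (QQ k) where
  mul x y := (x.1 + rep k (uu x.2) y.1, x.2 + y.2)
  one := (0, 0)
  inv x := (- rep k (uu (-x.2)) x.1, -x.2)
  mul_assoc x y z := by
    apply Prod.ext
    · change (x.1 + rep k (uu x.2) y.1) + rep k (uu (x.2 + y.2)) z.1 =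
        x.1 + rep k (uu x.2) (y.1 + rep k (uu y.2) z.1)
      rw [uu_add, rep_mul, rep_add, add_assoc]
    · exact add_assoc _ _ _
  one_mul x := by
    apply Prod.ext
    · change 0 + rep k (uu 0) x.1 = x.1
      rw [uu_zero, rep_one, zero_add]
    · exact zero_add _
  mul_one x := by
    apply Prod.ext
    · change x.1 + rep k (uu x.2) 0 = x.1
      rw [rep_zero, add_zero]
    · exact add_zero _
  inv_mul_cancel x := by
    apply Prod.ext
    · change - rep k (uu (-x.2)) x.1 + rep k (uu (-x.2)) x.1 = 0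
      exact neg_add_cancel _
    · exact neg_add_cancel _

theorem QQ_mul (k : ℕ) (x y : QQ k) : x * y = (x.1 + rep k (uu x.2) y.1, x.2 + y.2) := rfl
theorem QQ_inv (k : ℕ) (x : QQ k) : x⁻¹ = (- rep k (uu (-x.2)) x.1, -x.2) := rfl
theorem QQ_one (k : ℕ) : (1 : QQ k) = ((0 : VV k), (0 : ℝ)) := rfl

theorem contMDiff_QQ_fst (k : ℕ) : ContMDiff 𝓘(ℝ, VV k × ℝ) 𝓘(ℝ, VV k) ∞
    (fun x : QQ k => x.1) := by
  have : ContMDiff 𝓘(ℝ, VV k × ℝ) 𝓘(ℝ, VV k) ∞ (fun x : VV k × ℝ => x.1) :=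
    contDiff_fst.contMDiff
  exact this

theorem contMDiff_QQ_snd (k : ℕ) : ContMDiff 𝓘(ℝ, VV k × ℝ) 𝓘(ℝ, ℝ) ∞
    (fun x : QQ k => x.2) := by
  have : ContMDiff 𝓘(ℝ, VV k × ℝ) 𝓘(ℝ, ℝ) ∞ (fun x : VV k × ℝ => x.2) :=
    contDiff_snd.contMDiff
  exact this

/-- smooth maps into `QQ k` -/
theorem smooth_into_QQ (k : ℕ) {E' H' M : Type} [NormedAddCommGroup E'] [NormedSpace ℝ E']
    [TopologicalSpace H'] {I : ModelWithCorners ℝ E' H'} [TopologicalSpace M] [ChartedSpace H' M]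
    {v : M → VV k} {s : M → ℝ} (hv : ContMDiff I 𝓘(ℝ, VV k) ∞ v)
    (hs : ContMDiff I 𝓘(ℝ, ℝ) ∞ s) :
    ContMDiff I 𝓘(ℝ, VV k × ℝ) ∞ (fun x => ((v x, s x) : QQ k)) := by
  have : ContMDiff I 𝓘(ℝ, VV k × ℝ) ∞ (fun x => ((v x, s x) : VV k × ℝ)) := hv.prodMk_space hs
  exact this

instance (k : ℕ) : LieGroup 𝓘(ℝ, VV k × ℝ) ∞ (QQ k) where
  toIsManifold := inferInstanceAs (IsManifold 𝓘(ℝ, VV k × ℝ) ∞ (VV k × ℝ))
  contMDiff_mul := by
    have h1 := (contMDiff_QQ_fst k).comp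
      (contMDiff_fst (I := 𝓘(ℝ, VV k × ℝ)) (J := 𝓘(ℝ, VV k × ℝ)) (M := QQ k) (N := QQ k) (n := ∞))
    have h2 := (contMDiff_QQ_snd k).comp
      (contMDiff_fst (I := 𝓘(ℝ, VV k × ℝ)) (J := 𝓘(ℝ, VV k × ℝ)) (M := QQ k) (N := QQ k) (n := ∞))
    have h3 := (contMDiff_QQ_fst k).comp
      (contMDiff_snd (I := 𝓘(ℝ, VV k × ℝ)) (J := 𝓘(ℝ, VV k × ℝ)) (M := QQ k) (N := QQ k) (n := ∞))
    have h4 := (contMDiff_QQ_snd k).comp
      (contMDiff_snd (I := 𝓘(ℝ, VV k × ℝ)) (J := 𝓘(ℝ, VV k × ℝ)) (M := QQ k) (N := QQ k) (n := ∞))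
    exact smooth_into_QQ k (h1.add (contMDiff_rep k (smooth_uu.comp h2) h3)) (h2.add h4)
  contMDiff_inv := by
    have h1 := contMDiff_QQ_fst k
    have h2 := contMDiff_QQ_snd k
    exact smooth_into_QQ k (contMDiff_rep k (smooth_uu.comp h2.neg) h1).neg h2.neg

/-- the second group: `(ℝ × V) ⋊ SL₂(ℝ)` -/
def LL (k : ℕ) : Type := (ℝ × VV k) × SL(2,ℝ)

instance (k : ℕ) : TopologicalSpace (LL k) :=
  inferInstanceAs (TopologicalSpace ((ℝ × VV k) × SL(2,ℝ)))
instance (k : ℕ) : T2Space (LL k) := inferInstanceAs (T2Space ((ℝ × VV k) × SL(2,ℝ)))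
instance (k : ℕ) : ChartedSpace (ModelProd (ℝ × VV k) (ℝ × ℝ × ℝ)) (LL k) :=
  inferInstanceAs (ChartedSpace (ModelProd (ℝ × VV k) (ℝ × ℝ × ℝ)) ((ℝ × VV k) × SL(2,ℝ)))

instance (k : ℕ) : Group (LL k) where
  mul x y := ((x.1.1 + y.1.1, x.1.2 + rep k x.2 y.1.2), x.2 * y.2)
  one := ((0, 0), 1)
  inv x := ((-x.1.1, - rep k x.2⁻¹ x.1.2), x.2⁻¹)
  mul_assoc x y z := by
    apply Prod.ext
    · apply Prod.ext
      · exact add_assoc _ _ _
      · change (x.1.2 + rep k x.2 y.1.2) + rep k (x.2 * y.2) z.1.2 =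
          x.1.2 + rep k x.2 (y.1.2 + rep k y.2 z.1.2)
        rw [rep_mul, rep_add, add_assoc]
    · exact mul_assoc _ _ _
  one_mul x := by
    apply Prod.ext
    · apply Prod.ext
      · exact zero_add _
      · change 0 + rep k 1 x.1.2 = x.1.2
        rw [rep_one, zero_add]
    · exact one_mul _
  mul_one x := by
    apply Prod.ext
    · apply Prod.ext
      · exact add_zero _
      · change x.1.2 + rep k x.2 0 = x.1.2
        rw [rep_zero, add_zero]
    · exact mul_one _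
  inv_mul_cancel x := by
    apply Prod.ext
    · apply Prod.ext
      · exact neg_add_cancel _
      · change - rep k x.2⁻¹ x.1.2 + rep k x.2⁻¹ x.1.2 = 0
        exact neg_add_cancel _
    · exact inv_mul_cancel _

theorem LL_mul (k : ℕ) (x y : LL k) :
    x * y = ((x.1.1 + y.1.1, x.1.2 + rep k x.2 y.1.2), x.2 * y.2) := rfl
theorem LL_inv (k : ℕ) (x : LL k) : x⁻¹ = ((-x.1.1, - rep k x.2⁻¹ x.1.2), x.2⁻¹) := rfl
theorem LL_one (k : ℕ) : (1 : LL k) = (((0 : ℝ), (0 : VV k)), (1 : SL(2,ℝ))) := rfl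

theorem smooth_LL_1 (k : ℕ) : ContMDiff (𝓘(ℝ, ℝ × VV k).prod 𝓘(ℝ, ℝ × ℝ × ℝ)) 𝓘(ℝ, ℝ × VV k) ∞
    (fun x : LL k => x.1) := by
  have : ContMDiff (𝓘(ℝ, ℝ × VV k).prod 𝓘(ℝ, ℝ × ℝ × ℝ)) 𝓘(ℝ, ℝ × VV k) ∞
    (fun x : (ℝ × VV k) × SL(2,ℝ) => x.1) := contMDiff_fst
  exact this

theorem smooth_LL_11 (k : ℕ) : ContMDiff (𝓘(ℝ, ℝ × VV k).prod 𝓘(ℝ, ℝ × ℝ × ℝ)) 𝓘(ℝ, ℝ) ∞
    (fun x : LL k => x.1.1) := contDiff_fst.contMDiff.comp (smooth_LL_1 k)

theorem smooth_LL_12 (k : ℕ) : ContMDiff (𝓘(ℝ, ℝ × VV k).prod 𝓘(ℝ, ℝ × ℝ × ℝ)) 𝓘(ℝ, VV k) ∞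
    (fun x : LL k => x.1.2) := contDiff_snd.contMDiff.comp (smooth_LL_1 k)

theorem smooth_LL_2 (k : ℕ) : ContMDiff (𝓘(ℝ, ℝ × VV k).prod 𝓘(ℝ, ℝ × ℝ × ℝ)) 𝓘(ℝ, ℝ × ℝ × ℝ) ∞
    (fun x : LL k => x.2) := by
  have : ContMDiff (𝓘(ℝ, ℝ × VV k).prod 𝓘(ℝ, ℝ × ℝ × ℝ)) 𝓘(ℝ, ℝ × ℝ × ℝ) ∞
    (fun x : (ℝ × VV k) × SL(2,ℝ) => x.2) := contMDiff_snd
  exact this

/-- smooth maps into `LL k` -/
theorem smooth_into_LL (k : ℕ) {E' H' M : Type} [NormedAddCommGroup E'] [NormedSpace ℝ E']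
    [TopologicalSpace H'] {I : ModelWithCorners ℝ E' H'} [TopologicalSpace M] [ChartedSpace H' M]
    {t : M → ℝ} {v : M → VV k} {g : M → SL(2,ℝ)} (ht : ContMDiff I 𝓘(ℝ, ℝ) ∞ t)
    (hv : ContMDiff I 𝓘(ℝ, VV k) ∞ v) (hg : ContMDiff I 𝓘(ℝ, ℝ × ℝ × ℝ) ∞ g) :
    ContMDiff I (𝓘(ℝ, ℝ × VV k).prod 𝓘(ℝ, ℝ × ℝ × ℝ)) ∞ (fun x => (((t x, v x), g x) : LL k)) := by
  have : ContMDiff I (𝓘(ℝ, ℝ × VV k).prod 𝓘(ℝ, ℝ × ℝ × ℝ)) ∞
      (fun x => (((t x, v x), g x) : (ℝ × VV k) × SL(2,ℝ))) := (ht.prodMk_space hv).prodMk hg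
  exact this

instance (k : ℕ) : LieGroup (𝓘(ℝ, ℝ × VV k).prod 𝓘(ℝ, ℝ × ℝ × ℝ)) ∞ (LL k) where
  toIsManifold := inferInstanceAs
    (IsManifold (𝓘(ℝ, ℝ × VV k).prod 𝓘(ℝ, ℝ × ℝ × ℝ)) ∞ ((ℝ × VV k) × SL(2,ℝ)))
  contMDiff_mul := by
    have f1 := contMDiff_fst (I := 𝓘(ℝ, ℝ × VV k).prod 𝓘(ℝ, ℝ × ℝ × ℝ))
      (J := 𝓘(ℝ, ℝ × VV k).prod 𝓘(ℝ, ℝ × ℝ × ℝ)) (M := LL k) (N := LL k) (n := ∞)
    have f2 := contMDiff_snd (I := 𝓘(ℝ, ℝ × VV k).prod 𝓘(ℝ, ℝ × ℝ × ℝ))
      (J := 𝓘(ℝ, ℝ × VV k).prod 𝓘(ℝ, ℝ × ℝ × ℝ)) (M := LL k) (N := LL k) (n := ∞)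
    exact smooth_into_LL k (((smooth_LL_11 k).comp f1).add ((smooth_LL_11 k).comp f2))
      (((smooth_LL_12 k).comp f1).add (contMDiff_rep k ((smooth_LL_2 k).comp f1)
        ((smooth_LL_12 k).comp f2)))
      (((smooth_LL_2 k).comp f1).mul ((smooth_LL_2 k).comp f2))
  contMDiff_inv := by
    exact smooth_into_LL k (smooth_LL_11 k).neg
      (contMDiff_rep k (smooth_LL_2 k).inv (smooth_LL_12 k)).neg (smooth_LL_2 k).inv

/-- the vector group `ℝ × V`, written multiplicatively -/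
def MM (k : ℕ) : Type := ℝ × VV k

instance (k : ℕ) : TopologicalSpace (MM k) := inferInstanceAs (TopologicalSpace (ℝ × VV k))
instance (k : ℕ) : T2Space (MM k) := inferInstanceAs (T2Space (ℝ × VV k))
instance (k : ℕ) : SecondCountableTopology (MM k) :=
  inferInstanceAs (SecondCountableTopology (ℝ × VV k))
instance (k : ℕ) : SimplyConnectedSpace (MM k) :=
  inferInstanceAs (SimplyConnectedSpace (ℝ × VV k))
instance (k : ℕ) : ChartedSpace (ℝ × VV k) (MM k) :=
  inferInstanceAs (ChartedSpace (ℝ × VV k) (ℝ × VV k))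

instance (k : ℕ) : CommGroup (MM k) where
  mul x y := (x.1 + y.1, x.2 + y.2)
  one := (0, 0)
  inv x := (-x.1, -x.2)
  mul_assoc x y z := Prod.ext (add_assoc _ _ _) (add_assoc _ _ _)
  one_mul x := Prod.ext (zero_add _) (zero_add _)
  mul_one x := Prod.ext (add_zero _) (add_zero _)
  inv_mul_cancel x := Prod.ext (neg_add_cancel _) (neg_add_cancel _)
  mul_comm x y := Prod.ext (add_comm _ _) (add_comm _ _)

theorem MM_mul (k : ℕ) (x y : MM k) : x * y = (x.1 + y.1, x.2 + y.2) := rfl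

instance (k : ℕ) : LieGroup 𝓘(ℝ, ℝ × VV k) ∞ (MM k) where
  toIsManifold := inferInstanceAs (IsManifold 𝓘(ℝ, ℝ × VV k) ∞ (ℝ × VV k))
  contMDiff_mul := by
    have : ContMDiff (𝓘(ℝ, ℝ × VV k).prod 𝓘(ℝ, ℝ × VV k)) 𝓘(ℝ, ℝ × VV k) ∞
      (fun p : (ℝ × VV k) × (ℝ × VV k) => p.1 + p.2) := contMDiff_add _ _
    exact this
  contMDiff_inv := by
    have : ContMDiff 𝓘(ℝ, ℝ × VV k) 𝓘(ℝ, ℝ × VV k) ∞
      (fun p : (ℝ × VV k) => -p) := contMDiff_neg _ _
    exact this

/-! ### homeomorphism groups -/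

/-- continuous self-maps of `X` under composition, with the compact-open topology -/
def CE (X : Type) [TopologicalSpace X] : Type := C(X, X)

section CE

variable {X : Type} [TopologicalSpace X]

instance : TopologicalSpace (CE X) := inferInstanceAs (TopologicalSpace C(X, X))
instance [T2Space X] : T2Space (CE X) := inferInstanceAs (T2Space C(X, X))

instance : Monoid (CE X) where
  mul f g := ContinuousMap.comp f g
  one := ContinuousMap.id X
  mul_assoc _ _ _ := rfl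
  one_mul _ := rfl
  mul_one _ := rfl

/-- evaluation -/
def CE.ev (f : CE X) (x : X) : X := (show C(X, X) from f) x

theorem CE.mul_ev (f g : CE X) (x : X) : (f * g).ev x = f.ev (g.ev x) := rfl
theorem CE.one_ev (x : X) : (1 : CE X).ev x = x := rfl
theorem CE.ext {f g : CE X} (h : ∀ x, f.ev x = g.ev x) : f = g := ContinuousMap.ext h

instance [LocallyCompactSpace X] : ContinuousMul (CE X) where
  continuous_mul := by
    have : Continuous fun x : C(X, X) × C(X, X) => x.1.comp x.2 :=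
      ContinuousMap.continuous_comp'.comp continuous_swap
    exact this

theorem CE.continuous_ev (x : X) : Continuous (fun f : CE X => f.ev x) := by
  have : Continuous (fun f : C(X, X) => f x) := continuous_eval_const x
  exact this

variable {L : Type} [Group L] [TopologicalSpace L] [IsTopologicalGroup L]

/-- left translation by `g`, transported to `X` by a homeomorphism -/
def trans (e : L ≃ₜ X) (g : L) : CE X :=
  (⟨fun x => e (g * e.symm x), by fun_prop⟩ : C(X, X))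

theorem trans_ev (e : L ≃ₜ X) (g : L) (x : X) : (trans e g).ev x = e (g * e.symm x) := rfl

/-- the action homomorphism -/
def actHom (e : L ≃ₜ X) : L →* (CE X)ˣ where
  toFun g :=
    { val := trans e g
      inv := trans e g⁻¹
      val_inv := by
        apply CE.ext; intro x
        rw [CE.mul_ev, trans_ev, trans_ev]; simp [CE.one_ev]
      inv_val := by
        apply CE.ext; intro x
        rw [CE.mul_ev, trans_ev, trans_ev]; simp [CE.one_ev] }
  map_one' := by
    apply Units.ext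
    apply CE.ext; intro x
    change (trans e 1).ev x = (1 : CE X).ev x
    rw [trans_ev, CE.one_ev]; simp
  map_mul' g h := by
    apply Units.ext
    apply CE.ext; intro x
    change (trans e (g * h)).ev x = (trans e g * trans e h).ev x
    rw [CE.mul_ev, trans_ev, trans_ev, trans_ev]; simp [mul_assoc]

theorem continuous_trans (e : L ≃ₜ X) : Continuous (trans e) := by
  have : Continuous (fun g : L => (⟨fun x => e (g * e.symm x), by fun_prop⟩ : C(X, X))) := by
    apply ContinuousMap.continuous_of_continuous_uncurry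
    exact e.continuous.comp (continuous_fst.mul (e.symm.continuous.comp continuous_snd))
  exact this

theorem continuous_actHom (e : L ≃ₜ X) : Continuous (actHom e) := by
  rw [Units.continuous_iff]
  exact ⟨continuous_trans e, (continuous_trans e).comp continuous_inv⟩

theorem isClosedEmbedding_actHom [T2Space X] (e : L ≃ₜ X) :
    IsClosedEmbedding (actHom e) := by
  have hl : Function.LeftInverse (fun f : (CE X)ˣ => e.symm ((f : CE X).ev (e 1))) (actHom e) := by
    intro g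
    change e.symm ((trans e g).ev (e 1)) = g
    rw [trans_ev]; simp
  apply hl.isClosedEmbedding _ (continuous_actHom e)
  exact e.symm.continuous.comp ((CE.continuous_ev _).comp Units.continuous_val)

end CE

/-! ### the two groups inside one homeomorphism group -/

instance (k : ℕ) : IsTopologicalGroup (QQ k) :=
  topologicalGroup_of_lieGroup 𝓘(ℝ, VV k × ℝ) ∞

instance (k : ℕ) : IsTopologicalGroup (LL k) :=
  topologicalGroup_of_lieGroup (𝓘(ℝ, ℝ × VV k).prod 𝓘(ℝ, ℝ × ℝ × ℝ)) ∞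

instance : LocallyCompactSpace SL(2,ℝ) :=
  ChartedSpace.locallyCompactSpace (ℝ × ℝ × ℝ) SL(2,ℝ)

instance : SecondCountableTopology SL(2,ℝ) := isOpenEmbedding_Psi.isInducing.secondCountableTopology

instance (k : ℕ) : LocallyCompactSpace (LL k) :=
  inferInstanceAs (LocallyCompactSpace ((ℝ × VV k) × SL(2,ℝ)))

instance (k : ℕ) : SecondCountableTopology (LL k) :=
  inferInstanceAs (SecondCountableTopology ((ℝ × VV k) × SL(2,ℝ)))

theorem continuous_uu : Continuous uu := smooth_uu.continuous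

theorem continuous_ph (k : ℕ) : Continuous (ph k) := by
  unfold ph; fun_prop

/-- the homeomorphism between the two groups -/
def theta (k : ℕ) : (QQ k × SL(2,ℝ)) ≃ₜ LL k where
  toFun x := ((tau x.2 + ph k x.1.1, x.1.1), uu (x.1.2 - tau x.2) * x.2)
  invFun y := (((y.1.2, tau y.2) : QQ k), uu (y.1.1 - ph k y.1.2 - tau y.2) * y.2)
  left_inv x := by
    have h1 : tau (uu (x.1.2 - tau x.2) * x.2) = x.1.2 := by
      rw [tau_uu_mul]; ring
    apply Prod.ext
    · change ((x.1.1, tau (uu (x.1.2 - tau x.2) * x.2)) : QQ k) = x.1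
      rw [h1]; rfl
    · change uu (tau x.2 + ph k x.1.1 - ph k x.1.1 - tau (uu (x.1.2 - tau x.2) * x.2)) *
        (uu (x.1.2 - tau x.2) * x.2) = x.2
      rw [h1, ← mul_assoc, ← uu_add]
      have : tau x.2 + ph k x.1.1 - ph k x.1.1 - x.1.2 + (x.1.2 - tau x.2) = 0 := by ring
      rw [this, uu_zero, one_mul]
  right_inv y := by
    have h1 : tau (uu (y.1.1 - ph k y.1.2 - tau y.2) * y.2) = y.1.1 - ph k y.1.2 := by
      rw [tau_uu_mul]; ring
    apply Prod.ext
    · apply Prod.ext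
      · change tau (uu (y.1.1 - ph k y.1.2 - tau y.2) * y.2) + ph k y.1.2 = y.1.1
        rw [h1]; ring
      · rfl
    · change uu (tau y.2 - tau (uu (y.1.1 - ph k y.1.2 - tau y.2) * y.2)) *
        (uu (y.1.1 - ph k y.1.2 - tau y.2) * y.2) = y.2
      rw [h1, ← mul_assoc, ← uu_add]
      have : tau y.2 - (y.1.1 - ph k y.1.2) + (y.1.1 - ph k y.1.2 - tau y.2) = 0 := by ring
      rw [this, uu_zero, one_mul]
  continuous_toFun := by
    have h2 : Continuous (fun x : QQ k × SL(2,ℝ) => tau x.2) := continuous_tau.comp continuous_snd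
    have h11 : Continuous (fun x : QQ k × SL(2,ℝ) => x.1.1) :=
      (contMDiff_QQ_fst k).continuous.comp continuous_fst
    have h12 : Continuous (fun x : QQ k × SL(2,ℝ) => x.1.2) :=
      (contMDiff_QQ_snd k).continuous.comp continuous_fst
    have : Continuous (fun x : QQ k × SL(2,ℝ) =>
        (((tau x.2 + ph k x.1.1, x.1.1), uu (x.1.2 - tau x.2) * x.2) : (ℝ × VV k) × SL(2,ℝ))) :=
      ((h2.add ((continuous_ph k).comp h11)).prodMk h11).prodMk
        ((continuous_uu.comp (h12.sub h2)).mul continuous_snd)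
    exact this
  continuous_invFun := by
    have h2 : Continuous (fun x : LL k => x.2) := (smooth_LL_2 k).continuous
    have h3 : Continuous (fun x : LL k => tau x.2) := continuous_tau.comp h2
    have h11 : Continuous (fun x : LL k => x.1.1) := (smooth_LL_11 k).continuous
    have h12 : Continuous (fun x : LL k => x.1.2) := (smooth_LL_12 k).continuous
    have h4 : Continuous (fun y : LL k => ((y.1.2, tau y.2) : QQ k)) := h12.prodMk h3
    exact h4.prodMk ((continuous_uu.comp ((h11.sub ((continuous_ph k).comp h12)).sub h3)).mul h2)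

theorem theta_apply (k : ℕ) (x : QQ k × SL(2,ℝ)) :
    theta k x = ((tau x.2 + ph k x.1.1, x.1.1), uu (x.1.2 - tau x.2) * x.2) := rfl

theorem ph_uu (k : ℕ) (s : ℝ) (v : VV k) : ph k (rep k (uu s) v) = ph k v := by
  rw [ph_rep, ph_eq, uu_10, uu_11]

/-- an element of `LL k` from its components -/
def mkLL (k : ℕ) (t : ℝ) (v : VV k) (g : SL(2,ℝ)) : LL k := ((t, v), g)

theorem theta_equiv (k : ℕ) (t : ℝ) (q : QQ k) (y : QQ k × SL(2,ℝ)) :
    theta k ((q, uu (t - ph k q.1)) * y) = mkLL k t q.1 (uu q.2) * theta k y := by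
  have h1 : tau (uu (t - ph k q.1) * y.2) = t - ph k q.1 + tau y.2 := tau_uu_mul _ _
  apply Prod.ext
  · apply Prod.ext
    · change tau (uu (t - ph k q.1) * y.2) + ph k (q.1 + rep k (uu q.2) y.1.1) =
        t + (tau y.2 + ph k y.1.1)
      rw [h1, ph_add, ph_uu]; ring
    · rfl
  · change uu (q.2 + y.1.2 - tau (uu (t - ph k q.1) * y.2)) * (uu (t - ph k q.1) * y.2) =
      uu q.2 * (uu (y.1.2 - tau y.2) * y.2)
    rw [h1, ← mul_assoc, ← uu_add, ← mul_assoc, ← uu_add]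
    congr 2
    ring

/-- the first embedding -/
def iot1 (k : ℕ) : QQ k × SL(2,ℝ) →* (CE (LL k))ˣ := actHom (theta k)

/-- the second embedding -/
def iot2 (k : ℕ) : LL k →* (CE (LL k))ˣ := actHom (Homeomorph.refl (LL k))

theorem agree (k : ℕ) (t : ℝ) (q : QQ k) :
    iot1 k (q, uu (t - ph k q.1)) = iot2 k (mkLL k t q.1 (uu q.2)) := by
  apply Units.ext
  apply CE.ext
  intro x
  have h := theta_equiv k t q ((theta k).symm x)
  rw [Homeomorph.apply_symm_apply] at h
  exact h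

/-! ### nilpotency of `QQ k` -/

theorem coefM_uu (k : ℕ) (s : ℝ) (i j : ℕ) (hij : j ≤ i) :
    coefM k 1 s 0 1 i j = if i = j then 1 else 0 := by
  unfold coefM
  rw [Finset.sum_eq_single i]
  · rw [Finset.sum_eq_single 0]
    · simp
    · intro m _ hm
      have : i + m ≠ j := by omega
      simp [this]
    · intro h; simp at h
  · intro l hl hli
    rw [Finset.mem_range] at hl
    have : i - l ≠ 0 := by omega
    apply Finset.sum_eq_zero
    intro m _
    simp [this]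
  · intro h; simp at h

theorem rep_uu_apply (k : ℕ) (s : ℝ) (v : VV k) (j : Fin (k + 1)) (h : ∀ i : Fin (k + 1), i < j → v i = 0) :
    rep k (uu s) v j = v j := by
  unfold rep actM
  rw [uu_00, uu_01, uu_10, uu_11]
  rw [Finset.sum_eq_single j]
  · rw [coefM_uu k s j j le_rfl, if_pos rfl, mul_one]
  · intro i _ hij
    rcases lt_or_ge i j with h1 | h1
    · rw [h i h1, zero_mul]
    · have h2 : (i : ℕ) ≠ (j : ℕ) := fun h => hij (Fin.ext h)
      rw [coefM_uu k s i j (by exact h1), if_neg h2, mul_zero]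
  · intro hh; exact absurd (Finset.mem_univ _) hh

/-- the steps of an ascending central series -/
def HH (k n : ℕ) : Subgroup (QQ k) where
  carrier := {x | (n ≤ k + 1 → x.2 = 0) ∧ ∀ i : Fin (k + 1), (i : ℕ) + n ≤ k → x.1 i = 0}
  one_mem' := ⟨fun _ => rfl, fun _ _ => rfl⟩
  mul_mem' := by
    intro x y hx hy
    refine ⟨fun h => ?_, fun i hi => ?_⟩
    · change x.2 + y.2 = 0
      rw [hx.1 h, hy.1 h, add_zero]
    · change (x.1 + rep k (uu x.2) y.1) i = 0
      rw [hx.1 (by omega), uu_zero, rep_one, Pi.add_apply, hx.2 i hi, hy.2 i hi, add_zero]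
  inv_mem' := by
    intro x hx
    refine ⟨fun h => ?_, fun i hi => ?_⟩
    · change -x.2 = 0
      rw [hx.1 h, neg_zero]
    · change (- rep k (uu (-x.2)) x.1) i = 0
      rw [hx.1 (by omega), neg_zero, uu_zero, rep_one, Pi.neg_apply, hx.2 i hi, neg_zero]

theorem mem_HH (k n : ℕ) (x : QQ k) : x ∈ HH k n ↔
    (n ≤ k + 1 → x.2 = 0) ∧ ∀ i : Fin (k + 1), (i : ℕ) + n ≤ k → x.1 i = 0 := Iff.rfl

/-- an element of `QQ k` from its components -/
def mkQQ (k : ℕ) (v : VV k) (s : ℝ) : QQ k := (v, s)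

theorem comm_eq (k : ℕ) (v : VV k) (g : QQ k) :
    ⁅mkQQ k v 0, g⁆ = mkQQ k (v - rep k (uu g.2) v) 0 := by
  rw [commutatorElement_def]
  apply Prod.ext
  · change v + rep k (uu 0) g.1 + rep k (uu (0 + g.2)) (-rep k (uu (-0)) v) +
      rep k (uu (0 + g.2 + -0)) (-rep k (uu (-g.2)) g.1) = v - rep k (uu g.2) v
    rw [neg_zero, uu_zero, rep_one, rep_one, zero_add, add_zero, rep_neg, rep_neg, ← rep_mul,
      ← uu_add, add_neg_cancel, uu_zero, rep_one]
    abel
  · change 0 + g.2 + -0 + -g.2 = 0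
    ring

theorem comm_snd (k : ℕ) (x g : QQ k) : ⁅x, g⁆.2 = 0 := by
  rw [commutatorElement_def]
  change x.2 + g.2 + -x.2 + -g.2 = 0
  ring

theorem isNilpotent_QQ (k : ℕ) : Group.IsNilpotent (QQ k) := by
  rw [Subgroup.nilpotent_iff_finite_ascending_central_series]
  refine ⟨k + 2, HH k, ⟨?_, ?_⟩, ?_⟩
  · rw [eq_bot_iff]
    intro x hx
    rw [mem_HH] at hx
    rw [Subgroup.mem_bot]
    apply Prod.ext
    · funext i
      exact hx.2 i (by omega)
    · exact hx.1 (by omega)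
  · intro x n hx g
    rw [mem_HH] at hx ⊢
    refine ⟨fun _ => comm_snd k x g, fun j hj => ?_⟩
    have h0 : x.2 = 0 := hx.1 (by omega)
    have hx' : x = mkQQ k x.1 0 := by
      apply Prod.ext
      · rfl
      · exact h0
    rw [hx', comm_eq]
    change (x.1 - rep k (uu g.2) x.1) j = 0
    rw [Pi.sub_apply, rep_uu_apply, sub_self]
    intro i hi
    apply hx.2 i
    have : (i : ℕ) < (j : ℕ) := hi
    omega
  · rw [eq_top_iff]
    intro x _
    rw [mem_HH]
    refine ⟨fun h => by omega, fun i hi => by omega⟩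

/-! ### the class of `QQ k` is large -/

/-- one commutator step -/
def DD (k : ℕ) (v : VV k) : VV k := v - rep k (uu 1) v

theorem DD_mem (k : ℕ) (n : ℕ) (v : VV k) :
    mkQQ k ((DD k)^[n] v) 0 ∈ (⊤ : Subgroup (QQ k)).lowerCentralSeries n := by
  induction n with
  | zero => exact Subgroup.mem_top _
  | succ n ih =>
    rw [Function.iterate_succ_apply', Subgroup.lowerCentralSeries_succ]
    have h : mkQQ k ((DD k) ((DD k)^[n] v)) 0 =
        ⁅mkQQ k ((DD k)^[n] v) 0, mkQQ k 0 1⁆ := by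
      rw [comm_eq]; rfl
    rw [h]
    exact Subgroup.commutator_mem_commutator ih (Subgroup.mem_top _)

theorem form_DD (k : ℕ) (v : VV k) (y : ℝ) :
    form k (DD k v) 1 y = - fwdDiff 1 (fun y => form k v 1 y) y := by
  unfold DD fwdDiff
  rw [form_sub, form_rep]
  simp [add_comm]

theorem form_DD_iter (k n : ℕ) (v : VV k) :
    (fun y => form k ((DD k)^[n] v) 1 y) = (-1 : ℝ) ^ n • (fwdDiff 1)^[n] (fun y => form k v 1 y) := by
  induction n with
  | zero => simp
  | succ n ih =>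
    rw [Function.iterate_succ_apply', Function.iterate_succ_apply']
    funext y
    rw [form_DD, ih]
    rw [fwdDiff_const_smul]
    simp [pow_succ]

theorem DD_ne (k : ℕ) : ∃ v : VV k, (DD k)^[k] v ≠ 0 := by
  refine ⟨Pi.single 0 1, fun h => ?_⟩
  have h1 := congrFun (form_DD_iter k k (Pi.single 0 1)) 0
  simp only [h, form_zero] at h1
  have h2 : (fun y : ℝ => form k (Pi.single 0 1) 1 y) = fun y => y ^ k := by
    funext y
    unfold form
    rw [Finset.sum_eq_single 0]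
    · simp
    · intro i _ hi
      simp [hi]
    · intro h; exact absurd (Finset.mem_univ _) h
  rw [h2, fwdDiff_iter_eq_factorial] at h1
  simp at h1
  exact absurd h1 (Nat.factorial_ne_zero k)

theorem lcs_QQ_ne (k : ℕ) : (⊤ : Subgroup (QQ k)).lowerCentralSeries k ≠ ⊥ := by
  intro h
  obtain ⟨v, hv⟩ := DD_ne k
  have h1 := DD_mem k k v
  rw [h, Subgroup.mem_bot] at h1
  exact hv (congrArg Prod.fst h1)

/-! ### general lemmas -/

theorem quotient_of_hom {H S : Type} [Group H] [TopologicalSpace H] [IsTopologicalGroup H]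
    [Group S] [TopologicalSpace S] (p : H →* S) (hs : Function.Surjective p)
    (hc : Continuous p) (ho : IsOpenMap p) (K : Subgroup H) (hK : p.ker = K) :
    ∃ _ : K.Normal, Nonempty ((H ⧸ K) ≃ₜ* S) := by
  subst hK
  refine ⟨inferInstance, ⟨?_⟩⟩
  let f := QuotientGroup.quotientKerEquivOfSurjective p hs
  have hf : ∀ x : H, f (QuotientGroup.mk x) = p x := fun x => rfl
  exact
    { f with
      continuous_toFun := by
        change Continuous f
        apply (QuotientGroup.isQuotientMap_mk (N := p.ker)).continuous_iff.mpr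
        exact hc
      continuous_invFun := by
        change Continuous f.symm
        rw [continuous_def]
        intro s hs'
        have h1 : f.symm ⁻¹' s = p '' (QuotientGroup.mk ⁻¹' s) := by
          ext y
          constructor
          · intro hy
            obtain ⟨x, hx⟩ := hs y
            refine ⟨x, ?_, hx⟩
            have : f.symm y = (x : H ⧸ p.ker) := by
              rw [MulEquiv.symm_apply_eq, hf, hx]
            rw [Set.mem_preimage, this] at hy
            exact hy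
          · rintro ⟨x, hx, rfl⟩
            have : f.symm (p x) = (x : H ⧸ p.ker) := by
              rw [MulEquiv.symm_apply_eq, hf]
            rw [Set.mem_preimage, this]
            exact hx
        rw [h1]
        exact ho _ (hs'.preimage QuotientGroup.continuous_mk) }

/-- a closed embedding homomorphism identifies the source with its range -/
def rangeEquiv {L G : Type} [Group L] [TopologicalSpace L] [Group G] [TopologicalSpace G]
    (f : L →* G) (hf : IsClosedEmbedding f) : L ≃ₜ* ↥f.range :=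
  { MonoidHom.ofInjective hf.injective with
    continuous_toFun := by
      change Continuous (MonoidHom.ofInjective hf.injective)
      exact Continuous.subtype_mk hf.continuous _
    continuous_invFun := by
      change Continuous (MonoidHom.ofInjective hf.injective).symm
      rw [hf.isEmbedding.continuous_iff]
      have : (f ∘ (MonoidHom.ofInjective hf.injective).symm : ↥f.range → G) = Subtype.val := by
        funext x
        exact MonoidHom.apply_ofInjective_symm hf.injective x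
      rw [this]
      exact continuous_subtype_val }

theorem rangeEquiv_coe {L G : Type} [Group L] [TopologicalSpace L] [Group G] [TopologicalSpace G]
    (f : L →* G) (hf : IsClosedEmbedding f) (x : L) : ((rangeEquiv f hf x : ↥f.range) : G) = f x :=
  rfl

theorem piece_of_embedding {G : Type} [Group G] [TopologicalSpace G] [IsTopologicalGroup G]
    (L : RealLieGroup) (f : L.carrier →* G) (hf : IsClosedEmbedding f)
    (M : RealLieGroup) (j : M.carrier →* L.carrier) (hj : IsLieInclusion M L j)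
    (hM : SimplyConnectedSpace M.carrier) (hn : Group.IsNilpotent M.carrier)
    (p : L.carrier →* SL(2,ℝ)) (hp : Function.Surjective p) (hc : Continuous p)
    (ho : IsOpenMap p) (hk : p.ker = j.range) : Piece f.range (j.range.map f) where
  closed := hf.isClosed_range
  le := by
    rw [MonoidHom.range_eq_map f]
    exact Subgroup.map_mono le_top
  nilpotent := by
    have h1 : Function.Surjective (f.comp j).rangeRestrict := MonoidHom.rangeRestrict_surjective _
    have h2 : Group.IsNilpotent ↥(f.comp j).range :=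
      Group.nilpotent_of_surjective (f.comp j).rangeRestrict h1
    rw [MonoidHom.range_comp] at h2
    exact h2
  lie := by
    refine ⟨L, rangeEquiv f hf, M, j, hj, hM, fun x => ?_⟩
    rw [rangeEquiv_coe, Subgroup.mem_map_iff_mem hf.injective]
  quotient := by
    let e := rangeEquiv f hf
    let p' : ↥f.range →* SL(2,ℝ) := p.comp (e.symm : ↥f.range →* L.carrier)
    apply quotient_of_hom p'
    · exact hp.comp e.symm.surjective
    · exact hc.comp e.symm.continuous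
    · exact ho.comp e.symm.toHomeomorph.isOpenMap
    · ext x
      obtain ⟨y, rfl⟩ := e.surjective x
      have h1 : p' (e y) = p y := by
        change p (e.symm (e y)) = p y
        rw [ContinuousMulEquiv.symm_apply_apply]
      rw [MonoidHom.mem_ker, h1, Subgroup.mem_subgroupOf, ← MonoidHom.mem_ker, hk]
      change _ ↔ f y ∈ _
      rw [Subgroup.mem_map_iff_mem hf.injective]

/-! ### the four Lie groups -/

/-- the first group `Q × SL₂(ℝ)` -/
def LG1 (k : ℕ) : RealLieGroup :=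
  letI c : ChartedSpace ((VV k × ℝ) × (ℝ × ℝ × ℝ)) (QQ k × SL(2,ℝ)) :=
    (inferInstance : ChartedSpace (ModelProd (VV k × ℝ) (ℝ × ℝ × ℝ)) (QQ k × SL(2,ℝ)))
  { carrier := QQ k × SL(2,ℝ)
    E := (VV k × ℝ) × (ℝ × ℝ × ℝ)
    lie := by
      have h : LieGroup (𝓘(ℝ, VV k × ℝ).prod 𝓘(ℝ, ℝ × ℝ × ℝ)) ∞ (QQ k × SL(2,ℝ)) := inferInstance
      rw [← modelWithCornersSelf_prod] at h
      exact h }

/-- the second group -/
def LG2 (k : ℕ) : RealLieGroup :=
  letI c : ChartedSpace ((ℝ × VV k) × (ℝ × ℝ × ℝ)) (LL k) :=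
    (inferInstance : ChartedSpace (ModelProd (ℝ × VV k) (ℝ × ℝ × ℝ)) (LL k))
  { carrier := LL k
    E := (ℝ × VV k) × (ℝ × ℝ × ℝ)
    lie := by
      have h : LieGroup (𝓘(ℝ, ℝ × VV k).prod 𝓘(ℝ, ℝ × ℝ × ℝ)) ∞ (LL k) := inferInstance
      rw [← modelWithCornersSelf_prod] at h
      exact h }

def LM1 (k : ℕ) : RealLieGroup where
  carrier := QQ k
  E := VV k × ℝ

def LM2 (k : ℕ) : RealLieGroup where
  carrier := MM k
  E := ℝ × VV k

def jj1 (k : ℕ) : QQ k →* QQ k × SL(2,ℝ) := MonoidHom.inl _ _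

def jj2 (k : ℕ) : MM k →* LL k where
  toFun x := mkLL k x.1 x.2 1
  map_one' := rfl
  map_mul' x y := by
    apply Prod.ext
    · apply Prod.ext
      · rfl
      · change x.2 + y.2 = x.2 + rep k 1 y.2
        rw [rep_one]
    · change (1 : SL(2,ℝ)) = 1 * 1
      rw [one_mul]

def pp1 (k : ℕ) : QQ k × SL(2,ℝ) →* SL(2,ℝ) := MonoidHom.snd _ _

def pp2 (k : ℕ) : LL k →* SL(2,ℝ) where
  toFun x := x.2
  map_one' := rfl
  map_mul' _ _ := rfl

theorem immersion_of_leftInverse {M L : RealLieGroup} (j : M.carrier → L.carrier)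
    (q : L.carrier → M.carrier) (hj : ContMDiff 𝓘(ℝ, M.E) 𝓘(ℝ, L.E) ∞ j)
    (hq : ContMDiff 𝓘(ℝ, L.E) 𝓘(ℝ, M.E) ∞ q) (h : ∀ x, q (j x) = x) (x : M.carrier) :
    Function.Injective (mfderiv 𝓘(ℝ, M.E) 𝓘(ℝ, L.E) j x) := by
  have h1 : MDifferentiableAt 𝓘(ℝ, M.E) 𝓘(ℝ, L.E) j x := (hj.mdifferentiable (by simp)) x
  have h2 : MDifferentiableAt 𝓘(ℝ, L.E) 𝓘(ℝ, M.E) q (j x) := (hq.mdifferentiable (by simp)) (j x)
  have h3 := mfderiv_comp x h2 h1
  have h4 : q ∘ j = id := by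
    funext y; exact h y
  rw [h4, mfderiv_id] at h3
  intro a b hab
  have h5 := congrArg (mfderiv 𝓘(ℝ, L.E) 𝓘(ℝ, M.E) q (j x)) hab
  have h6 : ∀ a, (mfderiv 𝓘(ℝ, L.E) 𝓘(ℝ, M.E) q (j x)) ((mfderiv 𝓘(ℝ, M.E) 𝓘(ℝ, L.E) j x) a) =
      a := by
    intro a
    have := congrArg (fun l => l a) h3
    exact this.symm
  rw [h6, h6] at h5
  exact h5

theorem incl1 (k : ℕ) : IsLieInclusion (LM1 k) (LG1 k) (jj1 k) := by
  let f : (LM1 k).carrier → (LG1 k).carrier := jj1 k
  let q : (LG1 k).carrier → (LM1 k).carrier := fun x => x.1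
  have hs : ContMDiff 𝓘(ℝ, (LM1 k).E) 𝓘(ℝ, (LG1 k).E) ∞ f := by
    have h : ContMDiff 𝓘(ℝ, VV k × ℝ) (𝓘(ℝ, VV k × ℝ).prod 𝓘(ℝ, ℝ × ℝ × ℝ)) ∞
        (fun x : QQ k => ((x, 1) : QQ k × SL(2,ℝ))) := contMDiff_id.prodMk contMDiff_const
    rw [← modelWithCornersSelf_prod] at h
    exact h
  have hq : ContMDiff 𝓘(ℝ, (LG1 k).E) 𝓘(ℝ, (LM1 k).E) ∞ q := by
    have h : ContMDiff (𝓘(ℝ, VV k × ℝ).prod 𝓘(ℝ, ℝ × ℝ × ℝ)) 𝓘(ℝ, VV k × ℝ) ∞
        (fun x : QQ k × SL(2,ℝ) => x.1) := contMDiff_fst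
    rw [← modelWithCornersSelf_prod] at h
    exact h
  exact
    { injective := fun x y h => congrArg Prod.fst h
      smooth := hs
      immersion := immersion_of_leftInverse (M := LM1 k) (L := LG1 k) f q hs hq (fun x => rfl) }

theorem incl2 (k : ℕ) : IsLieInclusion (LM2 k) (LG2 k) (jj2 k) := by
  let f : (LM2 k).carrier → (LG2 k).carrier := jj2 k
  let q : (LG2 k).carrier → (LM2 k).carrier := fun x => x.1
  have hs : ContMDiff 𝓘(ℝ, (LM2 k).E) 𝓘(ℝ, (LG2 k).E) ∞ f := by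
    have h : ContMDiff 𝓘(ℝ, ℝ × VV k) (𝓘(ℝ, ℝ × VV k).prod 𝓘(ℝ, ℝ × ℝ × ℝ)) ∞
        (fun x : ℝ × VV k => ((x, 1) : (ℝ × VV k) × SL(2,ℝ))) :=
      contMDiff_id.prodMk contMDiff_const
    rw [← modelWithCornersSelf_prod] at h
    exact h
  have hq : ContMDiff 𝓘(ℝ, (LG2 k).E) 𝓘(ℝ, (LM2 k).E) ∞ q := by
    have h : ContMDiff (𝓘(ℝ, ℝ × VV k).prod 𝓘(ℝ, ℝ × ℝ × ℝ)) 𝓘(ℝ, ℝ × VV k) ∞
        (fun x : (ℝ × VV k) × SL(2,ℝ) => x.1) := contMDiff_fst
    rw [← modelWithCornersSelf_prod] at h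
    exact h
  exact
    { injective := fun x y h => congrArg Prod.fst h
      smooth := hs
      immersion := immersion_of_leftInverse (M := LM2 k) (L := LG2 k) f q hs hq (fun x => rfl) }

theorem ker1 (k : ℕ) : (pp1 k).ker = (jj1 k).range := by
  ext x
  rw [MonoidHom.mem_ker, MonoidHom.mem_range]
  constructor
  · intro h
    exact ⟨x.1, Prod.ext rfl h.symm⟩
  · rintro ⟨y, rfl⟩
    rfl

theorem ker2 (k : ℕ) : (pp2 k).ker = (jj2 k).range := by
  ext x
  rw [MonoidHom.mem_ker, MonoidHom.mem_range]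
  constructor
  · intro h
    exact ⟨x.1, Prod.ext rfl h.symm⟩
  · rintro ⟨y, rfl⟩
    rfl

/-! ### the ambient group -/

instance (X : Type) [TopologicalSpace X] [T2Space X] : T2Space (CE X)ˣ :=
  Units.isEmbedding_embedProduct.t2Space

/-- the ambient group: generated by the two groups inside the group of homeomorphisms of `LL k` -/
def Gam (k : ℕ) : Subgroup (CE (LL k))ˣ := (iot1 k).range ⊔ (iot2 k).range

/-- the first embedding -/
def kap1 (k : ℕ) : QQ k × SL(2,ℝ) →* ↥(Gam k) :=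
  (iot1 k).codRestrict (Gam k) (fun x => (le_sup_left : (iot1 k).range ≤ Gam k) ⟨x, rfl⟩)

/-- the second embedding -/
def kap2 (k : ℕ) : LL k →* ↥(Gam k) :=
  (iot2 k).codRestrict (Gam k) (fun x => (le_sup_right : (iot2 k).range ≤ Gam k) ⟨x, rfl⟩)

theorem isClosedEmbedding_codRestrict {L G : Type} [Group L] [TopologicalSpace L] [Group G]
    [TopologicalSpace G] (f : L →* G) (hf : IsClosedEmbedding f) (S : Subgroup G)
    (h : ∀ x, f x ∈ S) : IsClosedEmbedding (f.codRestrict S h) := by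
  have h1 : IsEmbedding (f.codRestrict S h) := by
    apply IsEmbedding.of_comp (Continuous.subtype_mk hf.continuous h) continuous_subtype_val
    exact hf.isEmbedding
  refine ⟨h1, ?_⟩
  have h2 : Set.range (f.codRestrict S h) = Subtype.val ⁻¹' (Set.range f) := by
    ext x
    constructor
    · rintro ⟨y, rfl⟩
      exact ⟨y, rfl⟩
    · rintro ⟨y, hy⟩
      exact ⟨y, Subtype.ext hy⟩
  rw [h2]
  exact hf.isClosed_range.preimage continuous_subtype_val

theorem emb1 (k : ℕ) : IsClosedEmbedding (kap1 k) :=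
  isClosedEmbedding_codRestrict _ (isClosedEmbedding_actHom (theta k)) _ _

theorem emb2 (k : ℕ) : IsClosedEmbedding (kap2 k) :=
  isClosedEmbedding_codRestrict _ (isClosedEmbedding_actHom (Homeomorph.refl (LL k))) _ _

theorem gen (k : ℕ) : (kap1 k).range ⊔ (kap2 k).range = ⊤ := by
  apply Subgroup.map_injective (Gam k).subtype_injective
  rw [Subgroup.map_sup]
  have h1 : (kap1 k).range.map (Gam k).subtype = (iot1 k).range := by
    rw [← MonoidHom.range_comp]; rfl
  have h2 : (kap2 k).range.map (Gam k).subtype = (iot2 k).range := by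
    rw [← MonoidHom.range_comp]; rfl
  rw [h1, h2, ← MonoidHom.range_eq_map, Subgroup.range_subtype]
  rfl

/-- the first normal subgroup -/
def BB1 (k : ℕ) : Subgroup ↥(Gam k) := (jj1 k).range.map (kap1 k)

/-- the second normal subgroup -/
def BB2 (k : ℕ) : Subgroup ↥(Gam k) := (jj2 k).range.map (kap2 k)

theorem mem_BB1 (k : ℕ) (x : ↥(Gam k)) : x ∈ BB1 k ↔ ∃ q : QQ k, kap1 k (q, 1) = x := by
  unfold BB1
  rw [Subgroup.mem_map]
  constructor
  · rintro ⟨y, ⟨q, rfl⟩, rfl⟩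
    exact ⟨q, rfl⟩
  · rintro ⟨q, rfl⟩
    exact ⟨(q, 1), ⟨q, rfl⟩, rfl⟩

theorem mem_BB2 (k : ℕ) (x : ↥(Gam k)) :
    x ∈ BB2 k ↔ ∃ (t : ℝ) (v : VV k), kap2 k (mkLL k t v 1) = x := by
  unfold BB2
  rw [Subgroup.mem_map]
  constructor
  · rintro ⟨y, ⟨q, rfl⟩, rfl⟩
    exact ⟨q.1, q.2, rfl⟩
  · rintro ⟨t, v, rfl⟩
    exact ⟨mkLL k t v 1, ⟨(t, v), rfl⟩, rfl⟩

theorem agree' (k : ℕ) (t : ℝ) (q : QQ k) :
    kap1 k (q, uu (t - ph k q.1)) = kap2 k (mkLL k t q.1 (uu q.2)) :=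
  Subtype.ext (agree k t q)

theorem BB1_eq (k : ℕ) (q : QQ k) : kap1 k (q, 1) = kap2 k (mkLL k (ph k q.1) q.1 (uu q.2)) := by
  have h := agree' k (ph k q.1) q
  rwa [sub_self, uu_zero] at h

theorem BB2_eq (k : ℕ) (t : ℝ) (v : VV k) :
    kap2 k (mkLL k t v 1) = kap1 k (mkQQ k v 0, uu (t - ph k v)) := by
  have h := agree' k t (mkQQ k v 0)
  have h1 : uu (mkQQ k v 0).2 = 1 := uu_zero
  rw [h1] at h
  exact h.symm

/-- the homomorphism onto `B₁B₂` -/
def PP (k : ℕ) : Multiplicative ℝ × QQ k →* LL k where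
  toFun x := mkLL k x.1.toAdd x.2.1 (uu x.2.2)
  map_one' := by
    apply Prod.ext
    · rfl
    · exact uu_zero
  map_mul' x y := by
    apply Prod.ext
    · rfl
    · exact uu_add _ _

theorem BB_le (k : ℕ) : BB1 k ⊔ BB2 k ≤ ((kap2 k).comp (PP k)).range := by
  apply sup_le
  · intro x hx
    obtain ⟨q, rfl⟩ := (mem_BB1 k x).mp hx
    exact ⟨(Multiplicative.ofAdd (ph k q.1), q), (BB1_eq k q).symm⟩
  · intro x hx
    obtain ⟨t, v, rfl⟩ := (mem_BB2 k x).mp hx
    refine ⟨(Multiplicative.ofAdd t, mkQQ k v 0), ?_⟩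
    change kap2 k (mkLL k t v (uu 0)) = _
    rw [uu_zero]

theorem nilp (k : ℕ) : Group.IsNilpotent ↥(BB1 k ⊔ BB2 k) := by
  have := isNilpotent_QQ k
  have : Group.IsNilpotent (Multiplicative ℝ × QQ k) := inferInstance
  have h2 : Group.IsNilpotent ↥((kap2 k).comp (PP k)).range :=
    Group.nilpotent_of_surjective ((kap2 k).comp (PP k)).rangeRestrict
      (MonoidHom.rangeRestrict_surjective _)
  have h3 := (Subgroup.isNilpotent_iff_lowerCentralSeries _).mp h2
  obtain ⟨n, hn⟩ := h3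
  apply (Subgroup.isNilpotent_iff_lowerCentralSeries _).mpr
  refine ⟨n, ?_⟩
  rw [eq_bot_iff, ← hn]
  exact Subgroup.lowerCentralSeries_mono n (BB_le k)

theorem class_gt (N : ℕ) : N < Group.nilpotencyClass ↥(BB1 (N + 1) ⊔ BB2 (N + 1)) := by
  by_contra hcon
  push Not at hcon
  have := nilp (N + 1)
  have h1 : (BB1 (N + 1) ⊔ BB2 (N + 1)).lowerCentralSeries N = ⊥ :=
    Subgroup.lowerCentralSeries_eq_bot_of_nilpotencyClass_le hcon
  have h2 : (BB1 (N + 1)).lowerCentralSeries N = ⊥ := by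
    rw [eq_bot_iff, ← h1]
    exact Subgroup.lowerCentralSeries_mono N le_sup_left
  let f : QQ (N + 1) →* ↥(Gam (N + 1)) := (kap1 (N + 1)).comp (jj1 (N + 1))
  have hf : Function.Injective f := (emb1 (N + 1)).injective.comp (incl1 (N + 1)).injective
  have h3 : BB1 (N + 1) = (⊤ : Subgroup (QQ (N + 1))).map f := by
    unfold BB1
    rw [← MonoidHom.range_eq_map, MonoidHom.range_comp]
  rw [h3, ← Subgroup.map_lowerCentralSeries, Subgroup.map_eq_bot_iff_of_injective _ hf] at h2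
  have h4 := Subgroup.lowerCentralSeries_antitone (⊤ : Subgroup (QQ (N + 1))) (Nat.le_succ N)
  rw [h2, le_bot_iff] at h4
  exact lcs_QQ_ne (N + 1) h4

theorem eq_of_kap (k : ℕ) (x : QQ k × SL(2,ℝ)) (y : LL k) (h : kap1 k x = kap2 k y) :
    theta k x = y := by
  have h1 : iot1 k x = iot2 k y := congrArg Subtype.val h
  have h2 : (iot1 k x : CE (LL k)).ev (theta k 1) = (iot2 k y : CE (LL k)).ev (theta k 1) := by
    rw [h1]
  have h3 : (iot1 k x : CE (LL k)).ev (theta k 1) = theta k x := by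
    change theta k (x * (theta k).symm (theta k 1)) = theta k x
    rw [Homeomorph.symm_apply_apply, mul_one]
  have h4 : (iot2 k y : CE (LL k)).ev (theta k 1) = y := by
    change y * theta k 1 = y
    have : theta k 1 = 1 := by
      rw [theta_apply]
      apply Prod.ext
      · apply Prod.ext
        · change tau 1 + ph k 0 = 0
          rw [tau_one]; simp [ph]
        · rfl
      · change uu (0 - tau 1) * 1 = 1
        rw [tau_one, sub_zero, uu_zero, one_mul]
    rw [this, mul_one]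
  rw [← h3, h2, h4]

/-- elements of `B₁ ∩ B₂` -/
theorem mem_inter (k : ℕ) (t : ℝ) (v : VV k) (h : kap2 k (mkLL k t v 1) ∈ BB1 k) :
    t = ph k v := by
  obtain ⟨q, hq⟩ := (mem_BB1 k _).mp h
  have h1 := eq_of_kap k _ _ hq
  rw [theta_apply] at h1
  have h2 : tau (1 : SL(2,ℝ)) + ph k q.1 = t := congrArg (fun z : LL k => z.1.1) h1
  have h3 : q.1 = v := congrArg (fun z : LL k => z.1.2) h1
  rw [tau_one, zero_add, h3] at h2
  exact h2.symm

theorem core_free (k : ℕ) (hk : 0 < k) (N : Subgroup ↥(Gam k)) (hN : N ≤ BB1 k ⊓ BB2 k)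
    (hn : N.Normal) : N = ⊥ := by
  rw [eq_bot_iff]
  intro n hnN
  have hn2 := (hN hnN).2
  obtain ⟨t, v, rfl⟩ := (mem_BB2 k _).mp hn2
  have ht : t = ph k v := mem_inter k t v (hN hnN).1
  have hv : v = 0 := by
    apply eq_zero_of_ph k hk
    intro g
    have h1 := hn.conj_mem _ hnN (kap2 k (mkLL k 0 0 g))
    rw [← map_inv, ← map_mul, ← map_mul] at h1
    have h2 : mkLL k 0 0 g * mkLL k t v 1 * (mkLL k 0 0 g)⁻¹ = mkLL k t (rep k g v) 1 := by
      apply Prod.ext
      · apply Prod.ext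
        · change (0 : ℝ) + t + -0 = t
          ring
        · change (0 : VV k) + rep k g v + rep k (g * 1) (-rep k g⁻¹ 0) = rep k g v
          rw [rep_zero, neg_zero, rep_zero, zero_add, add_zero]
      · change g * 1 * g⁻¹ = 1
        rw [mul_one, mul_inv_cancel]
    rw [h2] at h1
    have h3 := mem_inter k t (rep k g v) (hN h1).1
    rw [← h3, ht]
  rw [Subgroup.mem_bot, ht, hv]
  have : mkLL k (ph k 0) 0 1 = 1 := rfl
  rw [this, map_one]

theorem piece1 (k : ℕ) : Piece (kap1 k).range (BB1 k) := by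
  have := isNilpotent_QQ k
  exact piece_of_embedding (LG1 k) (kap1 k) (emb1 k) (LM1 k) (jj1 k) (incl1 k)
    (inferInstanceAs (SimplyConnectedSpace (QQ k))) this (pp1 k) (fun g => ⟨(1, g), rfl⟩)
    continuous_snd isOpenMap_snd (ker1 k)

theorem piece2 (k : ℕ) : Piece (kap2 k).range (BB2 k) :=
  piece_of_embedding (LG2 k) (kap2 k) (emb2 k) (LM2 k) (jj2 k) (incl2 k)
    (inferInstanceAs (SimplyConnectedSpace (MM k)))
    (inferInstanceAs (Group.IsNilpotent (MM k))) (pp2 k) (fun g => ⟨mkLL k 0 0 g, rfl⟩)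
    (smooth_LL_2 k).continuous
    (by
      have : IsOpenMap (fun x : (ℝ × VV k) × SL(2,ℝ) => x.2) := isOpenMap_snd
      exact this) (ker2 k)

/-- In an admissible triple `B₁ ⊔ B₂` is the product set `B₁B₂`. -/
theorem coe_sup_eq_mul {G : Type} [Group G] [TopologicalSpace G] {G₁ G₂ B₁ B₂ : Subgroup G}
    (h : Admissible G G₁ G₂ B₁ B₂) : ((B₁ ⊔ B₂ : Subgroup G) : Set G) = (B₁ : Set G) * B₂ := by
  apply Subgroup.coe_mul_of_right_le_normalizer_left
  obtain ⟨hn, _⟩ := h.piece₁.quotient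
  have := hn
  have h1 : G₁ ≤ Subgroup.normalizer B₁ := Subgroup.le_normalizer_of_normal_subgroupOf h.piece₁.le
  refine le_trans ?_ h1
  intro b hb
  have := h.product_le 1 (one_mem _) b hb
  rw [one_mul] at this
  exact this.1

theorem admissible (k : ℕ) (hk : 0 < k) :
    Admissible ↥(Gam k) (kap1 k).range (kap2 k).range (BB1 k) (BB2 k) where
  topologicalGroup := inferInstance
  hausdorff := inferInstance
  piece₁ := piece1 k
  piece₂ := piece2 k
  product_le := by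
    intro b₁ h₁ b₂ h₂
    have h1 : b₁ ∈ (kap1 k).range ⊓ (kap2 k).range := by
      obtain ⟨q, rfl⟩ := (mem_BB1 k _).mp h₁
      exact ⟨⟨_, rfl⟩, ⟨_, (BB1_eq k q).symm⟩⟩
    have h2 : b₂ ∈ (kap1 k).range ⊓ (kap2 k).range := by
      obtain ⟨t, v, rfl⟩ := (mem_BB2 k _).mp h₂
      exact ⟨⟨_, (BB2_eq k t v).symm⟩, ⟨_, rfl⟩⟩
    exact mul_mem h1 h2
  core := core_free k hk

/-- The negation of Q1: for every `N` there is an admissible triple `(G; G₁, G₂)`, even with `G`
generated by `G₁` and `G₂`, for which the nilpotent group `B₁B₂` has class larger than `N`. -/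
theorem unbounded (N : ℕ) : ∃ (G : Type) (_ : Group G) (_ : TopologicalSpace G)
    (G₁ G₂ B₁ B₂ : Subgroup G), Admissible G G₁ G₂ B₁ B₂ ∧ G₁ ⊔ G₂ = ⊤ ∧
      ((B₁ ⊔ B₂ : Subgroup G) : Set G) = (B₁ : Set G) * B₂ ∧
      Group.IsNilpotent ↥(B₁ ⊔ B₂) ∧ N < Group.nilpotencyClass ↥(B₁ ⊔ B₂) :=
  ⟨↥(Gam (N + 1)), inferInstance, inferInstance, (kap1 (N + 1)).range, (kap2 (N + 1)).range,
    BB1 (N + 1), BB2 (N + 1), admissible (N + 1) (Nat.succ_pos N), gen (N + 1),
    coe_sup_eq_mul (admissible (N + 1) (Nat.succ_pos N)), nilp (N + 1), class_gt N⟩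

end

end Pool.Agent.Helper337.Amalgam
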