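import Mathlib

set_option autoImplicit false

namespace Pool.Agent.Helper337.Focal

open Subgroup
open scoped commutatorElement

/-- shapes of multilinear commutator words -/
inductive Tree where
  | leaf : Tree
  | node : Tree → Tree → Tree

/-- the values of a word of the given shape -/
def vals (G : Type*) [Group G] : Tree → Set G
  | .leaf => Set.univ
  | .node s t => {x | ∃ a ∈ vals G s, ∃ b ∈ vals G t, ⁅a, b⁆ = x}

section basic

variable {G H : Type*} [Group G] [Group H]

theorem vals_one (t : Tree) : (1 : G) ∈ vals G t := by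
  induction t with
  | leaf => trivial
  | node s t hs ht => exact ⟨1, hs, 1, ht, by simp⟩

theorem vals_map (f : G →* H) (t : Tree) : ∀ {x : G}, x ∈ vals G t → f x ∈ vals H t := by
  induction t with
  | leaf => intro x _; trivial
  | node s t hs ht =>
    rintro x ⟨a, ha, b, hb, rfl⟩
    exact ⟨f a, hs ha, f b, ht hb, by simp [commutatorElement_def]⟩

theorem vals_conj (t : Tree) {x : G} (hx : x ∈ vals G t) (g : G) : g * x * g⁻¹ ∈ vals G t :=
  vals_map (MulAut.conj g).toMonoidHom t hx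

theorem vals_lift (f : G →* H) (hf : Function.Surjective f) (t : Tree) :
    ∀ {y : H}, y ∈ vals H t → ∃ x ∈ vals G t, f x = y := by
  induction t with
  | leaf => intro y _; obtain ⟨x, hx⟩ := hf y; exact ⟨x, trivial, hx⟩
  | node s t hs ht =>
    rintro y ⟨a, ha, b, hb, rfl⟩
    obtain ⟨a', ha', rfl⟩ := hs ha
    obtain ⟨b', hb', rfl⟩ := ht hb
    exact ⟨⁅a', b'⁆, ⟨a', ha', b', hb', rfl⟩, by simp [commutatorElement_def]⟩

theorem vals_inv (t : Tree) : ∀ {x : G}, x ∈ vals G t → x⁻¹ ∈ vals G t := by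
  induction t with
  | leaf => intro x _; trivial
  | node s t hs ht =>
    rintro x ⟨a, ha, b, hb, rfl⟩
    refine ⟨a⁻¹, hs ha, a * b * a⁻¹, vals_conj t hb a, ?_⟩
    simp only [commutatorElement_def]
    group

/-- the verbal subgroup -/
def verb (G : Type*) [Group G] (t : Tree) : Subgroup G := closure (vals G t)

theorem vals_subset_verb (t : Tree) : vals G t ⊆ (verb G t : Set G) := subset_closure

/-- a subgroup generated by a conjugation invariant set is normal -/
theorem closure_normal_of {X : Set G} (hX : ∀ x ∈ X, ∀ g : G, g * x * g⁻¹ ∈ X) :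
    (closure X).Normal := by
  constructor
  intro n hn g
  induction hn using closure_induction with
  | mem x hx => exact subset_closure (hX x hx g)
  | one => simp
  | mul x y _ _ hx hy =>
    have : g * (x * y) * g⁻¹ = (g * x * g⁻¹) * (g * y * g⁻¹) := by group
    rw [this]; exact mul_mem hx hy
  | inv x _ hx =>
    have : g * x⁻¹ * g⁻¹ = (g * x * g⁻¹)⁻¹ := by group
    rw [this]; exact inv_mem hx

instance verb_normal (t : Tree) : (verb G t).Normal :=
  closure_normal_of fun _ hx g => vals_conj t hx g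

/-- closure of a set invariant under conjugation by `g` -/
theorem closure_conj_mem {X : Set G} {g : G} (hX : ∀ x ∈ X, g * x * g⁻¹ ∈ X) {y : G}
    (hy : y ∈ closure X) : g * y * g⁻¹ ∈ closure X := by
  induction hy using closure_induction with
  | mem x hx => exact subset_closure (hX x hx)
  | one => simp
  | mul x y _ _ hx hy =>
    have : g * (x * y) * g⁻¹ = (g * x * g⁻¹) * (g * y * g⁻¹) := by group
    rw [this]; exact mul_mem hx hy
  | inv x _ hx =>
    have : g * x⁻¹ * g⁻¹ = (g * x * g⁻¹)⁻¹ := by group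
    rw [this]; exact inv_mem hx

/-- commutators `⁅a, h⁆` with `a` in a closure -/
theorem comm_mem_left {X : Set G} {h : G} {L : Subgroup G}
    (hX : ∀ x ∈ X, ∀ l ∈ L, x * l * x⁻¹ ∈ L ∧ x⁻¹ * l * x ∈ L)
    (hc : ∀ x ∈ X, ⁅x, h⁆ ∈ L) {a : G} (ha : a ∈ closure X) :
    ⁅a, h⁆ ∈ L ∧ ∀ l ∈ L, a * l * a⁻¹ ∈ L ∧ a⁻¹ * l * a ∈ L := by
  induction ha using closure_induction with
  | mem x hx => exact ⟨hc x hx, hX x hx⟩
  | one => simp
  | mul x y _ _ hx hy =>
    refine ⟨?_, fun l hl => ⟨?_, ?_⟩⟩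
    · have : ⁅x * y, h⁆ = (x * ⁅y, h⁆ * x⁻¹) * ⁅x, h⁆ := by
        simp only [commutatorElement_def]; group
      rw [this]
      exact mul_mem (hx.2 _ hy.1).1 hx.1
    · have : x * y * l * (x * y)⁻¹ = x * (y * l * y⁻¹) * x⁻¹ := by group
      rw [this]; exact (hx.2 _ (hy.2 l hl).1).1
    · have : (x * y)⁻¹ * l * (x * y) = y⁻¹ * (x⁻¹ * l * x) * y := by group
      rw [this]; exact (hy.2 _ (hx.2 l hl).2).2
  | inv x _ hx =>
    refine ⟨?_, fun l hl => ⟨?_, ?_⟩⟩
    · have : ⁅x⁻¹, h⁆ = x⁻¹ * ⁅x, h⁆⁻¹ * x := by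
        simp only [commutatorElement_def]; group
      rw [this]
      exact (hx.2 _ (inv_mem hx.1)).2
    · simpa using (hx.2 l hl).2
    · simpa using (hx.2 l hl).1

/-- commutators of two closures -/
theorem comm_mem {X Y : Set G} {L : Subgroup G}
    (hX : ∀ x ∈ X, ∀ l ∈ L, x * l * x⁻¹ ∈ L ∧ x⁻¹ * l * x ∈ L)
    (hY : ∀ x ∈ Y, ∀ l ∈ L, x * l * x⁻¹ ∈ L ∧ x⁻¹ * l * x ∈ L)
    (hc : ∀ x ∈ X, ∀ y ∈ Y, ⁅x, y⁆ ∈ L) {a b : G} (ha : a ∈ closure X) (hb : b ∈ closure Y) :
    ⁅a, b⁆ ∈ L := by
  have h1 : ∀ y ∈ Y, ⁅y, a⁆ ∈ L := by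
    intro y hy
    have := (comm_mem_left hX (fun x hx => hc x hx y hy) ha).1
    rw [← commutatorElement_inv]
    exact inv_mem this
  have := (comm_mem_left hY h1 hb).1
  rw [← commutatorElement_inv]
  exact inv_mem this

theorem verb_node (s t : Tree) : verb G (.node s t) = ⁅verb G s, verb G t⁆ := by
  apply le_antisymm
  · unfold verb
    rw [closure_le]
    rintro x ⟨a, ha, b, hb, rfl⟩
    exact commutator_mem_commutator (subset_closure ha) (subset_closure hb)
  · rw [commutator_le]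
    intro a ha b hb
    have hn : (verb G (.node s t)).Normal := inferInstance
    refine comm_mem (X := vals G s) (Y := vals G t) ?_ ?_ ?_ ha hb
    · intro x _ l hl
      refine ⟨hn.conj_mem l hl x, ?_⟩
      simpa using hn.conj_mem l hl x⁻¹
    · intro x _ l hl
      refine ⟨hn.conj_mem l hl x, ?_⟩
      simpa using hn.conj_mem l hl x⁻¹
    · intro x hx y hy
      exact subset_closure ⟨x, hx, y, hy, rfl⟩

theorem verb_map (f : G →* H) (hf : Function.Surjective f) (t : Tree) :
    (verb G t).map f = verb H t := by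
  unfold verb
  rw [MonoidHom.map_closure]
  congr 1
  ext y
  constructor
  · rintro ⟨x, hx, rfl⟩; exact vals_map f t hx
  · intro hy
    obtain ⟨x, hx, rfl⟩ := vals_lift f hf t hy
    exact ⟨x, hx, rfl⟩

theorem verb_map_le (f : G →* H) (t : Tree) : (verb G t).map f ≤ verb H t := by
  unfold verb
  rw [MonoidHom.map_closure, closure_le]
  rintro _ ⟨x, hx, rfl⟩
  exact subset_closure (vals_map f t hx)

end basic

end Pool.Agent.Helper337.Focal
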