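import Mathlib

set_option autoImplicit false

namespace Pool.Agent.Helper337.Focal

section transfer

variable {M : Type*} [Group M] (P : Subgroup M) {Z : Type*} [CommGroup Z] (π : P →* Z)

theorem out_inv_mul_mem (x : M) : (QuotientGroup.mk x : M ⧸ P).out⁻¹ * x ∈ P := by
  rw [← QuotientGroup.leftRel_apply]
  exact Quotient.exact (QuotientGroup.out_eq' _)

/-- coordinate function -/
noncomputable def kap (x : M) : Z :=
  π ⟨(QuotientGroup.mk x : M ⧸ P).out⁻¹ * x, out_inv_mul_mem P x⟩

theorem kap_mul (x : M) (p : P) : kap P π (x * p) = kap P π x * π p := by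
  unfold kap
  rw [← map_mul]
  congr 1
  apply Subtype.ext
  have : (QuotientGroup.mk (x * (p : M)) : M ⧸ P) = QuotientGroup.mk x := by
    rw [QuotientGroup.eq]
    simp
  simp [this, mul_assoc]

/-- permutations compatible with the cosets of `P` and with `π` -/
def Good (f : Equiv.Perm M) : Prop :=
  ∀ x : M, ∀ p : P, ∃ p' : P, f (x * p) = f x * p' ∧ π p' = π p

theorem Good.mul {f g : Equiv.Perm M} (hf : Good P π f) (hg : Good P π g) : Good P π (f * g) := by
  intro x p
  obtain ⟨p', h1, h2⟩ := hg x p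
  obtain ⟨p'', h3, h4⟩ := hf (g x) p'
  exact ⟨p'', by simp [h1, h3], by rw [h4, h2]⟩

theorem ratio {f : Equiv.Perm M} (hf : Good P π f) {x y : M}
    (h : (QuotientGroup.mk x : M ⧸ P) = QuotientGroup.mk y) :
    kap P π (f x) * (kap P π x)⁻¹ = kap P π (f y) * (kap P π y)⁻¹ := by
  rw [QuotientGroup.eq] at h
  obtain ⟨p', h1, h2⟩ := hf x ⟨x⁻¹ * y, h⟩
  have hy : x * ((⟨x⁻¹ * y, h⟩ : P) : M) = y := by simp
  have e1 : kap P π y = kap P π x * π ⟨x⁻¹ * y, h⟩ := by
    rw [← kap_mul, hy]
  have e2 : kap P π (f y) = kap P π (f x) * π ⟨x⁻¹ * y, h⟩ := by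
    rw [← h2, ← kap_mul, ← h1, hy]
  rw [e1, e2]
  group

/-- the induced map on cosets -/
noncomputable def bar (f : Equiv.Perm M) (q : M ⧸ P) : M ⧸ P := QuotientGroup.mk (f q.out)

theorem bar_mk {f : Equiv.Perm M} (hf : Good P π f) (x : M) :
    bar P f (QuotientGroup.mk x) = QuotientGroup.mk (f x) := by
  unfold bar
  have h : (QuotientGroup.mk x : M ⧸ P).out⁻¹ * x ∈ P := out_inv_mul_mem P x
  obtain ⟨p', h1, -⟩ := hf (QuotientGroup.mk x : M ⧸ P).out ⟨_, h⟩
  rw [QuotientGroup.eq]
  have : f x = f (QuotientGroup.mk x : M ⧸ P).out * p' := by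
    rw [← h1]; simp
  rw [this]
  simp

variable [Fintype (M ⧸ P)]

theorem bar_bij {f : Equiv.Perm M} (hf : Good P π f) : Function.Bijective (bar P f) := by
  apply Function.Surjective.bijective_of_finite
  intro q
  refine ⟨QuotientGroup.mk (f.symm q.out), ?_⟩
  rw [bar_mk P π hf]
  simp

/-- the generalised transfer -/
noncomputable def RR (f : Equiv.Perm M) : Z :=
  ∏ q : M ⧸ P, kap P π (f q.out) * (kap P π q.out)⁻¹

theorem RR_mul {f g : Equiv.Perm M} (hf : Good P π f) (hg : Good P π g) :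
    RR P π (f * g) = RR P π f * RR P π g := by
  have h1 : RR P π f = ∏ q : M ⧸ P, kap P π (f (g q.out)) * (kap P π (g q.out))⁻¹ := by
    unfold RR
    rw [← (bar_bij P π hg).prod_comp]
    apply Finset.prod_congr rfl
    intro q _
    apply ratio P π hf
    rw [QuotientGroup.out_eq']
    rfl
  rw [h1]
  unfold RR
  rw [← Finset.prod_mul_distrib]
  apply Finset.prod_congr rfl
  intro q _
  rw [Equiv.Perm.mul_apply]
  group

theorem RR_one : RR P π 1 = 1 := by
  unfold RR
  simp

theorem good_left (m : M) : Good P π (Equiv.mulLeft m) :=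
  fun x p => ⟨p, by simp [mul_assoc], rfl⟩

theorem good_right (y : P) : Good P π (Equiv.mulRight (y : M)) :=
  fun x p => ⟨y⁻¹ * p * y, by simp [mul_assoc], by simp [mul_comm]⟩

theorem good_aut (σ : MulAut M) (h : ∀ p : P, ∃ p' : P, σ (p : M) = p' ∧ π p' = π p) :
    Good P π (MulEquiv.toEquiv σ) := by
  intro x p
  obtain ⟨p', h1, h2⟩ := h p
  exact ⟨p', by simp [h1], h2⟩

/-- the transfer homomorphism -/
noncomputable def phi : M →* Z where
  toFun m := RR P π (Equiv.mulLeft m)
  map_one' := by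
    have : (Equiv.mulLeft (1 : M) : Equiv.Perm M) = 1 := by ext; simp
    rw [this, RR_one]
  map_mul' a b := by
    rw [← RR_mul P π (good_left P π a) (good_left P π b)]
    congr 1
    ext x
    simp [mul_assoc]

theorem phi_aut (σ : MulAut M) (h : Good P π (MulEquiv.toEquiv σ)) (m : M) :
    phi P π (σ m) = phi P π m := by
  have e : (Equiv.mulLeft (σ m) : Equiv.Perm M) * (MulEquiv.toEquiv σ : Equiv.Perm M) =
      (MulEquiv.toEquiv σ : Equiv.Perm M) * Equiv.mulLeft m := by
    ext x
    simp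
  have e1 := RR_mul P π (good_left P π (σ m)) h
  have e2 := RR_mul P π h (good_left P π m)
  rw [e] at e1
  have : RR P π (Equiv.mulLeft (σ m)) * RR P π (MulEquiv.toEquiv σ) =
      RR P π (Equiv.mulLeft m) * RR P π (MulEquiv.toEquiv σ) := by
    rw [← e1, e2, mul_comm]
  exact mul_right_cancel this

theorem RR_right (y : P) : RR P π (Equiv.mulRight (y : M)) = π y ^ Fintype.card (M ⧸ P) := by
  unfold RR
  rw [← Finset.card_univ, ← Finset.prod_const]
  apply Finset.prod_congr rfl
  intro q _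
  rw [Equiv.coe_mulRight, kap_mul]
  rw [mul_comm (kap P π q.out), mul_assoc, mul_inv_cancel, mul_one]

theorem phi_coe (y : P) : phi P π (y : M) =
    RR P π (MulEquiv.toEquiv (MulAut.conj (y : M))) * π y ^ Fintype.card (M ⧸ P) := by
  have hg : Good P π (MulEquiv.toEquiv (MulAut.conj (y : M))) :=
    good_aut P π _ fun p => ⟨y * p * y⁻¹, by simp, by simp [mul_comm]⟩
  rw [← RR_right, ← RR_mul P π hg (good_right P π y)]
  change RR P π _ = _
  congr 1
  ext x
  simp [mul_assoc]

/-- the transfer on central elements -/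
theorem phi_central (y : P) (hy : ∀ x : M, (y : M) * x = x * y) :
    phi P π (y : M) = π y ^ Fintype.card (M ⧸ P) := by
  rw [phi_coe]
  have : (MulEquiv.toEquiv (MulAut.conj (y : M)) : Equiv.Perm M) = 1 := by
    ext x
    simp [hy x]
  rw [this, RR_one, one_mul]

/-- the transfer on commutators of automorphisms -/
theorem phi_comm (σ τ : MulAut M) (hσ : Good P π (MulEquiv.toEquiv σ))
    (hτ : Good P π (MulEquiv.toEquiv τ)) (y : P)
    (h : σ * τ = MulAut.conj (y : M) * (τ * σ)) :
    phi P π (y : M) = π y ^ Fintype.card (M ⧸ P) := by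
  rw [phi_coe]
  have hg : Good P π (MulEquiv.toEquiv (MulAut.conj (y : M))) :=
    good_aut P π _ fun p => ⟨y * p * y⁻¹, by simp, by simp [mul_comm]⟩
  have e1 := RR_mul P π hσ hτ
  have e2 := RR_mul P π hτ hσ
  have e3 := RR_mul P π hg (Good.mul P π hτ hσ)
  have e4 : (MulEquiv.toEquiv σ : Equiv.Perm M) * MulEquiv.toEquiv τ =
      (MulEquiv.toEquiv (MulAut.conj (y : M)) : Equiv.Perm M) *
        ((MulEquiv.toEquiv τ : Equiv.Perm M) * MulEquiv.toEquiv σ) := by
    ext x
    have := congrArg (fun f : MulAut M => f x) h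
    simpa using this
  rw [← e4, e1, e2] at e3
  have : RR P π (MulEquiv.toEquiv (MulAut.conj (y : M))) = 1 := by
    have h5 : (1 : Z) * (RR P π (MulEquiv.toEquiv τ) * RR P π (MulEquiv.toEquiv σ)) =
        RR P π (MulEquiv.toEquiv (MulAut.conj (y : M))) *
        (RR P π (MulEquiv.toEquiv τ) * RR P π (MulEquiv.toEquiv σ)) := by
      rw [← e3, one_mul, mul_comm]
    exact (mul_right_cancel h5).symm
  rw [this, one_mul]

end transfer

end Pool.Agent.Helper337.Focal
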