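import Mathlib
import Pool.Agent.Helper337.FocalA
import Pool.Agent.Helper337.FocalB

set_option autoImplicit false
set_option linter.unusedSectionVars false

namespace Pool.Agent.Helper337.Focal

open Subgroup
open scoped commutatorElement

section sylow

variable {G : Type*} [Group G] [Finite G] {p : ℕ} [Fact p.Prime]

theorem exists_sylow_subgroupOf (T : Sylow p G) (A : Subgroup G) [A.Normal] :
    ∃ S : Sylow p A, (S : Subgroup A) = (T : Subgroup G).subgroupOf A := by
  obtain ⟨S0⟩ : Nonempty (Sylow p A) := inferInstance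
  obtain ⟨Q, hQ⟩ := S0.exists_comap_subtype_eq
  obtain ⟨g, rfl⟩ := MulAction.exists_smul_eq G Q T
  refine ⟨(MulAut.conjNormal g : MulAut A) • S0, ?_⟩
  ext x
  rw [Sylow.pointwise_smul_def, Subgroup.mem_pointwise_smul_iff_inv_smul_mem,
    Subgroup.mem_subgroupOf, Sylow.coe_subgroup_smul,
    Subgroup.mem_pointwise_smul_iff_inv_smul_mem, ← hQ, Subgroup.mem_comap]
  simp [MulAut.smul_def, ← map_inv]

theorem frattini (T : Sylow p G) (A : Subgroup G) [A.Normal] (g : G) :
    ∃ h a, h * a = g ∧ a ∈ A ∧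
      ∀ x, x ∈ (T : Subgroup G) ⊓ A ↔ h * x * h⁻¹ ∈ (T : Subgroup G) ⊓ A := by
  obtain ⟨S, hS⟩ := exists_sylow_subgroupOf T A
  have h1 := S.normalizer_sup_eq_top
  have h2 : g ∈ normalizer (((S : Subgroup A).map A.subtype : Subgroup G) : Set G) ⊔ A := by
    have : normalizer (((S : Subgroup A).map A.subtype : Subgroup G) : Set G) ⊔ A = ⊤ := h1
    rw [this]; trivial
  rw [Subgroup.mem_sup_of_normal_right] at h2
  obtain ⟨h, hh, a, ha, e⟩ := h2
  refine ⟨h, a, e, ha, ?_⟩
  rw [hS, Subgroup.subgroupOf_map_subtype] at hh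
  exact Subgroup.mem_normalizer_iff.mp hh

/-- the subgroup generated by the values in a Sylow subgroup -/
def P0 (T : Sylow p G) (t : Tree) : Subgroup G := closure ((T : Set G) ∩ vals G t)

theorem P0_le (T : Sylow p G) (t : Tree) : P0 T t ≤ T := by
  unfold P0
  rw [closure_le]
  exact Set.inter_subset_left

theorem P0_le_verb (T : Sylow p G) (t : Tree) : P0 T t ≤ verb G t :=
  closure_mono Set.inter_subset_right

/-- conjugation of `P0` by elements normalising `T ⊓ verb` -/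
theorem P0_conj (T : Sylow p G) (t : Tree) {h : G}
    (hh : ∀ x ∈ (T : Subgroup G) ⊓ verb G t, h * x * h⁻¹ ∈ (T : Subgroup G) ⊓ verb G t) {y : G}
    (hy : y ∈ P0 T t) : h * y * h⁻¹ ∈ P0 T t := by
  refine closure_conj_mem ?_ hy
  rintro x ⟨hx1, hx2⟩
  exact ⟨(hh x ⟨hx1, subset_closure hx2⟩).1, vals_conj t hx2 h⟩

theorem P0_conj_T (T : Sylow p G) (t : Tree) {h : G} (hh : h ∈ T) {y : G}
    (hy : y ∈ P0 T t) : h * y * h⁻¹ ∈ P0 T t ∧ h⁻¹ * y * h ∈ P0 T t := by
  constructor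
  · refine closure_conj_mem ?_ hy
    rintro x ⟨hx1, hx2⟩
    exact ⟨mul_mem (mul_mem hh hx1) (inv_mem hh), vals_conj t hx2 h⟩
  · have : h⁻¹ * y * h = h⁻¹ * y * (h⁻¹)⁻¹ := by group
    rw [this]
    refine closure_conj_mem ?_ hy
    rintro x ⟨hx1, hx2⟩
    exact ⟨mul_mem (mul_mem (inv_mem hh) hx1) (inv_mem (inv_mem hh)), vals_conj t hx2 h⁻¹⟩

/-- `A` centralises `N` -/
def Cent (A N : Subgroup G) : Prop := ∀ a ∈ A, ∀ n ∈ N, a * n * a⁻¹ = n

theorem Cent.mono {A B N : Subgroup G} (h : Cent B N) (hAB : A ≤ B) : Cent A N :=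
  fun a ha n hn => h a (hAB ha) n hn

theorem exists_of_not_cent {X : Set G} {N : Subgroup G} [N.Normal] (h : ¬ Cent (closure X) N) :
    ∃ x ∈ X, ∃ n ∈ N, x * n * x⁻¹ ≠ n := by
  by_contra hcon
  push Not at hcon
  apply h
  intro a ha
  induction ha using closure_induction with
  | mem x hx => exact hcon x hx
  | one => intro n _; simp
  | mul x y _ _ hx hy =>
    intro n hn
    have : x * y * n * (x * y)⁻¹ = x * (y * n * y⁻¹) * x⁻¹ := by group
    rw [this, hy n hn, hx n hn]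
  | inv x _ hx =>
    intro n hn
    have h1 := hx n hn
    calc x⁻¹ * n * x⁻¹⁻¹ = x⁻¹ * (x * n * x⁻¹) * x := by rw [h1]; simp
      _ = n := by group

end sylow

end Pool.Agent.Helper337.Focal
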