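import Mathlib
import Pool.Agent.Helper337.FocalC

set_option autoImplicit false
set_option linter.unusedSectionVars false

namespace Pool.Agent.Helper337.Focal

open Subgroup
open scoped commutatorElement

section cases

variable {G : Type*} [Group G] [Finite G] {p : ℕ} [Fact p.Prime]

/-- minimality among normal subgroups -/
def MinNormal (N : Subgroup G) : Prop :=
  N ≠ ⊥ ∧ ∀ K : Subgroup G, K.Normal → K ≤ N → K = ⊥ ∨ K = N

theorem closure_eq_of_min {N : Subgroup G} (hN : MinNormal N) {X : Set G}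
    (hX : ∀ x ∈ X, ∀ g : G, g * x * g⁻¹ ∈ X) (hXN : X ⊆ N) {x : G} (hx : x ∈ X) (hx1 : x ≠ 1) :
    closure X = N := by
  rcases hN.2 (closure X) (closure_normal_of hX) ((closure_le N).mpr hXN) with h | h
  · exfalso
    apply hx1
    have : x ∈ closure X := subset_closure hx
    rw [h] at this
    exact Subgroup.mem_bot.mp this
  · exact h

theorem inter_conj {N : Subgroup G} [hn : N.Normal] (t : Tree) :
    ∀ x ∈ (N : Set G) ∩ vals G t, ∀ g : G, g * x * g⁻¹ ∈ (N : Set G) ∩ vals G t :=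
  fun x hx g => ⟨hn.conj_mem x hx.1 g, vals_conj t hx.2 g⟩

theorem node_step {N : Subgroup G} [hn : N.Normal] (hN : MinNormal N) (s t : Tree)
    (hs : closure ((N : Set G) ∩ vals G s) = N) (ht : ¬ Cent (verb G t) N) :
    closure ((N : Set G) ∩ vals G (.node s t)) = N := by
  obtain ⟨y, hy, n, hnN, hne⟩ := exists_of_not_cent (X := vals G t) ht
  have : ∃ x ∈ (N : Set G) ∩ vals G s, ⁅x, y⁆ ≠ 1 := by
    by_contra hcon
    push Not at hcon
    have hall : ∀ x ∈ closure ((N : Set G) ∩ vals G s), ⁅x, y⁆ ∈ (⊥ : Subgroup G) := by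
      intro x hx
      refine (comm_mem_left (L := ⊥) ?_ ?_ hx).1
      · intro z _ l hl
        rw [Subgroup.mem_bot] at hl
        subst hl
        simp
      · intro z hz
        rw [Subgroup.mem_bot]
        exact hcon z hz
    rw [hs] at hall
    have h1 := hall n hnN
    rw [Subgroup.mem_bot, commutatorElement_eq_one_iff_mul_comm] at h1
    apply hne
    rw [← h1]
    group
  obtain ⟨x, ⟨hxN, hxs⟩, hxy⟩ := this
  refine closure_eq_of_min hN (inter_conj _) Set.inter_subset_left (x := ⁅x, y⁆) ⟨?_, ?_⟩ hxy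
  · have : ⁅x, y⁆ = x * (y * x⁻¹ * y⁻¹) := by simp only [commutatorElement_def]; group
    rw [this]
    exact mul_mem hxN (hn.conj_mem _ (inv_mem hxN) y)
  · exact ⟨x, hxs, y, hy, rfl⟩

theorem J {N : Subgroup G} [hn : N.Normal] (hN : MinNormal N) (t : Tree)
    (ht : ¬ Cent (verb G t) N) : closure ((N : Set G) ∩ vals G t) = N := by
  induction t with
  | leaf =>
    have : (N : Set G) ∩ vals G Tree.leaf = N := by
      ext x; exact ⟨fun h => h.1, fun h => ⟨h, trivial⟩⟩
    rw [this, closure_eq]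
  | node s t ihs iht =>
    have h1 : verb G (.node s t) ≤ verb G s := by
      rw [verb_node]; exact Subgroup.commutator_le_left _ _
    have h2 : verb G (.node s t) ≤ verb G t := by
      rw [verb_node]; exact Subgroup.commutator_le_right _ _
    exact node_step hN s t (ihs fun h => ht (h.mono h1)) (fun h => ht (h.mono h2))

theorem P0_inf_normal (T : Sylow p G) (t : Tree) (N : Subgroup G) [hn : N.Normal]
    (hc : Cent (verb G t) N) : (P0 T t ⊓ N).Normal := by
  constructor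
  intro n hnn g
  obtain ⟨h, a, rfl, ha, hh⟩ := frattini T (verb G t) g
  have e : h * a * n * (h * a)⁻¹ = h * (a * n * a⁻¹) * h⁻¹ := by group
  rw [e, hc a ha n hnn.2]
  exact ⟨P0_conj T t (fun x hx => (hh x).mp hx) hnn.1, hn.conj_mem n hnn.2 h⟩

/-- the second factor acts nontrivially, the first one trivially -/
theorem case_right (T : Sylow p G) (s t : Tree) (N : Subgroup G) [hn : N.Normal]
    (hs : (T : Subgroup G) ⊓ verb G s ≤ P0 T s) (hNT : N ≤ T) (hNs : N ≤ verb G s)
    (h1 : Cent (verb G s) N) (h2 : ¬ Cent (verb G t) N) :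
    ∃ z ∈ P0 T (.node s t) ⊓ N, z ≠ 1 := by
  obtain ⟨y, hy, n, hnN, hne⟩ := exists_of_not_cent (X := vals G t) h2
  -- `y` modulo `verb s` is a value in the normaliser
  set A := verb G s with hA
  set H : Subgroup G := normalizer (((T : Subgroup G) ⊓ A : Subgroup G) : Set G) with hH
  have hsurj : Function.Surjective ((QuotientGroup.mk' A).comp H.subtype) := by
    intro q
    obtain ⟨g, rfl⟩ := QuotientGroup.mk'_surjective A q
    obtain ⟨h, a, rfl, ha, hh⟩ := frattini T A g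
    refine ⟨⟨h, Subgroup.mem_normalizer_iff.mpr hh⟩, ?_⟩
    simp only [MonoidHom.comp_apply, Subgroup.subtype_apply, QuotientGroup.mk'_apply]
    rw [QuotientGroup.eq]
    simpa using ha
  obtain ⟨h, hhv, hhe⟩ := vals_lift _ hsurj t (vals_map (QuotientGroup.mk' A) t hy)
  have hhH : ∀ x, x ∈ (T : Subgroup G) ⊓ A ↔ (h : G) * x * (h : G)⁻¹ ∈ (T : Subgroup G) ⊓ A :=
    Subgroup.mem_normalizer_iff.mp h.2
  have ha : (h : G)⁻¹ * y ∈ A := by
    simp only [MonoidHom.comp_apply, Subgroup.subtype_apply, QuotientGroup.mk'_apply] at hhe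
    exact QuotientGroup.eq.mp hhe
  have hconj : (h : G) * n * (h : G)⁻¹ = y * n * y⁻¹ := by
    have : y * n * y⁻¹ = (h : G) * (((h : G)⁻¹ * y) * n * ((h : G)⁻¹ * y)⁻¹) * (h : G)⁻¹ := by
      group
    rw [this, h1 _ ha n hnN]
  have hX : ∀ x ∈ (T : Set G) ∩ vals G s, ⁅x, (h : G)⁆ ∈ P0 T (.node s t) := by
    rintro x ⟨hxT, hxs⟩
    apply Subgroup.subset_closure
    refine ⟨?_, ⟨x, hxs, h, vals_map H.subtype t hhv, rfl⟩⟩
    have : ⁅x, (h : G)⁆ = x * ((h : G) * x⁻¹ * (h : G)⁻¹) := by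
      simp only [commutatorElement_def]; group
    rw [this]
    exact (T : Subgroup G).mul_mem hxT
      ((hhH x⁻¹).mp ⟨(T : Subgroup G).inv_mem hxT, A.inv_mem (Subgroup.subset_closure hxs)⟩).1
  have hmem : ⁅n, (h : G)⁆ ∈ P0 T (.node s t) := by
    refine (comm_mem_left (X := (T : Set G) ∩ vals G s) ?_ hX (hs ⟨hNT hnN, hNs hnN⟩)).1
    rintro x ⟨hxT, -⟩ l hl
    exact P0_conj_T T _ hxT hl
  refine ⟨⁅n, (h : G)⁆, ⟨hmem, ?_⟩, ?_⟩
  · have : ⁅n, (h : G)⁆ = n * ((h : G) * n⁻¹ * (h : G)⁻¹) := by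
      simp only [commutatorElement_def]; group
    rw [this]
    exact mul_mem hnN (hn.conj_mem _ (inv_mem hnN) _)
  · intro he
    rw [commutatorElement_eq_one_iff_mul_comm] at he
    apply hne
    rw [← hconj, ← he]
    group

/-- the first factor acts nontrivially, the second one trivially -/
theorem case_left (T : Sylow p G) (s t : Tree) (N : Subgroup G) [hn : N.Normal]
    (ht : (T : Subgroup G) ⊓ verb G t ≤ P0 T t) (hNT : N ≤ T) (hNt : N ≤ verb G t)
    (h1 : Cent (verb G t) N) (h2 : ¬ Cent (verb G s) N) :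
    ∃ z ∈ P0 T (.node s t) ⊓ N, z ≠ 1 := by
  obtain ⟨y, hy, n, hnN, hne⟩ := exists_of_not_cent (X := vals G s) h2
  set A := verb G t with hA
  set H : Subgroup G := normalizer (((T : Subgroup G) ⊓ A : Subgroup G) : Set G) with hH
  have hsurj : Function.Surjective ((QuotientGroup.mk' A).comp H.subtype) := by
    intro q
    obtain ⟨g, rfl⟩ := QuotientGroup.mk'_surjective A q
    obtain ⟨h, a, rfl, ha, hh⟩ := frattini T A g
    refine ⟨⟨h, Subgroup.mem_normalizer_iff.mpr hh⟩, ?_⟩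
    simp only [MonoidHom.comp_apply, Subgroup.subtype_apply, QuotientGroup.mk'_apply]
    rw [QuotientGroup.eq]
    simpa using ha
  obtain ⟨h, hhv, hhe⟩ := vals_lift _ hsurj s (vals_map (QuotientGroup.mk' A) s hy)
  have hhH : ∀ x, x ∈ (T : Subgroup G) ⊓ A ↔ (h : G) * x * (h : G)⁻¹ ∈ (T : Subgroup G) ⊓ A :=
    Subgroup.mem_normalizer_iff.mp h.2
  have ha : (h : G)⁻¹ * y ∈ A := by
    simp only [MonoidHom.comp_apply, Subgroup.subtype_apply, QuotientGroup.mk'_apply] at hhe
    exact QuotientGroup.eq.mp hhe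
  have hconj : (h : G) * n * (h : G)⁻¹ = y * n * y⁻¹ := by
    have : y * n * y⁻¹ = (h : G) * (((h : G)⁻¹ * y) * n * ((h : G)⁻¹ * y)⁻¹) * (h : G)⁻¹ := by
      group
    rw [this, h1 _ ha n hnN]
  have hX : ∀ x ∈ (T : Set G) ∩ vals G t, ⁅x, (h : G)⁆ ∈ P0 T (.node s t) := by
    rintro x ⟨hxT, hxs⟩
    rw [← commutatorElement_inv]
    apply inv_mem
    apply Subgroup.subset_closure
    refine ⟨?_, ⟨h, vals_map H.subtype s hhv, x, hxs, rfl⟩⟩
    have : ⁅(h : G), x⁆ = ((h : G) * x * (h : G)⁻¹) * x⁻¹ := by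
      simp only [commutatorElement_def]
    rw [this]
    exact (T : Subgroup G).mul_mem ((hhH x).mp ⟨hxT, Subgroup.subset_closure hxs⟩).1
      ((T : Subgroup G).inv_mem hxT)
  have hmem : ⁅n, (h : G)⁆ ∈ P0 T (.node s t) := by
    refine (comm_mem_left (X := (T : Set G) ∩ vals G t) ?_ hX (ht ⟨hNT hnN, hNt hnN⟩)).1
    rintro x ⟨hxT, -⟩ l hl
    exact P0_conj_T T _ hxT hl
  refine ⟨⁅n, (h : G)⁆, ⟨hmem, ?_⟩, ?_⟩
  · have : ⁅n, (h : G)⁆ = n * ((h : G) * n⁻¹ * (h : G)⁻¹) := by
      simp only [commutatorElement_def]; group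
    rw [this]
    exact mul_mem hnN (hn.conj_mem _ (inv_mem hnN) _)
  · intro he
    rw [commutatorElement_eq_one_iff_mul_comm] at he
    apply hne
    rw [← hconj, ← he]
    group

end cases

end Pool.Agent.Helper337.Focal
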