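import Mathlib

/-!
# Multilinear commutator words and Sylow subgroups of verbal subgroups (MP_8aaf67_al): definitions
-/

set_option autoImplicit false

namespace Pool.Agent.Helper337.MultilinearWords

/-- Multilinear commutator words in the letters `x_0, x_1, …`, together with the set of their
variables. The commutator is `[u, v] = u⁻¹ v⁻¹ u v`. -/
inductive IsMultilinear : FreeGroup ℕ → Finset ℕ → Prop
  | var (i : ℕ) : IsMultilinear (FreeGroup.of i) {i}
  | comm {u v : FreeGroup ℕ} {A B : Finset ℕ} : IsMultilinear u A → IsMultilinear v B →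
      Disjoint A B → IsMultilinear (u⁻¹ * v⁻¹ * u * v) (A ∪ B)

/-- The `w`-values in `G`. -/
def values (w : FreeGroup ℕ) (G : Type) [Group G] : Set G :=
  {x | ∃ g : ℕ → G, FreeGroup.lift g w = x}

/-- The verbal subgroup `w(G)`. -/
def verbal (w : FreeGroup ℕ) (G : Type) [Group G] : Subgroup G := Subgroup.closure (values w G)

/-- Every Sylow `p`-subgroup of `w(G)` is generated by the `w`-values which it contains. -/
def SylowGenerated (w : FreeGroup ℕ) (p : ℕ) (G : Type) [Group G] : Prop :=
  ∀ P : Sylow p (verbal w G),
    Subgroup.closure {x : G | x ∈ values w G ∧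
      x ∈ (P : Subgroup (verbal w G)).map (verbal w G).subtype} =
      (P : Subgroup (verbal w G)).map (verbal w G).subtype

/-- `H` is a section of `G`, i.e. a quotient of a subgroup. -/
def IsSectionOf (H G : Type) [Group H] [Group G] : Prop :=
  ∃ (S : Subgroup G) (f : S →* H), Function.Surjective f

/-- `p`-soluble groups: every simple section of order divisible by `p` is commutative. -/
def PSoluble (p : ℕ) (G : Type) [Group G] : Prop :=
  ∀ (H : Type) [Group H], IsSectionOf H G → IsSimpleGroup H → p ∣ Nat.card H →
    ∀ a b : H, a * b = b * a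

/-- The critical groups: perfect groups `H` with a normal subgroup `K` of order prime to `p`,
contained in the Frattini subgroup, such that `H / K` is simple of order divisible by `p`. -/
def Critical (p : ℕ) (H : Type) [Group H] : Prop :=
  commutator H = ⊤ ∧ ∃ (K : Subgroup H) (_ : K.Normal), ¬ p ∣ Nat.card K ∧ K ≤ frattini H ∧
    IsSimpleGroup (H ⧸ K) ∧ p ∣ Nat.card (H ⧸ K)

end Pool.Agent.Helper337.MultilinearWords
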