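import Mathlib
import Pool.Agent.Helper337.FocalD

set_option autoImplicit false
set_option linter.unusedSectionVars false

namespace Pool.Agent.Helper337.Focal

open Subgroup
open scoped commutatorElement

theorem hom_trivial {p : ℕ} [Fact p.Prime] {A : Type*} [Group A] [Finite A] {Z : Type*}
    [CommGroup Z] (hZ : IsPGroup p Z) (f : A →* Z) (S : Sylow p A) (h : ∀ x ∈ S, f x = 1) :
    ∀ x, f x = 1 := by
  have h1 : (S : Subgroup A) ≤ f.ker := fun x hx => h x hx
  have h2 : ¬ p ∣ f.ker.index := fun hd => S.not_dvd_index (hd.trans (Subgroup.index_dvd_of_le h1))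
  rw [Subgroup.index_ker] at h2
  have hR : IsPGroup p f.range := hZ.to_subgroup _
  have : Finite f.range := Finite.of_surjective _ f.rangeRestrict_surjective
  obtain ⟨n, hn⟩ := IsPGroup.iff_card.mp hR
  have hn0 : n = 0 := by
    by_contra hne
    apply h2
    rw [hn]
    exact dvd_pow_self p hne
  rw [hn0, pow_zero] at hn
  intro x
  have : f.range = ⊥ := Subgroup.card_eq_one.mp hn
  have hx : f x ∈ f.range := ⟨x, rfl⟩
  rw [this] at hx
  exact Subgroup.mem_bot.mp hx

section both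

variable {G : Type*} [Group G] [Finite G] {p : ℕ} [Fact p.Prime]

open scoped IsMulCommutative

theorem case_both (T : Sylow p G) (s t : Tree) (N : Subgroup G) [hn : N.Normal]
    (hs : (T : Subgroup G) ⊓ verb G s ≤ P0 T s) (ht : (T : Subgroup G) ⊓ verb G t ≤ P0 T t)
    (hNT : N ≤ T) (hNM : N ≤ verb G (.node s t)) (hNbot : N ≠ ⊥)
    (h1 : Cent (verb G s) N) (h2 : Cent (verb G t) N)
    (hq : (T : Subgroup G) ⊓ verb G (.node s t) ≤ P0 T (.node s t) ⊔ N) :
    P0 T (.node s t) ⊓ N ≠ ⊥ := by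
  intro hbot
  have hMA : verb G (.node s t) ≤ verb G s := by
    rw [verb_node]; exact Subgroup.commutator_le_left _ _
  have hMB : verb G (.node s t) ≤ verb G t := by
    rw [verb_node]; exact Subgroup.commutator_le_right _ _
  have hcM : Cent (verb G (.node s t)) N := h1.mono hMA
  have hMeq : verb G (.node s t) = ⁅verb G s, verb G t⁆ := verb_node s t
  set M := verb G (.node s t) with hM
  set A := verb G s with hA
  set B := verb G t with hB
  set P := P0 T (.node s t) with hP
  have hMn : M.Normal := verb_normal _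
  obtain ⟨PM, hPM⟩ := exists_sylow_subgroupOf T M
  have memPM : ∀ x : M, x ∈ PM ↔ (x : G) ∈ T := by
    intro x
    have : x ∈ (PM : Subgroup M) ↔ x ∈ (T : Subgroup G).subgroupOf M := by rw [hPM]
    exact this
  -- the quotient
  let Q0 : Subgroup ↥(PM : Subgroup M) := P.comap (M.subtype.comp (PM : Subgroup M).subtype)
  have memQ0 : ∀ y : ↥(PM : Subgroup M), y ∈ Q0 ↔ ((y : M) : G) ∈ P := fun y => Iff.rfl
  have dec : ∀ y : ↥(PM : Subgroup M), ∃ u ∈ P, ∃ n ∈ N, u * n = ((y : M) : G) := by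
    intro y
    have : ((y : M) : G) ∈ P ⊔ N := hq ⟨(memPM _).mp y.2, (y : M).2⟩
    rw [Subgroup.mem_sup_of_normal_right] at this
    exact this
  have hPT : P ≤ T := P0_le T _
  have hPc : ∀ g ∈ T, ∀ y ∈ P, g * y * g⁻¹ ∈ P ∧ g⁻¹ * y * g ∈ P :=
    fun g hg y hy => P0_conj_T T _ hg hy
  have hQn : Q0.Normal := by
    constructor
    intro y hy g
    rw [memQ0] at hy ⊢
    exact (hPc _ ((memPM _).mp g.2) _ hy).1
  have hcomm : IsMulCommutative (↥(PM : Subgroup M) ⧸ Q0) := by
    refine ⟨⟨?_⟩⟩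
    intro a b
    obtain ⟨x, rfl⟩ := QuotientGroup.mk'_surjective Q0 a
    obtain ⟨y, rfl⟩ := QuotientGroup.mk'_surjective Q0 b
    rw [← map_mul, ← map_mul, QuotientGroup.mk'_eq_mk']
    refine ⟨(x * y)⁻¹ * (y * x), ?_, by group⟩
    rw [memQ0]
    obtain ⟨u, hu, n, hnN, e1⟩ := dec x
    obtain ⟨v, hv, m, hmN, e2⟩ := dec y
    have hMx : ∀ g ∈ M, ∀ k ∈ N, g * k = k * g := by
      intro g hg k hk
      have := hcM g hg k hk
      rw [mul_inv_eq_iff_eq_mul] at this
      exact this
    have hvM : v ∈ M := P0_le_verb T _ hv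
    have huM : u ∈ M := P0_le_verb T _ hu
    have hnM : n ∈ M := hNM hnN
    have c1 := hMx v hvM n hnN
    have c2 := hMx u huM m hmN
    have c3 := hMx n hnM m hmN
    have : (((x * y)⁻¹ * (y * x) : ↥(PM : Subgroup M)) : G) = v⁻¹ * u⁻¹ * v * u := by
      push_cast
      rw [← e1, ← e2]
      have : v * m * (u * n) = u * n * (v * m) * ((v⁻¹ * u⁻¹ * v * u)) := by
        have s1 : v * m * (u * n) = v * u * (n * m) := by
          calc v * m * (u * n) = v * (m * u) * n := by group
            _ = v * (u * m) * n := by rw [c2]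
            _ = v * u * (m * n) := by group
            _ = v * u * (n * m) := by rw [c3]
        have s2 : u * n * (v * m) = u * v * (n * m) := by
          calc u * n * (v * m) = u * (n * v) * m := by group
            _ = u * (v * n) * m := by rw [c1]
            _ = u * v * (n * m) := by group
        have c4 := hMx (v⁻¹ * u⁻¹ * v * u) (mul_mem (mul_mem (mul_mem (inv_mem hvM) (inv_mem huM)) hvM) huM)
          (n * m) (mul_mem hnN hmN)
        rw [s1, s2, mul_assoc (u * v), ← c4]
        group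
      rw [this]
      group
    rw [this]
    exact mul_mem (mul_mem (mul_mem (inv_mem hv) (inv_mem hu)) hv) hu
  let π : ↥(PM : Subgroup M) →* (↥(PM : Subgroup M) ⧸ Q0) := QuotientGroup.mk' Q0
  let _ : Fintype (M ⧸ (PM : Subgroup M)) := Fintype.ofFinite _
  let φ : M →* (↥(PM : Subgroup M) ⧸ Q0) := phi (PM : Subgroup M) π
  have hZp : IsPGroup p (↥(PM : Subgroup M) ⧸ Q0) := PM.2.to_quotient Q0
  have hNM' : ∀ n ∈ N, n ∈ M := fun n h => hNM h
  -- automorphisms compatible with `π`
  have good : ∀ h : G, (∀ x ∈ (T : Subgroup G) ⊓ M, h * x * h⁻¹ ∈ (T : Subgroup G) ⊓ M) →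
      (∀ n ∈ N, h * n * h⁻¹ = n) →
      Good (PM : Subgroup M) π (MulEquiv.toEquiv (MulAut.conjNormal h : MulAut M)) := by
    intro h hh hcN
    apply good_aut
    intro y
    have hy : ((y : M) : G) ∈ (T : Subgroup G) ⊓ M := ⟨(memPM _).mp y.2, (y : M).2⟩
    have hy' := hh _ hy
    refine ⟨⟨⟨h * ((y : M) : G) * h⁻¹, hy'.2⟩, (memPM _).mpr hy'.1⟩, ?_, ?_⟩
    · apply Subtype.ext
      simp
    · change QuotientGroup.mk' Q0 _ = QuotientGroup.mk' Q0 _
      rw [QuotientGroup.mk'_apply, QuotientGroup.mk'_apply, QuotientGroup.eq, memQ0]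
      obtain ⟨u, hu, n, hnN, e1⟩ := dec y
      push_cast
      rw [← e1]
      have e2 : (h * (u * n) * h⁻¹)⁻¹ * (u * n) =
          n⁻¹ * ((h * u * h⁻¹)⁻¹ * u) * n := by
        have : h * (u * n) * h⁻¹ = (h * u * h⁻¹) * (h * n * h⁻¹) := by group
        rw [this, hcN n hnN]
        group
      rw [e2]
      have h3 : (h * u * h⁻¹)⁻¹ * u ∈ P :=
        mul_mem (inv_mem (P0_conj T _ hh hu)) hu
      exact (hPc n (hNT hnN) _ h3).2
  -- invariance
  have inv : ∀ g : G, (g ∈ A ∨ g ∈ B) → ∀ x : M, φ (MulAut.conjNormal g x) = φ x := by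
    intro g hg x
    obtain ⟨h, m, e, hm, hh⟩ := frattini T M g
    have hhN : ∀ n ∈ N, h * n * h⁻¹ = n := by
      have he : h = g * m⁻¹ := by rw [← e]; group
      intro n hnN
      rcases hg with hg | hg
      · exact h1 h (by rw [he]; exact mul_mem hg (inv_mem (hMA hm))) n hnN
      · exact h2 h (by rw [he]; exact mul_mem hg (inv_mem (hMB hm))) n hnN
    have hgood := good h (fun x hx => (hh x).mp hx) hhN
    have e3 : MulAut.conjNormal g x =
        MulAut.conjNormal h ((⟨m, hm⟩ : M) * x * (⟨m, hm⟩ : M)⁻¹) := by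
      apply Subtype.ext
      rw [MulAut.conjNormal_apply, MulAut.conjNormal_apply, ← e]
      push_cast
      group
    rw [e3]
    have e4 := phi_aut (PM : Subgroup M) π _ hgood ((⟨m, hm⟩ : M) * x * (⟨m, hm⟩ : M)⁻¹)
    have e5 : φ ((⟨m, hm⟩ : M) * x * (⟨m, hm⟩ : M)⁻¹) = φ x := by
      rw [map_mul, map_mul, map_inv, mul_comm (φ ⟨m, hm⟩), mul_assoc, mul_inv_cancel, mul_one]
    exact e4.trans e5
  have hcm : ∀ a ∈ A, ∀ b ∈ B, ⁅a, b⁆ ∈ M := by
    intro a ha b hb
    rw [hMeq]
    exact Subgroup.commutator_mem_commutator ha hb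
  -- the transfer kills commutators of Sylow elements
  have hsyl : ∀ a (ha : a ∈ A) (haT : a ∈ T) b (hb : b ∈ B) (hbT : b ∈ T),
      φ ⟨⁅a, b⁆, hcm a ha b hb⟩ = 1 := by
    intro a ha haT b hb hbT
    have hP' : ⁅a, b⁆ ∈ P := by
      refine comm_mem (X := (T : Set G) ∩ vals G s) (Y := (T : Set G) ∩ vals G t) ?_ ?_ ?_
        (hs ⟨haT, ha⟩) (ht ⟨hbT, hb⟩)
      · rintro x ⟨hxT, -⟩ l hl
        exact hPc x hxT l hl
      · rintro x ⟨hxT, -⟩ l hl
        exact hPc x hxT l hl
      · rintro x ⟨hxT, hx⟩ y ⟨hyT, hy⟩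
        apply Subgroup.subset_closure
        refine ⟨?_, ⟨x, hx, y, hy, rfl⟩⟩
        exact (T : Subgroup G).mul_mem ((T : Subgroup G).mul_mem ((T : Subgroup G).mul_mem hxT hyT)
          ((T : Subgroup G).inv_mem hxT)) ((T : Subgroup G).inv_mem hyT)
    have hT' : ⁅a, b⁆ ∈ T := hPT hP'
    let y : ↥(PM : Subgroup M) := ⟨⟨⁅a, b⁆, hcm a ha b hb⟩, (memPM _).mpr hT'⟩
    have norm : ∀ c ∈ T, ∀ x ∈ (T : Subgroup G) ⊓ M, c * x * c⁻¹ ∈ (T : Subgroup G) ⊓ M := by
      intro c hc x hx
      exact ⟨(T : Subgroup G).mul_mem ((T : Subgroup G).mul_mem hc hx.1)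
        ((T : Subgroup G).inv_mem hc), hMn.conj_mem x hx.2 c⟩
    have ga := good a (norm a haT) (fun n hnN => h1 a ha n hnN)
    have gb := good b (norm b hbT) (fun n hnN => h2 b hb n hnN)
    have hrel : (MulAut.conjNormal a : MulAut M) * MulAut.conjNormal b =
        MulAut.conj (y : M) * (MulAut.conjNormal b * MulAut.conjNormal a) := by
      rw [← map_mul, ← map_mul, ← MulAut.conjNormal_val, ← map_mul]
      congr 1
      change a * b = ⁅a, b⁆ * (b * a)
      simp only [commutatorElement_def]; group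
    have h3 := phi_comm (PM : Subgroup M) π _ _ ga gb y hrel
    have h4 : π y = 1 := by
      change QuotientGroup.mk' Q0 y = 1
      rw [QuotientGroup.mk'_apply, QuotientGroup.eq_one_iff, memQ0]
      exact hP'
    rw [h4, one_pow] at h3
    exact h3
  -- bilinearity
  have step1 : ∀ a (ha : a ∈ A) b (hb : b ∈ B) (hbT : b ∈ T),
      φ ⟨⁅a, b⁆, hcm a ha b hb⟩ = 1 := by
    intro a ha b hb hbT
    let f : A →* (↥(PM : Subgroup M) ⧸ Q0) :=
      { toFun := fun x => φ ⟨⁅(x : G), b⁆, hcm x x.2 b hb⟩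
        map_one' := by
          have : (⟨⁅((1 : A) : G), b⁆, hcm _ (1 : A).2 b hb⟩ : M) = 1 := by
            apply Subtype.ext
            simp
          rw [this, map_one]
        map_mul' := by
          intro x y
          have : (⟨⁅((x * y : A) : G), b⁆, hcm _ (x * y).2 b hb⟩ : M) =
              MulAut.conjNormal (x : G) ⟨⁅(y : G), b⁆, hcm y y.2 b hb⟩ *
                ⟨⁅(x : G), b⁆, hcm x x.2 b hb⟩ := by
            apply Subtype.ext
            simp only [Subgroup.coe_mul, MulAut.conjNormal_apply, commutatorElement_def]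
            group
          rw [this, map_mul, inv _ (Or.inl x.2), mul_comm] }
    obtain ⟨SA, hSA⟩ := exists_sylow_subgroupOf T A
    refine hom_trivial hZp f SA ?_ ⟨a, ha⟩
    intro x hx
    have hxT : (x : G) ∈ T := by
      have : x ∈ (T : Subgroup G).subgroupOf A := by rw [← hSA]; exact hx
      exact this
    exact hsyl x x.2 hxT b hb hbT
  have step2 : ∀ a (ha : a ∈ A) b (hb : b ∈ B), φ ⟨⁅a, b⁆, hcm a ha b hb⟩ = 1 := by
    intro a ha b hb
    let f : B →* (↥(PM : Subgroup M) ⧸ Q0) :=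
      { toFun := fun x => φ ⟨⁅a, (x : G)⁆, hcm a ha x x.2⟩
        map_one' := by
          have : (⟨⁅a, ((1 : B) : G)⁆, hcm a ha _ (1 : B).2⟩ : M) = 1 := by
            apply Subtype.ext
            simp
          rw [this, map_one]
        map_mul' := by
          intro x y
          have : (⟨⁅a, ((x * y : B) : G)⁆, hcm a ha _ (x * y).2⟩ : M) =
              ⟨⁅a, (x : G)⁆, hcm a ha x x.2⟩ *
                MulAut.conjNormal (x : G) ⟨⁅a, (y : G)⁆, hcm a ha y y.2⟩ := by
            apply Subtype.ext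
            simp only [Subgroup.coe_mul, MulAut.conjNormal_apply, commutatorElement_def]
            group
          rw [this, map_mul, inv _ (Or.inr x.2)] }
    obtain ⟨SB, hSB⟩ := exists_sylow_subgroupOf T B
    refine hom_trivial hZp f SB ?_ ⟨b, hb⟩
    intro x hx
    have hxT : (x : G) ∈ T := by
      have : x ∈ (T : Subgroup G).subgroupOf B := by rw [← hSB]; exact hx
      exact this
    exact step1 a ha x x.2 hxT
  -- so the transfer is trivial
  have hker : M ≤ φ.ker.map M.subtype := by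
    conv_lhs => rw [hMeq]
    rw [Subgroup.commutator_le]
    intro a ha b hb
    exact ⟨⟨⁅a, b⁆, hcm a ha b hb⟩, step2 a ha b hb, rfl⟩
  have htriv : ∀ x : M, φ x = 1 := by
    intro x
    obtain ⟨y, hy, e⟩ := hker x.2
    have : y = x := Subtype.ext e
    rw [← this]
    exact hy
  obtain ⟨⟨n, hnN⟩, hn1⟩ := (Subgroup.ne_bot_iff_exists_ne_one).mp hNbot
  let y : ↥(PM : Subgroup M) := ⟨⟨n, hNM hnN⟩, (memPM _).mpr (hNT hnN)⟩
  have h3 := phi_central (PM : Subgroup M) π y (by
    intro x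
    apply Subtype.ext
    have h4 := hcM x x.2 n hnN
    rw [mul_inv_eq_iff_eq_mul] at h4
    exact h4.symm)
  have h5 : π y ^ Fintype.card (M ⧸ (PM : Subgroup M)) = 1 := by
    rw [← h3]; exact htriv _
  have h6 : π y ^ (PM : Subgroup M).index = 1 := by
    rw [Subgroup.index, Nat.card_eq_fintype_card]; exact h5
  have h7 : π y = 1 := by
    apply (hZp.powEquiv' PM.not_dvd_index).injective
    simpa using h6
  have h8 : n ∈ P := by
    have : y ∈ Q0 := by
      rw [← QuotientGroup.eq_one_iff]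
      exact h7
    exact this
  have h9 : n ∈ P ⊓ N := ⟨h8, hnN⟩
  rw [hbot] at h9
  exact hn1 (Subtype.ext (Subgroup.mem_bot.mp h9))

end both

end Pool.Agent.Helper337.Focal
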