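import Mathlib
import Pool.Agent.Helper337.FocalE

set_option autoImplicit false
set_option linter.unusedSectionVars false

namespace Pool.Agent.Helper337.Focal

open Subgroup
open scoped commutatorElement

section induct

variable {G : Type*} [Group G] [Finite G] {p : ℕ} [Fact p.Prime]

/-- the statement for one Sylow subgroup -/
def Cl (T : Sylow p G) (t : Tree) : Prop := (T : Subgroup G) ⊓ verb G t ≤ P0 T t

theorem key (T : Sylow p G) (s t : Tree) (N : Subgroup G) [hn : N.Normal] (hN : MinNormal N)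
    (hs : Cl T s) (ht : Cl T t) (hNp : IsPGroup p N) (hNM : N ≤ verb G (.node s t))
    (hq : (T : Subgroup G) ⊓ verb G (.node s t) ≤ P0 T (.node s t) ⊔ N) :
    Cl T (.node s t) := by
  have hNT : N ≤ T := hNp.le_sylow_of_normal T
  have hMA : verb G (.node s t) ≤ verb G s := by
    rw [verb_node]; exact Subgroup.commutator_le_left _ _
  have hMB : verb G (.node s t) ≤ verb G t := by
    rw [verb_node]; exact Subgroup.commutator_le_right _ _
  have main : N ≤ P0 T (.node s t) := by
    have aux : Cent (verb G (.node s t)) N → P0 T (.node s t) ⊓ N ≠ ⊥ →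
        N ≤ P0 T (.node s t) := by
      intro hc hb
      rcases hN.2 _ (P0_inf_normal T (.node s t) N hc) inf_le_right with h | h
      · exact absurd h hb
      · rw [← h]; exact inf_le_left
    by_cases h1 : Cent (verb G s) N
    · apply aux (h1.mono hMA)
      by_cases h2 : Cent (verb G t) N
      · exact case_both T s t N hs ht hNT hNM hN.1 h1 h2 hq
      · obtain ⟨z, hz, hz1⟩ := case_right T s t N hs hNT (hNM.trans hMA) h1 h2
        intro hb
        rw [hb] at hz
        exact hz1 (Subgroup.mem_bot.mp hz)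
    · by_cases h2 : Cent (verb G t) N
      · apply aux (h2.mono hMB)
        obtain ⟨z, hz, hz1⟩ := case_left T s t N ht hNT (hNM.trans hMB) h2 h1
        intro hb
        rw [hb] at hz
        exact hz1 (Subgroup.mem_bot.mp hz)
      · have h3 := node_step hN s t (J hN s h1) h2
        rw [← h3]
        apply Subgroup.closure_mono
        rintro x ⟨hx1, hx2⟩
        exact ⟨hNT hx1, hx2⟩
  unfold Cl
  refine hq.trans (sup_le le_rfl main)

theorem quot_step (T : Sylow p G) (t : Tree) {Q : Type*} [Group Q] (f : G →* Q)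
    (hf : Function.Surjective f) (hker : f.ker ≤ T) (h : Cl (T.mapSurjective hf) t) :
    (T : Subgroup G) ⊓ verb G t ≤ P0 T t ⊔ f.ker := by
  rintro x ⟨hxT, hxv⟩
  have h1 : f x ∈ P0 (T.mapSurjective hf) t := by
    refine h ⟨⟨x, hxT, rfl⟩, ?_⟩
    rw [← verb_map f hf t]
    exact ⟨x, hxv, rfl⟩
  have h2 : P0 (T.mapSurjective hf) t ≤ (P0 T t).map f := by
    unfold P0
    rw [closure_le]
    rintro y ⟨hyT, hyv⟩
    obtain ⟨z, hz, rfl⟩ := vals_lift f hf t hyv
    obtain ⟨w, hw, e⟩ := hyT
    refine ⟨z, Subgroup.subset_closure ⟨?_, hz⟩, rfl⟩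
    have hk : w⁻¹ * z ∈ f.ker := by
      rw [MonoidHom.mem_ker, map_mul, map_inv, e]; simp
    have : z = w * (w⁻¹ * z) := by group
    rw [this]
    exact (T : Subgroup G).mul_mem hw (hker hk)
  obtain ⟨u, hu, e⟩ := h2 h1
  rw [Subgroup.mem_sup_of_normal_right]
  refine ⟨u, hu, u⁻¹ * x, ?_, by group⟩
  rw [MonoidHom.mem_ker, map_mul, map_inv, e]
  simp

theorem sub_step (T : Sylow p G) (t : Tree) (H : Subgroup G) (hT : (T : Subgroup G) ≤ H)
    (h : Cl (T.subtype hT) t) {y : H} (hy : y ∈ verb H t) (hyT : (y : G) ∈ T) :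
    (y : G) ∈ P0 T t := by
  have h1 : y ∈ P0 (T.subtype hT) t := h ⟨hyT, hy⟩
  have h2 : P0 (T.subtype hT) t ≤ (P0 T t).comap H.subtype := by
    unfold P0
    rw [closure_le]
    rintro z ⟨hzT, hzv⟩
    exact Subgroup.subset_closure ⟨hzT, vals_map H.subtype t hzv⟩
  exact h2 h1

/-- the same for a normal subgroup -/
theorem sub_step' (T : Sylow p G) (t : Tree) (H : Subgroup G) (S : Sylow p H)
    (hS : (S : Subgroup H) = (T : Subgroup G).subgroupOf H)
    (h : Cl S t) {y : H} (hy : y ∈ verb H t) (hyT : (y : G) ∈ T) :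
    (y : G) ∈ P0 T t := by
  have mem : ∀ z : H, z ∈ S ↔ (z : G) ∈ T := by
    intro z
    have : z ∈ (S : Subgroup H) ↔ z ∈ (T : Subgroup G).subgroupOf H := by rw [hS]
    exact this
  have h1 : y ∈ P0 S t := h ⟨(mem y).mpr hyT, hy⟩
  have h2 : P0 S t ≤ (P0 T t).comap H.subtype := by
    unfold P0
    rw [closure_le]
    rintro z ⟨hzT, hzv⟩
    exact Subgroup.subset_closure ⟨(mem z).mp hzT, vals_map H.subtype t hzv⟩
  exact h2 h1

/-- Sylow intersections and surjective homomorphisms -/
theorem lift_sylow {Q : Type*} [Group Q] (T : Sylow p G) (V : Subgroup G) [V.Normal] (f : G →* Q)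
    {q : Q} (h1 : q ∈ (T : Subgroup G).map f) (h2 : q ∈ V.map f) :
    ∃ y ∈ (T : Subgroup G) ⊓ V, f y = q := by
  obtain ⟨S, hS⟩ := exists_sylow_subgroupOf T V
  have hg : Function.Surjective (f.subgroupMap V) := f.subgroupMap_surjective V
  let S' := S.mapSurjective hg
  have hp : IsPGroup p (((T : Subgroup G).map f).subgroupOf (V.map f)) :=
    (T.2.map f).comap_subtype
  have hle : (S' : Subgroup (V.map f)) ≤ ((T : Subgroup G).map f).subgroupOf (V.map f) := by
    rintro _ ⟨x, hx, rfl⟩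
    have hx' : (x : G) ∈ T := by
      have : x ∈ (T : Subgroup G).subgroupOf V := by rw [← hS]; exact hx
      exact this
    exact ⟨x, hx', rfl⟩
  have heq := S'.is_maximal' hp hle
  have hq : (⟨q, h2⟩ : V.map f) ∈ ((T : Subgroup G).map f).subgroupOf (V.map f) := h1
  rw [heq] at hq
  obtain ⟨x, hx, e⟩ := hq
  have hx' : (x : G) ∈ T := by
    have : x ∈ (T : Subgroup G).subgroupOf V := by rw [← hS]; exact hx
    exact this
  exact ⟨x, ⟨hx', x.2⟩, congrArg Subtype.val e⟩

/-- `p`-elements are in normal subgroups of index prime to `p` -/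
theorem mem_of_coprime {T : Subgroup G} (hT : IsPGroup p T) (V : Subgroup G) [V.Normal]
    (hV : ¬ p ∣ V.index) {x : G} (hx : x ∈ T) : x ∈ V := by
  obtain ⟨k, hk⟩ := hT ⟨x, hx⟩
  have hk' : x ^ p ^ k = 1 := congrArg Subtype.val hk
  have h1 : (x : G ⧸ V) ^ p ^ k = 1 := by
    rw [← QuotientGroup.mk_pow, hk']; rfl
  have h2 : (x : G ⧸ V) ^ V.index = 1 := by
    rw [Subgroup.index]; exact pow_card_eq_one'
  have hco : Nat.Coprime (p ^ k) V.index :=
    Nat.Coprime.pow_left k ((Nat.Prime.coprime_iff_not_dvd Fact.out).mpr hV)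
  have h3 : (x : G ⧸ V) = 1 := by
    have := pow_gcd_eq_one.mpr ⟨h1, h2⟩
    rwa [hco.gcd_eq_one, pow_one] at this
  exact (QuotientGroup.eq_one_iff x).mp h3

end induct

end Pool.Agent.Helper337.Focal
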