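import Mathlib
import Pool.Agent.Helper337.FocalF

set_option autoImplicit false
set_option linter.unusedSectionVars false

namespace Pool.Agent.Helper337.Focal

open Subgroup
open scoped commutatorElement

universe u

/-- `H` is a section of `G` -/
def IsSection (H G : Type u) [Group H] [Group G] : Prop :=
  ∃ (S : Subgroup G) (f : S →* H), Function.Surjective f

theorem IsSection.refl (G : Type u) [Group G] : IsSection G G :=
  ⟨⊤, (⊤ : Subgroup G).subtype, fun x => ⟨⟨x, trivial⟩, rfl⟩⟩

theorem IsSection.of_sub {G H : Type u} [Group G] [Group H] (N : Subgroup G)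
    (h : IsSection H N) : IsSection H G := by
  obtain ⟨S, f, hf⟩ := h
  let e : S ≃* S.map N.subtype := S.equivMapOfInjective N.subtype N.subtype_injective
  exact ⟨S.map N.subtype, f.comp e.symm.toMonoidHom, hf.comp e.symm.surjective⟩

theorem IsSection.of_quot {G Q H : Type u} [Group G] [Group Q] [Group H] (g : G →* Q)
    (hg : Function.Surjective g) (h : IsSection H Q) : IsSection H G := by
  obtain ⟨S, f, hf⟩ := h
  exact ⟨S.comap g, f.comp (g.subgroupComap S),
    hf.comp (g.subgroupComap_surjective_of_surjective S hg)⟩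

/-- the critical groups: perfect, and simple of order divisible by `p` modulo a normal
`p'`-subgroup contained in the Frattini subgroup -/
def Bad (p : ℕ) (H : Type u) [Group H] : Prop :=
  commutator H = ⊤ ∧ ∃ (K : Subgroup H) (_ : K.Normal), ¬ p ∣ Nat.card K ∧ K ≤ _root_.frattini H ∧
    IsSimpleGroup (H ⧸ K) ∧ p ∣ Nat.card (H ⧸ K)

/-- the statement for all Sylow subgroups -/
def Claim (p : ℕ) (G : Type u) [Group G] (t : Tree) : Prop :=
  ∀ T : Sylow p G, (T : Subgroup G) ⊓ verb G t ≤ P0 T t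

section facts

variable {G : Type u} [Group G] [Finite G] {p : ℕ} [Fact p.Prime]

theorem claim_of_one (t : Tree) (T : Sylow p G) (h : Cl T t) : Claim p G t := by
  intro T'
  obtain ⟨g, rfl⟩ := MulAction.exists_smul_eq G T T'
  have memT : ∀ x, x ∈ ((g • T : Sylow p G) : Subgroup G) ↔ g⁻¹ * x * g ∈ (T : Subgroup G) := by
    intro x
    rw [Sylow.coe_subgroup_smul, Subgroup.mem_pointwise_smul_iff_inv_smul_mem]
    simp [MulAut.smul_def, ← map_inv]
  rintro x ⟨hx, hxv⟩
  have h1 : g⁻¹ * x * g ∈ P0 T t := by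
    refine h ⟨(memT x).mp hx, ?_⟩
    have := (verb_normal (G := G) t).conj_mem x hxv g⁻¹
    simpa using this
  have h2 : P0 T t ≤ (P0 (g • T) t).comap (MulAut.conj g).toMonoidHom := by
    unfold P0
    rw [closure_le]
    rintro z ⟨hzT, hzv⟩
    apply Subgroup.subset_closure
    refine ⟨?_, vals_conj t hzv g⟩
    have h3 : g⁻¹ * (g * z * g⁻¹) * g ∈ (T : Subgroup G) := by
      have : g⁻¹ * (g * z * g⁻¹) * g = z := by group
      rw [this]; exact hzT
    exact (memT _).mpr h3
  have h3 := h2 h1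
  have h4 : (MulAut.conj g).toMonoidHom (g⁻¹ * x * g) = x := by
    change g * (g⁻¹ * x * g) * g⁻¹ = x
    group
  rw [Subgroup.mem_comap, h4] at h3
  exact h3

/-- perfect groups are verbal -/
theorem verb_of_perfect {Q : Type*} [Group Q] (h : commutator Q = ⊤) (t : Tree) :
    verb Q t = ⊤ := by
  induction t with
  | leaf => unfold verb; rw [show vals Q Tree.leaf = Set.univ from rfl, Subgroup.closure_univ]
  | node s t hs ht => rw [verb_node, hs, ht]; exact h

theorem exists_min_normal (S : Subgroup G) (hS : S.Normal) (hb : S ≠ ⊥) :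
    ∃ N : Subgroup G, N.Normal ∧ MinNormal N ∧ N ≤ S := by
  have hfin : {N : Subgroup G | N.Normal ∧ N ≠ ⊥ ∧ N ≤ S}.Finite := Set.toFinite _
  obtain ⟨N, hN⟩ := hfin.exists_minimal ⟨S, hS, hb, le_rfl⟩
  refine ⟨N, hN.1.1, ⟨hN.1.2.1, fun K hK hKN => ?_⟩, hN.1.2.2⟩
  by_cases hKb : K = ⊥
  · exact Or.inl hKb
  · exact Or.inr (le_antisymm hKN (hN.2 ⟨hK, hKb, hKN.trans hN.1.2.2⟩ hKN))

theorem eq_one_of_coprime (T : Sylow p G) {M : Subgroup G} (hM : ¬ p ∣ Nat.card M) {x : G}
    (hx : x ∈ T) (hxM : x ∈ M) : x = 1 := by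
  obtain ⟨k, hk⟩ := T.2 ⟨x, hx⟩
  have h1 : x ^ p ^ k = 1 := congrArg Subtype.val hk
  have h2 : x ^ Nat.card M = 1 := by
    have : (⟨x, hxM⟩ : M) ^ Nat.card M = 1 := pow_card_eq_one'
    exact congrArg Subtype.val this
  have hco : Nat.Coprime (p ^ k) (Nat.card M) :=
    Nat.Coprime.pow_left k ((Nat.Prime.coprime_iff_not_dvd Fact.out).mpr hM)
  have := pow_gcd_eq_one.mpr ⟨h1, h2⟩
  rwa [hco.gcd_eq_one, pow_one] at this

/-- index of a normal subgroup with a supplement of order prime to `p` -/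
theorem index_coprime {V K : Subgroup G} [V.Normal] (h : V ⊔ K = ⊤) (hK : ¬ p ∣ Nat.card K) :
    ¬ p ∣ V.index := by
  intro hd
  apply hK
  refine hd.trans ?_
  have hsurj : Function.Surjective ((QuotientGroup.mk' V).comp K.subtype) := by
    intro q
    obtain ⟨x, rfl⟩ := QuotientGroup.mk'_surjective V q
    have hx : x ∈ V ⊔ K := by rw [h]; trivial
    rw [Subgroup.mem_sup_of_normal_left] at hx
    obtain ⟨v, hv, k, hk, rfl⟩ := hx
    refine ⟨⟨k, hk⟩, ?_⟩
    have : (v : G ⧸ V) = 1 := (QuotientGroup.eq_one_iff v).mpr hv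
    simp only [MonoidHom.comp_apply, Subgroup.subtype_apply, QuotientGroup.mk'_apply,
      QuotientGroup.mk_mul, this, one_mul]
  exact Subgroup.card_dvd_of_surjective _ hsurj

/-- the verbal subgroup has index prime to `p` if the group is verbal modulo a `p'`-group -/
theorem verb_index_coprime {Q : Type*} [Group Q] (f : G →* Q) (hf : Function.Surjective f)
    (t : Tree) (h : verb Q t = ⊤) (hK : ¬ p ∣ Nat.card f.ker) : ¬ p ∣ (verb G t).index := by
  apply index_coprime (K := f.ker) _ hK
  rw [← Subgroup.comap_map_eq, verb_map f hf, h, Subgroup.comap_top]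

end facts

end Pool.Agent.Helper337.Focal
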