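import Mathlib
import Pool.Agent.Helper337.FocalG

set_option autoImplicit false
set_option linter.unusedSectionVars false

namespace Pool.Agent.Helper337.Focal

open Subgroup
open scoped commutatorElement

universe u

theorem main_aux (p : ℕ) [Fact p.Prime] (t : Tree) : ∀ (n : ℕ) (G : Type u) [Group G] [Finite G],
    Nat.card G = n →
    (∀ (H : Type u) [Group H] [Finite H], IsSection H G → Bad p H → ∀ t', Claim p H t') →
    Claim p G t := by
  induction t with
  | leaf =>
    intro n G _ _ _ _ T x hx
    exact Subgroup.subset_closure ⟨hx.1, trivial⟩
  | node s t ihs iht =>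
    intro n
    induction n using Nat.strong_induction_on with
    | _ n ih =>
    intro G _ _ hcard hyp T
    have hs : Cl T s := ihs _ G rfl hyp T
    have ht : Cl T t := iht _ G rfl hyp T
    have hMn : (verb G (.node s t)).Normal := verb_normal _
    have hMdef : verb G (.node s t) = ⁅verb G s, verb G t⁆ := verb_node s t
    by_cases hpM : p ∣ Nat.card (verb G (.node s t))
    swap
    · rintro x ⟨hxT, hxM⟩
      rw [eq_one_of_coprime T hpM hxT hxM]
      exact one_mem _
    -- the subgroup `K`
    have hfin : {K : Subgroup G | K.Normal ∧ K ≤ verb G (.node s t) ∧ ¬ p ∣ Nat.card K}.Finite :=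
      Set.toFinite _
    obtain ⟨K, hK⟩ := hfin.exists_maximal
      ⟨⊥, inferInstance, bot_le, by
        rw [Subgroup.card_bot]
        exact fun h => (Nat.Prime.one_lt (Fact.out : p.Prime)).ne' (Nat.dvd_one.mp h)⟩
    obtain ⟨⟨hKn, hKM, hKp⟩, hKmax⟩ := hK
    have hKlt : K < verb G (.node s t) := by
      refine lt_of_le_of_ne hKM ?_
      intro h
      rw [h] at hKp
      exact hKp hpM
    -- the subgroup `L`
    have hfin2 : {L : Subgroup G | L.Normal ∧ K < L ∧ L ≤ verb G (.node s t)}.Finite :=
      Set.toFinite _
    obtain ⟨L, hL⟩ := hfin2.exists_minimal ⟨_, hMn, hKlt, le_rfl⟩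
    obtain ⟨⟨hLn, hKL, hLM⟩, hLmin⟩ := hL
    have hpL : p ∣ Nat.card L := by
      by_contra hcon
      exact (not_le_of_gt hKL) (hKmax ⟨hLn, hLM, hcon⟩ hKL.le)
    obtain ⟨SL, hSL⟩ := exists_sylow_subgroupOf T L
    have memSL : ∀ x : L, x ∈ SL ↔ (x : G) ∈ T := by
      intro x
      have : x ∈ (SL : Subgroup L) ↔ x ∈ (T : Subgroup G).subgroupOf L := by rw [hSL]
      exact this
    have hTL : (T : Subgroup G) ⊓ L ≠ ⊥ := by
      have h1 := SL.ne_bot_of_dvd_card hpL
      obtain ⟨⟨x, hx⟩, hx1⟩ := (Subgroup.ne_bot_iff_exists_ne_one).mp h1
      intro h
      have h2 : (x : G) ∈ (T : Subgroup G) ⊓ L := ⟨(memSL x).mp hx, x.2⟩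
      rw [h] at h2
      apply hx1
      apply Subtype.ext
      apply Subtype.ext
      exact Subgroup.mem_bot.mp h2
    by_cases hSN : ((T : Subgroup G) ⊓ L).Normal
    · -- a minimal normal `p`-subgroup
      obtain ⟨N, hNn, hNmin, hNS⟩ := exists_min_normal _ hSN hTL
      have hNp : IsPGroup p N := T.2.to_le (hNS.trans inf_le_left)
      have hQ : Nat.card (G ⧸ N) < n := by
        rw [← hcard, Subgroup.card_eq_card_quotient_mul_card_subgroup N]
        have h1 : 1 < Nat.card N := by
          rw [Finite.one_lt_card_iff_nontrivial, Subgroup.nontrivial_iff_ne_bot]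
          exact hNmin.1
        have h2 : 0 < Nat.card (G ⧸ N) := Nat.card_pos
        nlinarith
      have hcl := ih _ hQ (G ⧸ N) rfl (fun H _ _ hH =>
        hyp H (hH.of_quot (QuotientGroup.mk' N) (QuotientGroup.mk'_surjective N)))
      have hker : (QuotientGroup.mk' N).ker = N := QuotientGroup.ker_mk' N
      have hq := quot_step T (.node s t) (QuotientGroup.mk' N) (QuotientGroup.mk'_surjective N)
        (by rw [hker]; exact hNS.trans inf_le_left) (hcl _)
      rw [hker] at hq
      exact key T s t N hNmin hs ht hNp (hNS.trans (inf_le_right.trans hLM)) hq
    · -- the normaliser of `T ⊓ L`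
      set NG : Subgroup G := normalizer (((T : Subgroup G) ⊓ L : Subgroup G) : Set G) with hNG
      have hTNG : (T : Subgroup G) ≤ NG := by
        intro x hx
        rw [hNG, Subgroup.mem_normalizer_iff]
        intro y
        constructor
        · rintro ⟨hyT, hyL⟩
          exact ⟨(T : Subgroup G).mul_mem ((T : Subgroup G).mul_mem hx hyT)
            ((T : Subgroup G).inv_mem hx), hLn.conj_mem y hyL x⟩
        · rintro ⟨hyT, hyL⟩
          have e : y = x⁻¹ * (x * y * x⁻¹) * x := by group
          refine ⟨?_, ?_⟩
          · rw [e]
            exact (T : Subgroup G).mul_mem ((T : Subgroup G).mul_mem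
              ((T : Subgroup G).inv_mem hx) hyT) hx
          · rw [e]
            have := hLn.conj_mem _ hyL x⁻¹
            simpa using this
      have hNGtop : NG ≠ ⊤ := by
        intro h
        exact hSN (Subgroup.normalizer_eq_top_iff.mp h)
      have hNGcard : Nat.card NG < n := by
        rw [← hcard]
        exact lt_of_le_of_ne (Subgroup.card_le_card_group NG)
          (fun h => hNGtop (Subgroup.eq_top_of_card_eq NG h))
      have hclN := ih _ hNGcard NG rfl (fun H _ _ hH => hyp H (hH.of_sub NG))
      have cN : ∀ y : NG, y ∈ verb NG (.node s t) → (y : G) ∈ T → (y : G) ∈ P0 T (.node s t) :=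
        fun y hy hyT => sub_step T _ NG hTNG (hclN _) hy hyT
      have hfr : ∀ g : G, ∃ h ∈ NG, ∃ a ∈ L, h * a = g := by
        intro g
        obtain ⟨h, a, e, ha, hh⟩ := frattini T L g
        exact ⟨h, Subgroup.mem_normalizer_iff.mpr hh, a, ha, e⟩
      -- elements of `T ⊓ verb G` modulo a normal subgroup `R` with `NG R = G`
      have red : ∀ R : Subgroup G, ∀ _ : R.Normal, (∀ g : G, ∃ h ∈ NG, h⁻¹ * g ∈ R) →
          ∀ x ∈ (T : Subgroup G) ⊓ verb G (.node s t),
            ∃ y ∈ P0 T (.node s t), y⁻¹ * x ∈ (T : Subgroup G) ⊓ R := by
        intro R hR hsup x hx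
        have hsurj : Function.Surjective ((QuotientGroup.mk' R).comp NG.subtype) := by
          intro q
          obtain ⟨g, rfl⟩ := QuotientGroup.mk'_surjective R q
          obtain ⟨h, hh, hr⟩ := hsup g
          refine ⟨⟨h, hh⟩, ?_⟩
          simp only [MonoidHom.comp_apply, Subgroup.subtype_apply, QuotientGroup.mk'_apply]
          rw [QuotientGroup.eq]
          exact hr
        have h1 : QuotientGroup.mk' R x ∈
            ((T.subtype hTNG : Sylow p NG) : Subgroup NG).map
              ((QuotientGroup.mk' R).comp NG.subtype) :=
          ⟨⟨x, hTNG hx.1⟩, hx.1, rfl⟩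
        have h2 : QuotientGroup.mk' R x ∈ (verb NG (.node s t)).map
              ((QuotientGroup.mk' R).comp NG.subtype) := by
          rw [verb_map _ hsurj, ← verb_map _ (QuotientGroup.mk'_surjective R)]
          exact ⟨x, hx.2, rfl⟩
        obtain ⟨y, hy, e⟩ := lift_sylow (T.subtype hTNG) (verb NG (.node s t)) _ h1 h2
        have hyT : (y : G) ∈ T := hy.1
        refine ⟨y, cN y hy.2 hyT,
          (T : Subgroup G).mul_mem ((T : Subgroup G).inv_mem hyT) hx.1, ?_⟩
        simp only [MonoidHom.comp_apply, Subgroup.subtype_apply, QuotientGroup.mk'_apply] at e
        exact QuotientGroup.eq.mp e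
      by_cases hLK : L ≤ K ⊔ ((T : Subgroup G) ⊓ L)
      · -- `L / K` is a `p`-group
        intro x hx
        obtain ⟨y, hy, hyx⟩ := red K hKn (by
          intro g
          obtain ⟨h, hh, a, ha, rfl⟩ := hfr g
          have ha' := hLK ha
          rw [Subgroup.mem_sup_of_normal_left] at ha'
          obtain ⟨k, hk, z, hz, rfl⟩ := ha'
          refine ⟨h * z, mul_mem hh (hTNG hz.1), ?_⟩
          have : (h * z)⁻¹ * (h * (k * z)) = z⁻¹ * k * z := by group
          rw [this]
          have := hKn.conj_mem k hk z⁻¹
          simpa using this) x hx
        have h1 : y⁻¹ * x = 1 := eq_one_of_coprime T hKp hyx.1 hyx.2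
        have h2 : x = y := by
          have : x = y * (y⁻¹ * x) := by group
          rw [this, h1, mul_one]
        rw [h2]
        exact hy
      · -- `L / K` is perfect
        have hcommL : K ⊔ ⁅L, L⁆ = L := by
          have hle : K ⊔ ⁅L, L⁆ ≤ L := sup_le hKL.le (Subgroup.commutator_le_left _ _)
          have hn1 : (K ⊔ ⁅L, L⁆).Normal := inferInstance
          by_cases hlt : K < K ⊔ ⁅L, L⁆
          · exact le_antisymm hle (hLmin ⟨hn1, hlt, hle.trans hLM⟩ hle)
          · exfalso
            have hLL : ⁅L, L⁆ ≤ K := by
              have : K = K ⊔ ⁅L, L⁆ := by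
                by_contra hne
                exact hlt (lt_of_le_of_ne le_sup_left hne)
              rw [this]; exact le_sup_right
            apply hLK
            have hn2 : (K ⊔ ((T : Subgroup G) ⊓ L)).Normal := by
              constructor
              intro x hx g
              rw [Subgroup.mem_sup_of_normal_left] at hx ⊢
              obtain ⟨k, hk, z, hz, rfl⟩ := hx
              obtain ⟨h, hh, a, ha, rfl⟩ := hfr g
              have hz' : h * z * h⁻¹ ∈ (T : Subgroup G) ⊓ L :=
                (Subgroup.mem_normalizer_iff.mp hh z).mp hz
              refine ⟨h * a * (k * z) * (h * a)⁻¹ * (h * z * h⁻¹)⁻¹, ?_, h * z * h⁻¹, hz', by group⟩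
              have e1 : h * a * (k * z) * (h * a)⁻¹ * (h * z * h⁻¹)⁻¹ =
                  h * ((a * k * a⁻¹) * ⁅a, z⁆) * h⁻¹ := by
                simp only [commutatorElement_def]; group
              rw [e1]
              refine hKn.conj_mem _ (mul_mem (hKn.conj_mem k hk a) ?_) h
              exact hLL (Subgroup.commutator_mem_commutator ha hz.2)
            have hlt2 : K < K ⊔ ((T : Subgroup G) ⊓ L) := by
              refine lt_of_le_of_ne le_sup_left ?_
              intro he
              apply hTL
              rw [Subgroup.eq_bot_iff_forall]
              intro x hx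
              refine eq_one_of_coprime T hKp hx.1 ?_
              rw [he]
              exact le_sup_right (a := K) hx
            exact hLmin ⟨hn2, hlt2, (sup_le hKL.le inf_le_right).trans hLM⟩
              (sup_le hKL.le inf_le_right)
        by_cases hLtop : L = ⊤
        · -- `G` itself is critical
          have hM : verb G (.node s t) = ⊤ := top_le_iff.mp (hLtop ▸ hLM)
          have hperfG : commutator G = ⊤ := by
            have : verb G (.node s t) ≤ commutator G := by
              rw [hMdef, _root_.commutator_def]
              exact Subgroup.commutator_mono le_top le_top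
            rw [hM] at this
            exact top_le_iff.mp this
          have hcardGK : Nat.card G = Nat.card (G ⧸ K) * Nat.card K :=
            Subgroup.card_eq_card_quotient_mul_card_subgroup K
          have hpG : p ∣ Nat.card G := by
            rw [hLtop] at hpL
            rwa [Subgroup.card_top] at hpL
          have hpGK : p ∣ Nat.card (G ⧸ K) := by
            rw [hcardGK] at hpG
            rcases (Nat.Prime.dvd_mul Fact.out).mp hpG with h | h
            · exact h
            · exact absurd h hKp
          have hKtop : K ≠ ⊤ := by
            intro h
            rw [h, Subgroup.card_top] at hKp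
            exact hKp hpG
          have hsimple : IsSimpleGroup (G ⧸ K) := by
            have : Nontrivial (G ⧸ K) := by
              rw [← Finite.one_lt_card_iff_nontrivial]
              have h0 : 0 < Nat.card (G ⧸ K) := Nat.card_pos
              have h1 : 1 < p := (Fact.out : p.Prime).one_lt
              exact lt_of_lt_of_le h1 (Nat.le_of_dvd h0 hpGK)
            refine { eq_bot_or_eq_top_of_normal := fun R hR => ?_ }
            have hRn : (R.comap (QuotientGroup.mk' K)).Normal := inferInstance
            have hle : K ≤ R.comap (QuotientGroup.mk' K) := by
              intro x hx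
              rw [Subgroup.mem_comap, QuotientGroup.mk'_apply, (QuotientGroup.eq_one_iff x).mpr hx]
              exact one_mem _
            by_cases hlt : K < R.comap (QuotientGroup.mk' K)
            · right
              have h1 := hLmin ⟨hRn, hlt, by rw [hM]; exact le_top⟩ (by rw [hLtop]; exact le_top)
              rw [hLtop, top_le_iff] at h1
              rw [eq_top_iff]
              rintro q -
              obtain ⟨x, rfl⟩ := QuotientGroup.mk'_surjective K q
              have : x ∈ R.comap (QuotientGroup.mk' K) := by rw [h1]; trivial
              exact this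
            · left
              have h1 : K = R.comap (QuotientGroup.mk' K) := by
                by_contra hne
                exact hlt (lt_of_le_of_ne hle hne)
              rw [Subgroup.eq_bot_iff_forall]
              intro q hq
              obtain ⟨x, rfl⟩ := QuotientGroup.mk'_surjective K q
              have : x ∈ K := by rw [h1]; exact hq
              exact (QuotientGroup.eq_one_iff x).mpr this
          by_cases hKF : K ≤ _root_.frattini G
          · exact hyp G (IsSection.refl G) ⟨hperfG, K, hKn, hKp, hKF, hsimple, hpGK⟩ _ T
          · obtain ⟨C, hC, hKC⟩ : ∃ C : Subgroup G, IsCoatom C ∧ ¬ K ≤ C := by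
              by_contra hcon
              push Not at hcon
              apply hKF
              unfold _root_.frattini Order.radical
              exact le_iInf₂ fun C hC => hcon C hC
            have hCK : C ⊔ K = ⊤ := by
              apply hC.2
              refine lt_of_le_of_ne le_sup_left ?_
              intro h
              apply hKC
              rw [h]
              exact le_sup_right
            have hCcard : Nat.card C < n := by
              rw [← hcard]
              exact lt_of_le_of_ne (Subgroup.card_le_card_group C)
                (fun h => hC.1 (Subgroup.eq_top_of_card_eq C h))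
            have hclC := ih _ hCcard C rfl (fun H _ _ hH => hyp H (hH.of_sub C))
            have hfs : Function.Surjective ((QuotientGroup.mk' K).comp C.subtype) := by
              intro q
              obtain ⟨g, rfl⟩ := QuotientGroup.mk'_surjective K q
              have hg : g ∈ C ⊔ K := by rw [hCK]; trivial
              rw [Subgroup.mem_sup_of_normal_right] at hg
              obtain ⟨c, hc, k, hk, rfl⟩ := hg
              refine ⟨⟨c, hc⟩, ?_⟩
              simp only [MonoidHom.comp_apply, Subgroup.subtype_apply, QuotientGroup.mk'_apply]
              rw [QuotientGroup.eq]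
              simpa using hk
            have hvQ : verb (G ⧸ K) (.node s t) = ⊤ := by
              rw [← verb_map _ (QuotientGroup.mk'_surjective K), hM]
              exact Subgroup.map_top_of_surjective _ (QuotientGroup.mk'_surjective K)
            have hkerf : ((QuotientGroup.mk' K).comp C.subtype).ker = K.comap C.subtype := by
              rw [← MonoidHom.comap_ker, QuotientGroup.ker_mk']
            have hidxV : ¬ p ∣ (verb C (.node s t)).index := by
              refine verb_index_coprime _ hfs _ hvQ ?_
              rw [hkerf]
              intro hd
              exact hKp (hd.trans (Subgroup.card_comap_dvd_of_injective K C.subtype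
                C.subtype_injective))
            have hCidx : ¬ p ∣ C.index := by
              intro hd
              apply hKp
              have e1 : K.relIndex C = K.index := by
                rw [← Subgroup.relIndex_sup_right, hCK, Subgroup.relIndex_top_right]
              have e2 : Nat.card (K.subgroupOf C) * K.relIndex C = Nat.card C :=
                Subgroup.card_mul_index _
              have e3 : Nat.card K * K.index = Nat.card G := Subgroup.card_mul_index _
              have e4 : Nat.card C * C.index = Nat.card G := Subgroup.card_mul_index _
              have e5 : 0 < K.index := Nat.pos_of_ne_zero Subgroup.index_ne_zero_of_finite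
              have e6 : Nat.card K = C.index * Nat.card (K.subgroupOf C) := by
                apply Nat.eq_of_mul_eq_mul_right e5
                rw [e3, ← e4, ← e2, e1]
                ring
              rw [e6]
              exact hd.mul_right _
            obtain ⟨S⟩ : Nonempty (Sylow p C) := inferInstance
            have hSp : IsPGroup p ((S : Subgroup C).map C.subtype) := S.2.map _
            have hSidx : ¬ p ∣ ((S : Subgroup C).map C.subtype).index := by
              rw [Subgroup.index_map_subtype]
              intro hd
              rcases (Nat.Prime.dvd_mul Fact.out).mp hd with h | h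
              · exact S.not_dvd_index h
              · exact hCidx h
            let T' : Sylow p G := hSp.toSylow hSidx
            have hT'C : (T' : Subgroup G) ≤ C := by
              rintro _ ⟨x, -, rfl⟩
              exact x.2
            have hcl' : Cl T' (.node s t) := by
              rintro x ⟨hxT, -⟩
              have h1 : (⟨x, hT'C hxT⟩ : C) ∈ verb C (.node s t) :=
                mem_of_coprime (T'.subtype hT'C).2 _ hidxV hxT
              exact sub_step T' _ C hT'C (hclC _) h1 hxT
            exact claim_of_one _ T' hcl' T
        · have hLcard : Nat.card L < n := by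
            rw [← hcard]
            exact lt_of_le_of_ne (Subgroup.card_le_card_group L)
              (fun h => hLtop (Subgroup.eq_top_of_card_eq L h))
          have hclL := ih _ hLcard L rfl (fun H _ _ hH => hyp H (hH.of_sub L))
          -- `verb L` has index prime to `p` in `L`
          have hperf : commutator (L ⧸ K.subgroupOf L) = ⊤ := by
            rw [eq_top_iff]
            rintro q -
            obtain ⟨x, rfl⟩ := QuotientGroup.mk'_surjective (K.subgroupOf L) q
            have hx : (x : G) ∈ K ⊔ ⁅L, L⁆ := by rw [hcommL]; exact x.2
            rw [Subgroup.mem_sup_of_normal_left] at hx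
            obtain ⟨k, hk, c, hc, e⟩ := hx
            rw [← Subgroup.map_subtype_commutator] at hc
            obtain ⟨c', hc', rfl⟩ := hc
            have h1 : QuotientGroup.mk' (K.subgroupOf L) x =
                QuotientGroup.mk' (K.subgroupOf L) c' := by
              rw [QuotientGroup.mk'_apply, QuotientGroup.mk'_apply, QuotientGroup.eq,
                Subgroup.mem_subgroupOf]
              push_cast
              rw [← e]
              have h3 := hKn.conj_mem _ (inv_mem hk) (c' : G)⁻¹
              have h4 : (k * (L.subtype c'))⁻¹ * (c' : G) = (c' : G)⁻¹ * k⁻¹ * (c' : G)⁻¹⁻¹ := by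
                simp
              rw [h4]
              exact h3
            rw [h1]
            have h5 : (commutator L).map (QuotientGroup.mk' (K.subgroupOf L)) ≤
                commutator (L ⧸ K.subgroupOf L) := by
              rw [_root_.commutator_def, _root_.commutator_def, Subgroup.map_commutator]
              exact Subgroup.commutator_mono le_top le_top
            exact h5 ⟨c', hc', rfl⟩
          have hidx : ¬ p ∣ (verb L (.node s t)).index := by
            refine verb_index_coprime (QuotientGroup.mk' (K.subgroupOf L))
              (QuotientGroup.mk'_surjective _) _ (verb_of_perfect hperf _) ?_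
            rw [QuotientGroup.ker_mk']
            intro hd
            apply hKp
            rwa [Nat.card_congr (Subgroup.subgroupOfEquivOfLe hKL.le).toEquiv] at hd
          have hTLP : ∀ x ∈ (T : Subgroup G) ⊓ L, x ∈ P0 T (.node s t) := by
            rintro x ⟨hxT, hxL⟩
            have h1 : (⟨x, hxL⟩ : L) ∈ verb L (.node s t) :=
              mem_of_coprime SL.2 _ hidx ((memSL _).mpr hxT)
            exact sub_step' T _ L SL hSL (hclL SL) h1 hxT
          intro x hx
          obtain ⟨y, hy, hyx⟩ := red L hLn (by
            intro g
            obtain ⟨h, hh, a, ha, rfl⟩ := hfr g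
            exact ⟨h, hh, by simpa using ha⟩) x hx
          have h2 : x = y * (y⁻¹ * x) := by group
          rw [h2]
          exact mul_mem hy (hTLP _ hyx)

end Pool.Agent.Helper337.Focal
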