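import Mathlib
import Pool.Agent.Helper337.FocalDefs
import Pool.Agent.Helper337.FocalH

set_option autoImplicit false
set_option linter.unusedSectionVars false

namespace Pool.Agent.Helper337.Focal

open Subgroup Pool.Agent.Helper337.MultilinearWords
open scoped commutatorElement

theorem lift_congr {u : FreeGroup ℕ} {A : Finset ℕ} (h : IsMultilinear u A) {G : Type} [Group G]
    (g g' : ℕ → G) (hg : ∀ i ∈ A, g i = g' i) : FreeGroup.lift g u = FreeGroup.lift g' u := by
  induction h with
  | var i => simpa using hg i (by simp)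
  | @comm u v A B _ _ _ ihu ihv =>
    have h1 := ihu fun i hi => hg i (Finset.mem_union_left _ hi)
    have h2 := ihv fun i hi => hg i (Finset.mem_union_right _ hi)
    simp only [map_mul, map_inv, h1, h2]

theorem values_var (i : ℕ) (G : Type) [Group G] : values (FreeGroup.of i) G = vals G Tree.leaf := by
  ext x
  constructor
  · intro _; trivial
  · intro _; exact ⟨fun _ => x, by simp⟩

theorem values_comm {u v : FreeGroup ℕ} {A B : Finset ℕ} (hu : IsMultilinear u A)
    (hv : IsMultilinear v B) (hAB : Disjoint A B) {s t : Tree} (G : Type) [Group G]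
    (h1 : values u G = vals G s) (h2 : values v G = vals G t) :
    values (u⁻¹ * v⁻¹ * u * v) G = vals G (.node s t) := by
  ext x
  constructor
  · rintro ⟨g, rfl⟩
    refine ⟨(FreeGroup.lift g u)⁻¹, vals_inv s ?_, (FreeGroup.lift g v)⁻¹, vals_inv t ?_, ?_⟩
    · rw [← h1]; exact ⟨g, rfl⟩
    · rw [← h2]; exact ⟨g, rfl⟩
    · simp [commutatorElement_def]
  · rintro ⟨a, ha, b, hb, rfl⟩
    have ha' := vals_inv s ha
    have hb' := vals_inv t hb
    rw [← h1] at ha'
    rw [← h2] at hb'
    obtain ⟨g1, e1⟩ := ha'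
    obtain ⟨g2, e2⟩ := hb'
    refine ⟨fun i => if i ∈ A then g1 i else g2 i, ?_⟩
    have e3 : FreeGroup.lift (fun i => if i ∈ A then g1 i else g2 i) u = a⁻¹ := by
      rw [← e1]
      apply lift_congr hu
      intro i hi
      simp [hi]
    have e4 : FreeGroup.lift (fun i => if i ∈ A then g1 i else g2 i) v = b⁻¹ := by
      rw [← e2]
      apply lift_congr hv
      intro i hi
      have : i ∉ A := fun h => (Finset.disjoint_left.mp hAB h) hi
      simp [this]
    simp only [map_mul, map_inv, e3, e4, commutatorElement_def]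
    group

theorem exists_tree {w : FreeGroup ℕ} {A : Finset ℕ} (h : IsMultilinear w A) :
    ∃ t : Tree, ∀ (G : Type) [Group G], values w G = vals G t := by
  induction h with
  | var i => exact ⟨.leaf, fun G _ => values_var i G⟩
  | comm hu hv hAB ihu ihv =>
    obtain ⟨s, hs⟩ := ihu
    obtain ⟨t, ht⟩ := ihv
    exact ⟨.node s t, fun G _ => values_comm hu hv hAB G (hs G) (ht G)⟩

theorem exists_word (t : Tree) : ∀ n : ℕ, ∃ (w : FreeGroup ℕ) (A : Finset ℕ) (m : ℕ),
    IsMultilinear w A ∧ (∀ i ∈ A, n ≤ i ∧ i < m) ∧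
      ∀ (G : Type) [Group G], values w G = vals G t := by
  induction t with
  | leaf =>
    intro n
    exact ⟨FreeGroup.of n, {n}, n + 1, .var n, by simp, fun G _ => values_var n G⟩
  | node s t ihs iht =>
    intro n
    obtain ⟨u, A, m, hu, hA, hsv⟩ := ihs n
    obtain ⟨v, B, k, hv, hB, htv⟩ := iht (max n m)
    have hd : Disjoint A B := by
      rw [Finset.disjoint_left]
      intro i hi hi'
      have h1 := (hA i hi).2
      have h2 := (hB i hi').1
      have h3 := le_max_right n m
      omega
    refine ⟨_, _, max m k, .comm hu hv hd, ?_, fun G _ =>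
      values_comm hu hv hd G (hsv G) (htv G)⟩
    intro i hi
    rcases Finset.mem_union.mp hi with h | h
    · exact ⟨(hA i h).1, lt_of_lt_of_le (hA i h).2 (le_max_left _ _)⟩
    · exact ⟨(le_max_left n m).trans (hB i h).1, lt_of_lt_of_le (hB i h).2 (le_max_right _ _)⟩

theorem generated_iff {w : FreeGroup ℕ} {t : Tree} {G : Type} [Group G] [Finite G] {p : ℕ}
    [Fact p.Prime] (h : values w G = vals G t) : SylowGenerated w p G ↔ Claim p G t := by
  have hv : verbal w G = verb G t := by unfold verbal verb; rw [h]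
  have hn : (verbal w G).Normal := by rw [hv]; infer_instance
  constructor
  · intro hS T x hx
    obtain ⟨PM, hPM⟩ := exists_sylow_subgroupOf T (verbal w G)
    have h1 := hS PM
    rw [hPM, Subgroup.subgroupOf_map_subtype] at h1
    have h2 : x ∈ (T : Subgroup G) ⊓ verbal w G := by rw [hv]; exact hx
    rw [← h1] at h2
    have h3 : {x : G | x ∈ values w G ∧ x ∈ (T : Subgroup G) ⊓ verbal w G} ⊆
        (T : Set G) ∩ vals G t := by
      rintro y ⟨hy1, hy2⟩
      exact ⟨hy2.1, h ▸ hy1⟩
    exact Subgroup.closure_mono h3 h2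
  · intro hC P
    obtain ⟨Q, hQ⟩ := P.exists_comap_subtype_eq
    have h1 : (P : Subgroup (verbal w G)).map (verbal w G).subtype =
        (Q : Subgroup G) ⊓ verbal w G := by
      rw [← hQ]
      exact Subgroup.subgroupOf_map_subtype _ _
    rw [h1]
    apply le_antisymm
    · rw [Subgroup.closure_le]
      rintro x ⟨-, hx⟩
      exact hx
    · intro x hx
      have h2 : x ∈ P0 Q t := hC Q ⟨hx.1, by rw [← hv]; exact hx.2⟩
      have h3 : (Q : Set G) ∩ vals G t ⊆
          {x : G | x ∈ values w G ∧ x ∈ (Q : Subgroup G) ⊓ verbal w G} := by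
        rintro y ⟨hy1, hy2⟩
        have hy3 : y ∈ values w G := by rw [h]; exact hy2
        exact ⟨hy3, hy1, Subgroup.subset_closure hy3⟩
      exact Subgroup.closure_mono h3 h2

theorem isSectionOf_iff (H G : Type) [Group H] [Group G] : IsSectionOf H G ↔ IsSection H G :=
  Iff.rfl

theorem bad_iff (p : ℕ) (H : Type) [Group H] : Critical p H ↔ Bad p H := Iff.rfl

theorem not_critical_of_pSoluble {p : ℕ} {G : Type} [Group G] (hG : PSoluble p G) (H : Type)
    [Group H] (hH : IsSectionOf H G) : ¬ Critical p H := by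
  rintro ⟨hperf, K, hK, hKp, -, hs, hp⟩
  obtain ⟨S, f, hf⟩ := hH
  have h1 : IsSectionOf (H ⧸ K) G :=
    ⟨S, (QuotientGroup.mk' K).comp f, (QuotientGroup.mk'_surjective K).comp hf⟩
  have h2 := hG (H ⧸ K) h1 hs hp
  have h3 : commutator H ≤ K := by
    rw [_root_.commutator_def, Subgroup.commutator_le]
    intro a _ b _
    rw [← QuotientGroup.eq_one_iff]
    have h4 := h2 (a : H ⧸ K) (b : H ⧸ K)
    have : ((⁅a, b⁆ : H) : H ⧸ K) = ⁅(a : H ⧸ K), (b : H ⧸ K)⁆ := rfl
    rw [this, commutatorElement_eq_one_iff_mul_comm]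
    exact h4
  rw [hperf, top_le_iff] at h3
  subst h3
  have := hs.toNontrivial
  exact not_subsingleton (H ⧸ (⊤ : Subgroup H)) QuotientGroup.subsingleton_quotient_top

theorem pSoluble_of_isSolvable (p : ℕ) (G : Type) [Group G] [Group.IsSolvable G] : PSoluble p G := by
  intro H _ hH hs _
  obtain ⟨S, f, hf⟩ := hH
  have : Group.IsSolvable H := Group.isSolvable_of_surjective hf
  exact IsSimpleGroup.comm_iff_isSolvable.mpr this

theorem reduction {w : FreeGroup ℕ} {A : Finset ℕ} (hw : IsMultilinear w A) {p : ℕ}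
    (hp : p.Prime) (G : Type) [Group G] [Finite G] (hG : ¬ SylowGenerated w p G) :
    ∃ (H : Type) (_ : Group H), IsSectionOf H G ∧ Critical p H ∧
      ∃ (w' : FreeGroup ℕ) (A' : Finset ℕ), IsMultilinear w' A' ∧ ¬ SylowGenerated w' p H := by
  have : Fact p.Prime := ⟨hp⟩
  obtain ⟨t, ht⟩ := exists_tree hw
  rw [generated_iff (ht G)] at hG
  by_contra hcon
  apply hG
  refine main_aux p t _ G rfl ?_
  intro H _ _ hH hb t'
  obtain ⟨w', A', m, hw', -, hv⟩ := exists_word t' 0
  rw [← generated_iff (hv H)]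
  by_contra hne
  exact hcon ⟨H, inferInstance, hH, hb, w', A', hw', hne⟩

theorem soluble_case {w : FreeGroup ℕ} {A : Finset ℕ} (hw : IsMultilinear w A) {p : ℕ}
    (hp : p.Prime) (G : Type) [Group G] [Finite G] (hG : PSoluble p G) : SylowGenerated w p G := by
  by_contra hne
  obtain ⟨H, _, hH, hc, -⟩ := reduction hw hp G hne
  exact not_critical_of_pSoluble hG H hH hc

end Pool.Agent.Helper337.Focal
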