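import Mathlib

/-!
Polygons in the plane, their patterns and parallel-edge deformations (problem MP_ab53bf_co).
A labelled `n`-gon is a map `x : ZMod n → Plane` (the vertices in cyclic order).
-/

set_option autoImplicit false

namespace Pool.Agent.Helper337.PolygonPattern

open Set

/-- The plane (only its affine structure and its topology are used). -/
abbrev Plane : Type := ℝ × ℝ

/-- The edge `[x_i, x_{i+1}]`. -/
def edge {n : ℕ} (x : ZMod n → Plane) (i : ZMod n) : Set Plane := segment ℝ (x i) (x (i + 1))

/-- `x` is a labelling of an `n`-gon. -/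
def IsPolygon {n : ℕ} (x : ZMod n → Plane) : Prop := ∀ i, x i ≠ x (i + 1)

/-- No point lies on three different edges. -/
def Ordinary {n : ℕ} (x : ZMod n → Plane) : Prop :=
  ∀ (p : Plane) (i j k : ZMod n), i ≠ j → j ≠ k → i ≠ k →
    ¬ (p ∈ edge x i ∧ p ∈ edge x j ∧ p ∈ edge x k)

/-- At no vertex are the two edges collinear. -/
def Proper {n : ℕ} (x : ZMod n → Plane) : Prop :=
  ∀ i, ¬ Collinear ℝ {x (i - 1), x i, x (i + 1)}

/-- The extra short edge at the vertex `x_i`, of size `ε`: the vector
`(x_{i-1} - x_i) + (x_{i+1} - x_i)` points into the angle smaller than `π`, its negative into the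
angle exceeding `π`. -/
def spur {n : ℕ} (x : ZMod n → Plane) (ε : ℝ) (i : ZMod n) : Set Plane :=
  segment ℝ (x i) (x i - ε • ((x (i - 1) - x i) + (x (i + 1) - x i)))

/-- Two ordinary proper polygons have the same pattern: for all small `ε` some homeomorphism of the
plane carries the first polygon with its extra short edges onto the second one with its extra short
edges, polygon onto polygon and vertices onto vertices. (So the planar maps `M'` are isomorphic,
unbounded face to unbounded face.) -/
def SamePattern {n : ℕ} (x y : ZMod n → Plane) : Prop :=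
  Ordinary x ∧ Proper x ∧ Ordinary y ∧ Proper y ∧
  ∃ ε₀ : ℝ, 0 < ε₀ ∧ ∀ ε : ℝ, 0 < ε → ε < ε₀ → ∃ Φ : Plane ≃ₜ Plane,
    Φ '' (⋃ i, edge x i) = ⋃ i, edge y i ∧ Φ '' (Set.range x) = Set.range y ∧
    Φ '' (⋃ i, (edge x i ∪ spur x ε i)) = ⋃ i, (edge y i ∪ spur y ε i)

/-- The changes of labelling of an (unoriented) `n`-gon. -/
def IsRelabelling {n : ℕ} (ρ : ZMod n → ZMod n) : Prop :=
  ∃ c, (∀ i, ρ i = c + i) ∨ (∀ i, ρ i = c - i)

/-- Edges with the same label are parallel and have the same direction. -/
def ParallelEdges {n : ℕ} (x y : ZMod n → Plane) : Prop :=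
  ∀ i, ∃ r : ℝ, 0 < r ∧ y (i + 1) - y i = r • (x (i + 1) - x i)

/-- `P` is an admissible deformation of `x` into `y`. -/
def IsDeformation {n : ℕ} (x y : ZMod n → Plane) (P : ℝ → ZMod n → Plane) : Prop :=
  (∀ i, ContinuousOn (fun t => P t i) (Icc 0 1)) ∧ P 0 = x ∧ P 1 = y ∧
  ∀ t ∈ Icc (0 : ℝ) 1, SamePattern x (P t) ∧ ParallelEdges x (P t)

/-- The labelled crossing data of `x` and `y` agree: edges with the same labels meet; the points in
which an edge is met by the other edges come in the same order; and some vertex is, with the same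
label, a corner of the convex hull of both. (For polygons with parallel edges this means that the
isomorphism of the patterns can also be chosen orientation preserving and label preserving.) -/
structure SameLabelledPattern {n : ℕ} (x y : ZMod n → Plane) : Prop where
  meet : ∀ i j, (edge x i ∩ edge x j).Nonempty ↔ (edge y i ∩ edge y j).Nonempty
  order : ∀ i j k, j ≠ i → k ≠ i → ∀ a b a' b' : ℝ,
    x i + a • (x (i + 1) - x i) ∈ edge x i ∩ edge x j →
    x i + b • (x (i + 1) - x i) ∈ edge x i ∩ edge x k →
    y i + a' • (y (i + 1) - y i) ∈ edge y i ∩ edge y j →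
    y i + b' • (y (i + 1) - y i) ∈ edge y i ∩ edge y k → (a < b ↔ a' < b')
  hull : ∃ k, (∃ a b : ℝ, ∀ i, i ≠ k → a * (x i).1 + b * (x i).2 < a * (x k).1 + b * (x k).2) ∧
    (∃ a b : ℝ, ∀ i, i ≠ k → a * (y i).1 + b * (y i).2 < a * (y k).1 + b * (y k).2)

end Pool.Agent.Helper337.PolygonPattern
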