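import Mathlib
import Pool.Agent.Helper337.PolygonDefs

set_option autoImplicit false

namespace Pool.Agent.Helper337.PolygonPattern

open Set

/-! ### the two polygons -/

/-- the vertices of the first polygon -/
def XZ : ZMod 14 → ℤ × ℤ :=
  ![(-58, 22), (22, 22), (-17, -17), (-28, -6), (8, -6), (-1, -15), (-20, 4), (-40, -16),
    (16, -16), (-23, 23), (-40, 6), (8, 6), (-7, 21), (-32, -4)]

/-- the vertices of the second polygon: the mirror image of the first one, labels shifted -/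
def YZ (i : ZMod 14) : ℤ × ℤ := ((XZ (i + 7)).1, -(XZ (i + 7)).2)

/-- integer points as points of the plane -/
def toR (p : ℤ × ℤ) : Plane := ((p.1 : ℝ), (p.2 : ℝ))

def xx (i : ZMod 14) : Plane := toR (XZ i)
def yy (i : ZMod 14) : Plane := toR (YZ i)

/-- orientation of three integer points -/
def orr (a b c : ℤ × ℤ) : ℤ := (b.1 - a.1) * (c.2 - a.2) - (b.2 - a.2) * (c.1 - a.1)

/-- separation test -/
def sep (a b c d : ℤ × ℤ) : Bool :=
  (decide (0 < orr a b c) && decide (0 < orr a b d)) ||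
  (decide (orr a b c < 0) && decide (orr a b d < 0)) ||
  (decide (0 < orr c d a) && decide (0 < orr c d b)) ||
  (decide (orr c d a < 0) && decide (orr c d b < 0))

/-- strict crossing test -/
def cross (a b c d : ℤ × ℤ) : Bool :=
  decide (orr a b c * orr a b d < 0) && decide (orr c d a * orr c d b < 0)

theorem mem_segment_coords {a b p : Plane} (h : p ∈ segment ℝ a b) :
    ∃ t : ℝ, 0 ≤ t ∧ t ≤ 1 ∧ p.1 = a.1 + t * (b.1 - a.1) ∧ p.2 = a.2 + t * (b.2 - a.2) := by
  obtain ⟨u, t, hu, ht, hut, rfl⟩ := h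
  refine ⟨t, ht, by linarith, ?_, ?_⟩
  · have : u = 1 - t := by linarith
    simp [this]; ring
  · have : u = 1 - t := by linarith
    simp [this]; ring

theorem mem_segment_of_coords {a b p : Plane} (t : ℝ) (h0 : 0 ≤ t) (h1 : t ≤ 1)
    (hx : p.1 = a.1 + t * (b.1 - a.1)) (hy : p.2 = a.2 + t * (b.2 - a.2)) :
    p ∈ segment ℝ a b := by
  refine ⟨1 - t, t, by linarith, h0, by ring, ?_⟩
  apply Prod.ext
  · simp; rw [hx]; ring
  · simp; rw [hy]; ring

/-- the real orientation -/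
def orR (a b c : Plane) : ℝ := (b.1 - a.1) * (c.2 - a.2) - (b.2 - a.2) * (c.1 - a.1)

theorem orR_toR (a b c : ℤ × ℤ) : orR (toR a) (toR b) (toR c) = (orr a b c : ℝ) := by
  simp [orR, toR, orr]

theorem orR_self (a b p : Plane) (h : p ∈ segment ℝ a b) : orR a b p = 0 := by
  obtain ⟨t, -, -, hx, hy⟩ := mem_segment_coords h
  unfold orR; rw [hx, hy]; ring

theorem orR_convex (a b c d p : Plane) (h : p ∈ segment ℝ c d) :
    ∃ t : ℝ, 0 ≤ t ∧ t ≤ 1 ∧ orR a b p = (1 - t) * orR a b c + t * orR a b d := by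
  obtain ⟨t, h0, h1, hx, hy⟩ := mem_segment_coords h
  refine ⟨t, h0, h1, ?_⟩
  unfold orR; rw [hx, hy]; ring

theorem disj_aux (a b c d p : Plane) (h1 : p ∈ segment ℝ a b) (h2 : p ∈ segment ℝ c d)
    (h : (0 < orR a b c ∧ 0 < orR a b d) ∨ (orR a b c < 0 ∧ orR a b d < 0)) : False := by
  have e := orR_self a b p h1
  obtain ⟨t, h0, h1', he⟩ := orR_convex a b c d p h2
  rw [e] at he
  rcases h with ⟨hc, hd⟩ | ⟨hc, hd⟩
  · rcases eq_or_lt_of_le h0 with h3 | h3
    · rw [← h3] at he; linarith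
    · have := mul_pos h3 hd
      have := mul_nonneg (sub_nonneg.mpr h1') hc.le
      linarith
  · rcases eq_or_lt_of_le h0 with h3 | h3
    · rw [← h3] at he; linarith
    · have := mul_neg_of_pos_of_neg h3 hd
      have := mul_nonpos_of_nonneg_of_nonpos (sub_nonneg.mpr h1') hc.le
      linarith

theorem sep_disj {a b c d : ℤ × ℤ} (h : sep a b c d = true) (p : Plane)
    (h1 : p ∈ segment ℝ (toR a) (toR b)) (h2 : p ∈ segment ℝ (toR c) (toR d)) : False := by
  simp only [sep, Bool.or_eq_true, Bool.and_eq_true, decide_eq_true_eq] at h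
  rcases h with ((h | h) | h) | h
  · exact disj_aux _ _ _ _ p h1 h2 (Or.inl (by rw [orR_toR, orR_toR]; exact_mod_cast h))
  · exact disj_aux _ _ _ _ p h1 h2 (Or.inr (by rw [orR_toR, orR_toR]; exact_mod_cast h))
  · exact disj_aux _ _ _ _ p h2 h1 (Or.inl (by rw [orR_toR, orR_toR]; exact_mod_cast h))
  · exact disj_aux _ _ _ _ p h2 h1 (Or.inr (by rw [orR_toR, orR_toR]; exact_mod_cast h))

theorem cross_aux (a b c d : Plane) (h1 : orR a b c * orR a b d < 0)
    (h2 : orR c d a * orR c d b < 0) : (segment ℝ a b ∩ segment ℝ c d).Nonempty := by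
  -- the point on `[c,d]` with parameter `u / (u - v)` where `u = orR a b c`, `v = orR a b d`
  have huv : orR a b c - orR a b d ≠ 0 := by
    intro h
    have h3 : orR a b c = orR a b d := by linarith
    rw [h3] at h1
    nlinarith [mul_self_nonneg (orR a b d)]
  have hpq : orR c d a - orR c d b ≠ 0 := by
    intro h
    have h3 : orR c d a = orR c d b := by linarith
    rw [h3] at h2
    nlinarith [mul_self_nonneg (orR c d b)]
  have key : ∀ u v : ℝ, u * v < 0 → 0 ≤ u / (u - v) ∧ u / (u - v) ≤ 1 := by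
    intro u v h
    rcases lt_trichotomy u 0 with hu | hu | hu
    · have hv : 0 < v := by nlinarith
      have : u - v < 0 := by linarith
      constructor
      · exact div_nonneg_of_nonpos hu.le this.le
      · rw [div_le_one_of_neg this]; linarith
    · rw [hu] at h; simp at h
    · have hv : v < 0 := by nlinarith
      have : 0 < u - v := by linarith
      constructor
      · positivity
      · rw [div_le_one this]; linarith
  set s := orR a b c / (orR a b c - orR a b d) with hs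
  set t := orR c d a / (orR c d a - orR c d b) with ht
  obtain ⟨hs0, hs1⟩ := key _ _ h1
  obtain ⟨ht0, ht1⟩ := key _ _ h2
  have e1 : s * (orR a b c - orR a b d) = orR a b c := by rw [hs]; field_simp
  have e2 : t * (orR c d a - orR c d b) = orR c d a := by rw [ht]; field_simp
  refine ⟨(a.1 + t * (b.1 - a.1), a.2 + t * (b.2 - a.2)),
    mem_segment_of_coords t ht0 ht1 rfl rfl, ?_⟩
  -- both parameters give the same point
  have hD : orR c d a - orR c d b = -(orR a b c - orR a b d) := by unfold orR; ring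
  have hx : (a.1 + t * (b.1 - a.1)) * (orR a b c - orR a b d) =
      (c.1 + s * (d.1 - c.1)) * (orR a b c - orR a b d) := by
    have e2' : t * (orR a b c - orR a b d) = -orR c d a := by
      rw [hD] at e2; linarith
    calc (a.1 + t * (b.1 - a.1)) * (orR a b c - orR a b d)
        = a.1 * (orR a b c - orR a b d) + (t * (orR a b c - orR a b d)) * (b.1 - a.1) := by ring
      _ = a.1 * (orR a b c - orR a b d) + (-orR c d a) * (b.1 - a.1) := by rw [e2']
      _ = c.1 * (orR a b c - orR a b d) + orR a b c * (d.1 - c.1) := by unfold orR; ring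
      _ = c.1 * (orR a b c - orR a b d) + (s * (orR a b c - orR a b d)) * (d.1 - c.1) := by
          rw [e1]
      _ = _ := by ring
  have hy : (a.2 + t * (b.2 - a.2)) * (orR a b c - orR a b d) =
      (c.2 + s * (d.2 - c.2)) * (orR a b c - orR a b d) := by
    have e2' : t * (orR a b c - orR a b d) = -orR c d a := by
      rw [hD] at e2; linarith
    calc (a.2 + t * (b.2 - a.2)) * (orR a b c - orR a b d)
        = a.2 * (orR a b c - orR a b d) + (t * (orR a b c - orR a b d)) * (b.2 - a.2) := by ring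
      _ = a.2 * (orR a b c - orR a b d) + (-orR c d a) * (b.2 - a.2) := by rw [e2']
      _ = c.2 * (orR a b c - orR a b d) + orR a b c * (d.2 - c.2) := by unfold orR; ring
      _ = c.2 * (orR a b c - orR a b d) + (s * (orR a b c - orR a b d)) * (d.2 - c.2) := by
          rw [e1]
      _ = _ := by ring
  exact mem_segment_of_coords s hs0 hs1 (mul_right_cancel₀ huv hx) (mul_right_cancel₀ huv hy)

theorem cross_meet {a b c d : ℤ × ℤ} (h : cross a b c d = true) :
    (segment ℝ (toR a) (toR b) ∩ segment ℝ (toR c) (toR d)).Nonempty := by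
  simp only [cross, Bool.and_eq_true, decide_eq_true_eq] at h
  apply cross_aux
  · rw [orR_toR, orR_toR]; exact_mod_cast h.1
  · rw [orR_toR, orR_toR]; exact_mod_cast h.2

/-- determinant of three lines -/
def det3 (p q r s u v : ℤ × ℤ) : ℤ :=
  let a1 := q.2 - p.2; let b1 := p.1 - q.1; let c1 := q.1 * p.2 - q.2 * p.1
  let a2 := s.2 - r.2; let b2 := r.1 - s.1; let c2 := s.1 * r.2 - s.2 * r.1
  let a3 := v.2 - u.2; let b3 := u.1 - v.1; let c3 := v.1 * u.2 - v.2 * u.1
  a1 * (b2 * c3 - b3 * c2) - b1 * (a2 * c3 - a3 * c2) + c1 * (a2 * b3 - a3 * b2)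

theorem line_eq {p q : ℤ × ℤ} {z : Plane} (h : z ∈ segment ℝ (toR p) (toR q)) :
    ((q.2 : ℝ) - p.2) * z.1 + ((p.1 : ℝ) - q.1) * z.2 + ((q.1 : ℝ) * p.2 - q.2 * p.1) = 0 := by
  obtain ⟨t, -, -, hx, hy⟩ := mem_segment_coords h
  simp only [toR] at hx hy
  rw [hx, hy]; ring

theorem det3_ne {p q r s u v : ℤ × ℤ} (h : det3 p q r s u v ≠ 0) (z : Plane)
    (h1 : z ∈ segment ℝ (toR p) (toR q)) (h2 : z ∈ segment ℝ (toR r) (toR s))
    (h3 : z ∈ segment ℝ (toR u) (toR v)) : False := by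
  have e1 := line_eq h1
  have e2 := line_eq h2
  have e3 := line_eq h3
  apply h
  have : ((det3 p q r s u v : ℤ) : ℝ) = 0 := by
    simp only [det3]
    push_cast
    linear_combination
      (((s.2 : ℝ) - r.2) * ((u.1 : ℝ) - v.1) - ((v.2 : ℝ) - u.2) * ((r.1 : ℝ) - s.1)) * e1
      - (((q.2 : ℝ) - p.2) * ((u.1 : ℝ) - v.1) - ((v.2 : ℝ) - u.2) * ((p.1 : ℝ) - q.1)) * e2
      + (((q.2 : ℝ) - p.2) * ((r.1 : ℝ) - s.1) - ((s.2 : ℝ) - r.2) * ((p.1 : ℝ) - q.1)) * e3
  exact_mod_cast this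

/-- test for ordinary polygons -/
def ordTest (Z : ZMod 14 → ℤ × ℤ) (i j k : ZMod 14) : Bool :=
  decide (i = j) || decide (j = k) || decide (i = k) ||
  sep (Z i) (Z (i + 1)) (Z j) (Z (j + 1)) || sep (Z j) (Z (j + 1)) (Z k) (Z (k + 1)) ||
  sep (Z i) (Z (i + 1)) (Z k) (Z (k + 1)) ||
  decide (det3 (Z i) (Z (i + 1)) (Z j) (Z (j + 1)) (Z k) (Z (k + 1)) ≠ 0)

theorem ordinary_of_test (Z : ZMod 14 → ℤ × ℤ) (h : ∀ i j k, ordTest Z i j k = true) :
    Ordinary (fun i => toR (Z i)) := by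
  intro p i j k hij hjk hik ⟨h1, h2, h3⟩
  have ht := h i j k
  simp only [ordTest, Bool.or_eq_true, decide_eq_true_eq] at ht
  rcases ht with (((((ht | ht) | ht) | ht) | ht) | ht) | ht
  · exact hij ht
  · exact hjk ht
  · exact hik ht
  · exact sep_disj ht p h1 h2
  · exact sep_disj ht p h2 h3
  · exact sep_disj ht p h1 h3
  · exact det3_ne ht p h1 h2 h3

theorem ordTestX : ∀ i j k, ordTest XZ i j k = true := by decide +kernel
theorem ordTestY : ∀ i j k, ordTest YZ i j k = true := by decide +kernel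

/-! ### properness -/

theorem collinear_orR {a b c : Plane} (h : Collinear ℝ {a, b, c}) : orR a b c = 0 := by
  rw [collinear_iff_of_mem (p₀ := a) (by simp)] at h
  obtain ⟨v, hv⟩ := h
  obtain ⟨r, hr⟩ := hv b (by simp)
  obtain ⟨s, hs⟩ := hv c (by simp)
  unfold orR
  rw [hr, hs]
  simp
  ring

theorem proper_of_test (Z : ZMod 14 → ℤ × ℤ)
    (h : ∀ i, orr (Z (i - 1)) (Z i) (Z (i + 1)) ≠ 0) : Proper (fun i => toR (Z i)) := by
  intro i hc
  have := collinear_orR hc
  rw [orR_toR] at this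
  exact h i (by exact_mod_cast this)

theorem properX : Proper xx := proper_of_test XZ (by decide +kernel)
theorem properY : Proper yy := proper_of_test YZ (by decide +kernel)
theorem ordinaryX : Ordinary xx := ordinary_of_test XZ ordTestX
theorem ordinaryY : Ordinary yy := ordinary_of_test YZ ordTestY

theorem XZ_ne : ∀ i, XZ i ≠ XZ (i + 1) := by decide +kernel
theorem YZ_ne : ∀ i, YZ i ≠ YZ (i + 1) := by decide +kernel

theorem polyX : IsPolygon xx := by
  intro i h
  apply XZ_ne i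
  simp only [xx, toR, Prod.mk.injEq] at h
  exact Prod.ext (by exact_mod_cast h.1) (by exact_mod_cast h.2)

theorem polyY : IsPolygon yy := by
  intro i h
  apply YZ_ne i
  simp only [yy, toR, Prod.mk.injEq] at h
  exact Prod.ext (by exact_mod_cast h.1) (by exact_mod_cast h.2)

/-! ### the same pattern -/

/-- the reflection in the first axis -/
def tau : Plane ≃ₜ Plane := (Homeomorph.refl ℝ).prodCongr (Homeomorph.neg ℝ)

/-- the reflection as an affine map -/
def tauA : Plane →ᵃ[ℝ] Plane := (LinearMap.prodMap LinearMap.id (-LinearMap.id)).toAffineMap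

theorem tau_apply (p : Plane) : tau p = (p.1, -p.2) := rfl
theorem tauA_apply (p : Plane) : tauA p = (p.1, -p.2) := by
  simp [tauA]

theorem tau_segment (a b : Plane) : tau '' segment ℝ a b = segment ℝ (tau a) (tau b) := by
  have h : (tau : Plane → Plane) = tauA := by
    funext p; rw [tau_apply, tauA_apply]
  rw [h]
  exact image_segment ℝ tauA a b

theorem tau_xx (i : ZMod 14) : tau (xx i) = yy (i + 7) := by
  have : XZ (i + 7 + 7) = XZ i := by
    have : i + 7 + 7 = i := by revert i; decide +kernel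
    rw [this]
  rw [tau_apply]
  simp only [xx, yy, YZ, toR, this]
  push_cast
  rfl

theorem tau_edge (i : ZMod 14) : tau '' edge xx i = edge yy (i + 7) := by
  unfold edge
  rw [tau_segment, tau_xx, tau_xx]
  congr 2
  ring

theorem tau_spur (ε : ℝ) (i : ZMod 14) : tau '' spur xx ε i = spur yy ε (i + 7) := by
  unfold spur
  rw [tau_segment]
  have h1 : i + 7 - 1 = (i - 1) + 7 := by ring
  have h2 : i + 7 + 1 = (i + 1) + 7 := by ring
  rw [h1, h2, ← tau_xx, ← tau_xx, ← tau_xx]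
  congr 1
  simp only [tau_apply]
  apply Prod.ext
  · simp; try ring
  · simp; try ring

theorem iUnion_shift {α : Type} (f : ZMod 14 → Set α) : ⋃ i, f (i + 7) = ⋃ i, f i :=
  (Equiv.addRight (7 : ZMod 14)).surjective.iUnion_comp f

theorem samePattern_xy : SamePattern xx yy := by
  refine ⟨ordinaryX, properX, ordinaryY, properY, 1, one_pos, fun ε _ _ => ⟨tau, ?_, ?_, ?_⟩⟩
  · rw [image_iUnion]
    simp only [tau_edge]
    exact iUnion_shift (fun i => edge yy i)
  · ext p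
    constructor
    · rintro ⟨_, ⟨i, rfl⟩, rfl⟩
      exact ⟨i + 7, (tau_xx i).symm⟩
    · rintro ⟨i, rfl⟩
      refine ⟨xx (i + 7), ⟨i + 7, rfl⟩, ?_⟩
      rw [tau_xx]
      congr 1
      revert i; decide +kernel
  · rw [image_iUnion]
    simp only [image_union, tau_edge, tau_spur]
    exact iUnion_shift (fun i => edge yy i ∪ spur yy ε i)

/-! ### parallel edges -/

/-- maximum norm of the edge vectors -/
def len (Z : ZMod 14 → ℤ × ℤ) (i : ZMod 14) : ℤ :=
  max |(Z (i + 1)).1 - (Z i).1| |(Z (i + 1)).2 - (Z i).2|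

theorem len_spec : ∀ i, 0 < len XZ i ∧ 0 < len YZ i ∧
      len XZ i * ((YZ (i + 1)).1 - (YZ i).1) = len YZ i * ((XZ (i + 1)).1 - (XZ i).1) ∧
      len XZ i * ((YZ (i + 1)).2 - (YZ i).2) = len YZ i * ((XZ (i + 1)).2 - (XZ i).2) := by
  decide +kernel

theorem parallel_xy : ParallelEdges xx yy := by
  intro i
  obtain ⟨p, q, h1, h2, h3, h4⟩ : ∃ p q : ℤ, 0 < p ∧ 0 < q ∧
      p * ((YZ (i + 1)).1 - (YZ i).1) = q * ((XZ (i + 1)).1 - (XZ i).1) ∧
      p * ((YZ (i + 1)).2 - (YZ i).2) = q * ((XZ (i + 1)).2 - (XZ i).2) :=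
    ⟨_, _, len_spec i⟩
  have h1' : (0 : ℝ) < p := by exact_mod_cast h1
  have h2' : (0 : ℝ) < q := by exact_mod_cast h2
  refine ⟨(q : ℝ) / p, by positivity, ?_⟩
  have h3' : (p : ℝ) * ((YZ (i + 1)).1 - (YZ i).1) =
    q * ((XZ (i + 1)).1 - (XZ i).1) := by exact_mod_cast h3
  have h4' : (p : ℝ) * ((YZ (i + 1)).2 - (YZ i).2) =
    q * ((XZ (i + 1)).2 - (XZ i).2) := by exact_mod_cast h4
  apply Prod.ext
  · simp only [xx, yy, toR, Prod.fst_sub, Prod.smul_fst, smul_eq_mul]
    field_simp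
    linarith
  · simp only [xx, yy, toR, Prod.snd_sub, Prod.smul_snd, smul_eq_mul]
    field_simp
    linarith

/-! ### the labelled crossing data -/

/-- the sense in which both polygons agree -/
def meetTest (i j : ZMod 14) : Bool :=
  decide (i = j) || decide (j = i + 1) || decide (i = j + 1) ||
  (cross (XZ i) (XZ (i + 1)) (XZ j) (XZ (j + 1)) && cross (YZ i) (YZ (i + 1)) (YZ j) (YZ (j + 1))) ||
  (sep (XZ i) (XZ (i + 1)) (XZ j) (XZ (j + 1)) && sep (YZ i) (YZ (i + 1)) (YZ j) (YZ (j + 1)))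

theorem meetTest_all : ∀ i j, meetTest i j = true := by decide +kernel

/-- order of two crossing points on an edge -/
def ordNum (Z : ZMod 14 → ℤ × ℤ) (i j k : ZMod 14) : ℤ :=
  (orr (Z k) (Z (k + 1)) (Z i) * (orr (Z j) (Z (j + 1)) (Z i) - orr (Z j) (Z (j + 1)) (Z (i + 1))) -
    orr (Z j) (Z (j + 1)) (Z i) * (orr (Z k) (Z (k + 1)) (Z i) - orr (Z k) (Z (k + 1)) (Z (i + 1)))) *
  ((orr (Z j) (Z (j + 1)) (Z i) - orr (Z j) (Z (j + 1)) (Z (i + 1))) *
    (orr (Z k) (Z (k + 1)) (Z i) - orr (Z k) (Z (k + 1)) (Z (i + 1))))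

/-- test for the order -/
def orderTest (i j k : ZMod 14) : Bool :=
  decide (j = i) || decide (k = i) || sep (XZ i) (XZ (i + 1)) (XZ j) (XZ (j + 1)) ||
  sep (XZ i) (XZ (i + 1)) (XZ k) (XZ (k + 1)) ||
  (decide (orr (XZ j) (XZ (j + 1)) (XZ i) - orr (XZ j) (XZ (j + 1)) (XZ (i + 1)) ≠ 0) &&
   decide (orr (XZ k) (XZ (k + 1)) (XZ i) - orr (XZ k) (XZ (k + 1)) (XZ (i + 1)) ≠ 0) &&
   decide (orr (YZ j) (YZ (j + 1)) (YZ i) - orr (YZ j) (YZ (j + 1)) (YZ (i + 1)) ≠ 0) &&
   decide (orr (YZ k) (YZ (k + 1)) (YZ i) - orr (YZ k) (YZ (k + 1)) (YZ (i + 1)) ≠ 0) &&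
   (decide (0 < ordNum XZ i j k) == decide (0 < ordNum YZ i j k)))

theorem orderTest_all : ∀ i j k, orderTest i j k = true := by decide +kernel

theorem param_eq (Z : ZMod 14 → ℤ × ℤ) (i j : ZMod 14) (a : ℝ)
    (h : toR (Z i) + a • (toR (Z (i + 1)) - toR (Z i)) ∈ segment ℝ (toR (Z j)) (toR (Z (j + 1)))) :
    a * ((orr (Z j) (Z (j + 1)) (Z i) : ℝ) - orr (Z j) (Z (j + 1)) (Z (i + 1))) =
      orr (Z j) (Z (j + 1)) (Z i) := by
  have h1 := orR_self _ _ _ h
  have h2 : orR (toR (Z j)) (toR (Z (j + 1))) (toR (Z i) + a • (toR (Z (i + 1)) - toR (Z i))) =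
      (1 - a) * orR (toR (Z j)) (toR (Z (j + 1))) (toR (Z i)) +
        a * orR (toR (Z j)) (toR (Z (j + 1))) (toR (Z (i + 1))) := by
    simp only [orR, Prod.fst_add, Prod.snd_add, Prod.smul_fst, Prod.smul_snd, Prod.fst_sub,
      Prod.snd_sub, smul_eq_mul]
    ring
  rw [h1, orR_toR, orR_toR] at h2
  linarith

theorem lt_iff_ordNum (Z : ZMod 14 → ℤ × ℤ) (i j k : ZMod 14) (a b : ℝ)
    (hj : orr (Z j) (Z (j + 1)) (Z i) - orr (Z j) (Z (j + 1)) (Z (i + 1)) ≠ 0)
    (hk : orr (Z k) (Z (k + 1)) (Z i) - orr (Z k) (Z (k + 1)) (Z (i + 1)) ≠ 0)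
    (ha : a * ((orr (Z j) (Z (j + 1)) (Z i) : ℝ) - orr (Z j) (Z (j + 1)) (Z (i + 1))) =
      orr (Z j) (Z (j + 1)) (Z i))
    (hb : b * ((orr (Z k) (Z (k + 1)) (Z i) : ℝ) - orr (Z k) (Z (k + 1)) (Z (i + 1))) =
      orr (Z k) (Z (k + 1)) (Z i)) : a < b ↔ 0 < ordNum Z i j k := by
  have hj' : ((orr (Z j) (Z (j + 1)) (Z i) : ℝ) - orr (Z j) (Z (j + 1)) (Z (i + 1))) ≠ 0 := by
    exact_mod_cast hj
  have hk' : ((orr (Z k) (Z (k + 1)) (Z i) : ℝ) - orr (Z k) (Z (k + 1)) (Z (i + 1))) ≠ 0 := by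
    exact_mod_cast hk
  have e : ((ordNum Z i j k : ℤ) : ℝ) = (b - a) *
      (((orr (Z j) (Z (j + 1)) (Z i) : ℝ) - orr (Z j) (Z (j + 1)) (Z (i + 1))) *
       ((orr (Z k) (Z (k + 1)) (Z i) : ℝ) - orr (Z k) (Z (k + 1)) (Z (i + 1)))) ^ 2 := by
    unfold ordNum
    push_cast
    linear_combination (-((orr (Z j) (Z (j + 1)) (Z i) : ℝ) - orr (Z j) (Z (j + 1)) (Z (i + 1))) ^ 2 *
       ((orr (Z k) (Z (k + 1)) (Z i) : ℝ) - orr (Z k) (Z (k + 1)) (Z (i + 1)))) * hb +
       (((orr (Z j) (Z (j + 1)) (Z i) : ℝ) - orr (Z j) (Z (j + 1)) (Z (i + 1))) *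
       ((orr (Z k) (Z (k + 1)) (Z i) : ℝ) - orr (Z k) (Z (k + 1)) (Z (i + 1))) ^ 2) * ha
  have hpos : 0 < (((orr (Z j) (Z (j + 1)) (Z i) : ℝ) - orr (Z j) (Z (j + 1)) (Z (i + 1))) *
       ((orr (Z k) (Z (k + 1)) (Z i) : ℝ) - orr (Z k) (Z (k + 1)) (Z (i + 1)))) ^ 2 := by
    positivity
  rw [← Int.cast_pos (R := ℝ), e]
  constructor
  · intro h; exact mul_pos (by linarith) hpos
  · intro h
    have := (pos_iff_pos_of_mul_pos h).mpr hpos
    linarith


theorem edge_xx (i : ZMod 14) : edge xx i = segment ℝ (toR (XZ i)) (toR (XZ (i + 1))) := rfl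
theorem edge_yy (i : ZMod 14) : edge yy i = segment ℝ (toR (YZ i)) (toR (YZ (i + 1))) := rfl

theorem meet_self (x : ZMod 14 → Plane) (i : ZMod 14) : (edge x i ∩ edge x i).Nonempty := by
  rw [inter_self]
  exact ⟨x i, left_mem_segment ℝ _ _⟩

theorem meet_succ (x : ZMod 14 → Plane) (i : ZMod 14) : (edge x i ∩ edge x (i + 1)).Nonempty :=
  ⟨x (i + 1), right_mem_segment ℝ _ _, left_mem_segment ℝ _ _⟩

theorem labelled_xy : SameLabelledPattern xx yy where
  meet := by
    intro i j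
    have ht := meetTest_all i j
    simp only [meetTest, Bool.or_eq_true, Bool.and_eq_true, decide_eq_true_eq] at ht
    rcases ht with (((ht | ht) | ht) | ht) | ht
    · subst ht
      exact ⟨fun _ => meet_self _ _, fun _ => meet_self _ _⟩
    · subst ht
      exact ⟨fun _ => meet_succ _ _, fun _ => meet_succ _ _⟩
    · subst ht
      rw [inter_comm, inter_comm (edge yy (j + 1))]
      exact ⟨fun _ => meet_succ _ _, fun _ => meet_succ _ _⟩
    · exact ⟨fun _ => cross_meet ht.2, fun _ => cross_meet ht.1⟩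
    · constructor
      · rintro ⟨p, h1, h2⟩; exact (sep_disj ht.1 p h1 h2).elim
      · rintro ⟨p, h1, h2⟩; exact (sep_disj ht.2 p h1 h2).elim
  order := by
    intro i j k hj hk a b a' b' h1 h2 h3 h4
    have ht := orderTest_all i j k
    simp only [orderTest, Bool.or_eq_true, Bool.and_eq_true, decide_eq_true_eq, beq_iff_eq] at ht
    rcases ht with (((ht | ht) | ht) | ht) | ht
    · exact absurd ht hj
    · exact absurd ht hk
    · exact (sep_disj ht _ h1.1 h1.2).elim
    · exact (sep_disj ht _ h2.1 h2.2).elim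
    · obtain ⟨⟨⟨⟨t1, t2⟩, t3⟩, t4⟩, t5⟩ := ht
      rw [lt_iff_ordNum XZ i j k a b t1 t2 (param_eq XZ i j a h1.2) (param_eq XZ i k b h2.2),
        lt_iff_ordNum YZ i j k a' b' t3 t4 (param_eq YZ i j a' h3.2) (param_eq YZ i k b' h4.2)]
      exact decide_eq_decide.mp t5
  hull := by
    have hX : ∀ i, i ≠ 1 → (XZ i).1 + (XZ i).2 < (XZ 1).1 + (XZ 1).2 := by decide +kernel
    have hY : ∀ i, i ≠ 1 → (YZ i).1 + (YZ i).2 < (YZ 1).1 + (YZ 1).2 := by decide +kernel
    refine ⟨1, ⟨1, 1, fun i hi => ?_⟩, ⟨1, 1, fun i hi => ?_⟩⟩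
    · rw [one_mul, one_mul, one_mul, one_mul]
      simp only [xx, toR]
      exact_mod_cast hX i hi
    · rw [one_mul, one_mul, one_mul, one_mul]
      simp only [yy, toR]
      exact_mod_cast hY i hi


end Pool.Agent.Helper337.PolygonPattern
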