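import Mathlib
import Pool.Agent.Helper337.PolygonProofA

set_option autoImplicit false

namespace Pool.Agent.Helper337.PolygonPattern

open Set

/-! ### the shape of a polygon with edges parallel to the first one -/

/-- the edge directions: `(1,0)`, `(-1,-1)`, `(-1,1)` -/
structure Shape (p : ZMod 14 → Plane) : Prop where
  e0 : (p 1).2 = (p 0).2 ∧ (p 0).1 < (p 1).1
  e1 : (p 2).1 - (p 2).2 = (p 1).1 - (p 1).2 ∧ (p 2).2 < (p 1).2
  e2 : (p 3).1 + (p 3).2 = (p 2).1 + (p 2).2 ∧ (p 2).2 < (p 3).2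
  e3 : (p 4).2 = (p 3).2 ∧ (p 3).1 < (p 4).1
  e4 : (p 5).1 - (p 5).2 = (p 4).1 - (p 4).2 ∧ (p 5).2 < (p 4).2
  e5 : (p 6).1 + (p 6).2 = (p 5).1 + (p 5).2 ∧ (p 5).2 < (p 6).2
  e6 : (p 7).1 - (p 7).2 = (p 6).1 - (p 6).2 ∧ (p 7).2 < (p 6).2
  e7 : (p 8).2 = (p 7).2 ∧ (p 7).1 < (p 8).1
  e8 : (p 9).1 + (p 9).2 = (p 8).1 + (p 8).2 ∧ (p 8).2 < (p 9).2
  e9 : (p 10).1 - (p 10).2 = (p 9).1 - (p 9).2 ∧ (p 10).2 < (p 9).2
  e10 : (p 11).2 = (p 10).2 ∧ (p 10).1 < (p 11).1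
  e11 : (p 12).1 + (p 12).2 = (p 11).1 + (p 11).2 ∧ (p 11).2 < (p 12).2
  e12 : (p 13).1 - (p 13).2 = (p 12).1 - (p 12).2 ∧ (p 13).2 < (p 12).2
  e13 : (p 0).1 + (p 0).2 = (p 13).1 + (p 13).2 ∧ (p 13).2 < (p 0).2

theorem shape_R {a b c d : Plane} (h1 : (d - c).2 = 0) (h2 : 0 < (d - c).1)
    (h : ∃ r : ℝ, 0 < r ∧ b - a = r • (d - c)) : b.2 = a.2 ∧ a.1 < b.1 := by
  obtain ⟨r, hr, h⟩ := h
  have e1 := congrArg Prod.fst h
  have e2 := congrArg Prod.snd h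
  rw [Prod.smul_fst, smul_eq_mul, Prod.fst_sub] at e1
  rw [Prod.smul_snd, smul_eq_mul, Prod.snd_sub, h1, mul_zero] at e2
  have := mul_pos hr h2
  constructor <;> linarith

theorem shape_D {a b c d : Plane} (h1 : (d - c).1 = (d - c).2) (h2 : (d - c).2 < 0)
    (h : ∃ r : ℝ, 0 < r ∧ b - a = r • (d - c)) :
    b.1 - b.2 = a.1 - a.2 ∧ b.2 < a.2 := by
  obtain ⟨r, hr, h⟩ := h
  have e1 := congrArg Prod.fst h
  have e2 := congrArg Prod.snd h
  rw [Prod.smul_fst, smul_eq_mul, Prod.fst_sub, h1] at e1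
  rw [Prod.smul_snd, smul_eq_mul, Prod.snd_sub] at e2
  have := mul_neg_of_pos_of_neg hr h2
  constructor <;> linarith

theorem shape_U {a b c d : Plane} (h1 : (d - c).1 = -(d - c).2) (h2 : 0 < (d - c).2)
    (h : ∃ r : ℝ, 0 < r ∧ b - a = r • (d - c)) :
    b.1 + b.2 = a.1 + a.2 ∧ a.2 < b.2 := by
  obtain ⟨r, hr, h⟩ := h
  have e1 := congrArg Prod.fst h
  have e2 := congrArg Prod.snd h
  rw [Prod.smul_fst, smul_eq_mul, Prod.fst_sub, h1] at e1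
  rw [Prod.smul_snd, smul_eq_mul, Prod.snd_sub] at e2
  have := mul_pos hr h2
  constructor <;> linarith

theorem xx_0 : xx 0 = toR (-58, 22) := rfl
theorem xx_1 : xx 1 = toR (22, 22) := rfl
theorem xx_2 : xx 2 = toR (-17, -17) := rfl
theorem xx_3 : xx 3 = toR (-28, -6) := rfl
theorem xx_4 : xx 4 = toR (8, -6) := rfl
theorem xx_5 : xx 5 = toR (-1, -15) := rfl
theorem xx_6 : xx 6 = toR (-20, 4) := rfl
theorem xx_7 : xx 7 = toR (-40, -16) := rfl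
theorem xx_8 : xx 8 = toR (16, -16) := rfl
theorem xx_9 : xx 9 = toR (-23, 23) := rfl
theorem xx_10 : xx 10 = toR (-40, 6) := rfl
theorem xx_11 : xx 11 = toR (8, 6) := rfl
theorem xx_12 : xx 12 = toR (-7, 21) := rfl
theorem xx_13 : xx 13 = toR (-32, -4) := rfl

theorem shape_of_parallel {p : ZMod 14 → Plane} (h : ParallelEdges xx p) : Shape p where
  e0 := by
    have h : ∃ r : ℝ, 0 < r ∧ p 1 - p 0 = r • (xx 1 - xx 0) := h 0
    rw [xx_0, xx_1] at h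
    exact shape_R (by norm_num [toR]) (by norm_num [toR]) h
  e1 := by
    have h : ∃ r : ℝ, 0 < r ∧ p 2 - p 1 = r • (xx 2 - xx 1) := h 1
    rw [xx_1, xx_2] at h
    exact shape_D (by norm_num [toR]) (by norm_num [toR]) h
  e2 := by
    have h : ∃ r : ℝ, 0 < r ∧ p 3 - p 2 = r • (xx 3 - xx 2) := h 2
    rw [xx_2, xx_3] at h
    exact shape_U (by norm_num [toR]) (by norm_num [toR]) h
  e3 := by
    have h : ∃ r : ℝ, 0 < r ∧ p 4 - p 3 = r • (xx 4 - xx 3) := h 3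
    rw [xx_3, xx_4] at h
    exact shape_R (by norm_num [toR]) (by norm_num [toR]) h
  e4 := by
    have h : ∃ r : ℝ, 0 < r ∧ p 5 - p 4 = r • (xx 5 - xx 4) := h 4
    rw [xx_4, xx_5] at h
    exact shape_D (by norm_num [toR]) (by norm_num [toR]) h
  e5 := by
    have h : ∃ r : ℝ, 0 < r ∧ p 6 - p 5 = r • (xx 6 - xx 5) := h 5
    rw [xx_5, xx_6] at h
    exact shape_U (by norm_num [toR]) (by norm_num [toR]) h
  e6 := by
    have h : ∃ r : ℝ, 0 < r ∧ p 7 - p 6 = r • (xx 7 - xx 6) := h 6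
    rw [xx_6, xx_7] at h
    exact shape_D (by norm_num [toR]) (by norm_num [toR]) h
  e7 := by
    have h : ∃ r : ℝ, 0 < r ∧ p 8 - p 7 = r • (xx 8 - xx 7) := h 7
    rw [xx_7, xx_8] at h
    exact shape_R (by norm_num [toR]) (by norm_num [toR]) h
  e8 := by
    have h : ∃ r : ℝ, 0 < r ∧ p 9 - p 8 = r • (xx 9 - xx 8) := h 8
    rw [xx_8, xx_9] at h
    exact shape_U (by norm_num [toR]) (by norm_num [toR]) h
  e9 := by
    have h : ∃ r : ℝ, 0 < r ∧ p 10 - p 9 = r • (xx 10 - xx 9) := h 9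
    rw [xx_9, xx_10] at h
    exact shape_D (by norm_num [toR]) (by norm_num [toR]) h
  e10 := by
    have h : ∃ r : ℝ, 0 < r ∧ p 11 - p 10 = r • (xx 11 - xx 10) := h 10
    rw [xx_10, xx_11] at h
    exact shape_R (by norm_num [toR]) (by norm_num [toR]) h
  e11 := by
    have h : ∃ r : ℝ, 0 < r ∧ p 12 - p 11 = r • (xx 12 - xx 11) := h 11
    rw [xx_11, xx_12] at h
    exact shape_U (by norm_num [toR]) (by norm_num [toR]) h
  e12 := by
    have h : ∃ r : ℝ, 0 < r ∧ p 13 - p 12 = r • (xx 13 - xx 12) := h 12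
    rw [xx_12, xx_13] at h
    exact shape_D (by norm_num [toR]) (by norm_num [toR]) h
  e13 := by
    have h : ∃ r : ℝ, 0 < r ∧ p 0 - p 13 = r • (xx 0 - xx 13) := h 13
    rw [xx_13, xx_0] at h
    exact shape_U (by norm_num [toR]) (by norm_num [toR]) h

/-! ### incidences -/

theorem mem_of_R {a b q : Plane} (h : b.2 = a.2 ∧ a.1 < b.1) (h1 : q.2 = a.2) (h2 : a.1 ≤ q.1)
    (h3 : q.1 ≤ b.1) : q ∈ segment ℝ a b := by
  obtain ⟨e, l⟩ := h
  have l' : 0 < b.1 - a.1 := by linarith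
  refine mem_segment_of_coords ((q.1 - a.1) / (b.1 - a.1)) (div_nonneg (by linarith) l'.le)
    ((div_le_one l').mpr (by linarith)) ?_ ?_
  · rw [div_mul_cancel₀ _ l'.ne']; ring
  · rw [e, h1]; ring

theorem mem_of_D {a b q : Plane} (h : b.1 - b.2 = a.1 - a.2 ∧ b.2 < a.2)
    (h1 : q.1 - q.2 = a.1 - a.2) (h2 : b.2 ≤ q.2) (h3 : q.2 ≤ a.2) : q ∈ segment ℝ a b := by
  obtain ⟨e, l⟩ := h
  have l' : 0 < a.2 - b.2 := by linarith
  have e1 : b.1 - a.1 = b.2 - a.2 := by linarith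
  have e2 : (a.2 - q.2) / (a.2 - b.2) * (b.2 - a.2) = q.2 - a.2 := by
    field_simp; ring
  refine mem_segment_of_coords ((a.2 - q.2) / (a.2 - b.2)) (div_nonneg (by linarith) l'.le)
    ((div_le_one l').mpr (by linarith)) ?_ ?_
  · rw [e1, e2]; linarith
  · rw [e2]; ring

theorem mem_of_U {a b q : Plane} (h : b.1 + b.2 = a.1 + a.2 ∧ a.2 < b.2)
    (h1 : q.1 + q.2 = a.1 + a.2) (h2 : a.2 ≤ q.2) (h3 : q.2 ≤ b.2) : q ∈ segment ℝ a b := by
  obtain ⟨e, l⟩ := h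
  have l' : 0 < b.2 - a.2 := by linarith
  have e1 : b.1 - a.1 = -(b.2 - a.2) := by linarith
  have e2 : (q.2 - a.2) / (b.2 - a.2) * (b.2 - a.2) = q.2 - a.2 := div_mul_cancel₀ _ l'.ne'
  refine mem_segment_of_coords ((q.2 - a.2) / (b.2 - a.2)) (div_nonneg (by linarith) l'.le)
    ((div_le_one l').mpr (by linarith)) ?_ ?_
  · rw [e1, mul_neg, e2]; linarith
  · rw [e2]; ring

/-- a vertex of an ordinary polygon is on no third edge -/
theorem no_incidence {p : ZMod 14 → Plane} (ho : Ordinary p) (i j k : ZMod 14) (hi : i + 1 = j)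
    (h1 : k ≠ i) (h2 : k ≠ j) (h3 : i ≠ j) (h : p j ∈ edge p k) : False := by
  refine ho (p j) i j k h3 (Ne.symm h2) (Ne.symm h1) ⟨?_, left_mem_segment ℝ _ _, h⟩
  unfold edge
  rw [hi]
  exact right_mem_segment ℝ _ _

/-- the self-sustaining functionals -/
def FF (p : ZMod 14 → Plane) : Fin 12 → ℝ := ![
  ((p 6).1 - (p 6).2) - ((p 12).1 - (p 12).2),
  ((p 10).1 + (p 10).2) - ((p 13).1 + (p 13).2),
  (p 0).2 - (p 12).2,
  ((p 8).1 + (p 8).2) - ((p 5).1 + (p 5).2),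
  (p 10).2 - (p 6).2,
  ((p 11).1 - (p 11).2) - ((p 1).1 - (p 1).2),
  (p 9).2 - (p 0).2,
  ((p 3).1 - (p 3).2) - ((p 6).1 - (p 6).2),
  ((p 4).1 + (p 4).2) - ((p 8).1 + (p 8).2),
  ((p 4).1 - (p 4).2) - ((p 1).1 - (p 1).2),
  (p 5).2 - (p 7).2,
  (p 7).2 - (p 2).2]

theorem barrier {p : ZMod 14 → Plane} (hs : Shape p) (ho : Ordinary p)
    (hF : ∀ i, 0 ≤ FF p i) : ∀ i, FF p i ≠ 0 := by
  obtain ⟨⟨a0, b0⟩, ⟨a1, b1⟩, ⟨a2, b2⟩, ⟨a3, b3⟩, ⟨a4, b4⟩, ⟨a5, b5⟩, ⟨a6, b6⟩, ⟨a7, b7⟩,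
    ⟨a8, b8⟩, ⟨a9, b9⟩, ⟨a10, b10⟩, ⟨a11, b11⟩, ⟨a12, b12⟩, ⟨a13, b13⟩⟩ := hs
  have h0 : 0 ≤ ((p 6).1 - (p 6).2) - ((p 12).1 - (p 12).2) := hF 0
  have h1 : 0 ≤ ((p 10).1 + (p 10).2) - ((p 13).1 + (p 13).2) := hF 1
  have h2 : 0 ≤ (p 0).2 - (p 12).2 := hF 2
  have h3 : 0 ≤ ((p 8).1 + (p 8).2) - ((p 5).1 + (p 5).2) := hF 3
  have h4 : 0 ≤ (p 10).2 - (p 6).2 := hF 4
  have h5 : 0 ≤ ((p 11).1 - (p 11).2) - ((p 1).1 - (p 1).2) := hF 5
  have h6 : 0 ≤ (p 9).2 - (p 0).2 := hF 6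
  have h7 : 0 ≤ ((p 3).1 - (p 3).2) - ((p 6).1 - (p 6).2) := hF 7
  have h8 : 0 ≤ ((p 4).1 + (p 4).2) - ((p 8).1 + (p 8).2) := hF 8
  have h9 : 0 ≤ ((p 4).1 - (p 4).2) - ((p 1).1 - (p 1).2) := hF 9
  have h10 : 0 ≤ (p 5).2 - (p 7).2 := hF 10
  have h11 : 0 ≤ (p 7).2 - (p 2).2 := hF 11
  intro i hi
  fin_cases i
  · have hz : ((p 6).1 - (p 6).2) - ((p 12).1 - (p 12).2) = 0 := hi
    have hm : p 6 ∈ segment ℝ (p 12) (p 13) :=
      mem_of_D ⟨a12, b12⟩ (by linarith) (by linarith) (by linarith)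
    exact no_incidence ho 5 6 12 rfl (by decide) (by decide) (by decide) hm
  · have hz : ((p 10).1 + (p 10).2) - ((p 13).1 + (p 13).2) = 0 := hi
    have hm : p 10 ∈ segment ℝ (p 13) (p 0) :=
      mem_of_U ⟨a13, b13⟩ (by linarith) (by linarith) (by linarith)
    exact no_incidence ho 9 10 13 rfl (by decide) (by decide) (by decide) hm
  · have hz : (p 0).2 - (p 12).2 = 0 := hi
    have hm : p 12 ∈ segment ℝ (p 0) (p 1) :=
      mem_of_R ⟨a0, b0⟩ (by linarith) (by linarith) (by linarith)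
    exact no_incidence ho 11 12 0 rfl (by decide) (by decide) (by decide) hm
  · have hz : ((p 8).1 + (p 8).2) - ((p 5).1 + (p 5).2) = 0 := hi
    have hm : p 5 ∈ segment ℝ (p 8) (p 9) :=
      mem_of_U ⟨a8, b8⟩ (by linarith) (by linarith) (by linarith)
    exact no_incidence ho 4 5 8 rfl (by decide) (by decide) (by decide) hm
  · have hz : (p 10).2 - (p 6).2 = 0 := hi
    have hm : p 6 ∈ segment ℝ (p 10) (p 11) :=
      mem_of_R ⟨a10, b10⟩ (by linarith) (by linarith) (by linarith)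
    exact no_incidence ho 5 6 10 rfl (by decide) (by decide) (by decide) hm
  · have hz : ((p 11).1 - (p 11).2) - ((p 1).1 - (p 1).2) = 0 := hi
    have hm : p 11 ∈ segment ℝ (p 1) (p 2) :=
      mem_of_D ⟨a1, b1⟩ (by linarith) (by linarith) (by linarith)
    exact no_incidence ho 10 11 1 rfl (by decide) (by decide) (by decide) hm
  · have hz : (p 9).2 - (p 0).2 = 0 := hi
    have hm : p 9 ∈ segment ℝ (p 0) (p 1) :=
      mem_of_R ⟨a0, b0⟩ (by linarith) (by linarith) (by linarith)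
    exact no_incidence ho 8 9 0 rfl (by decide) (by decide) (by decide) hm
  · have hz : ((p 3).1 - (p 3).2) - ((p 6).1 - (p 6).2) = 0 := hi
    have hm : p 3 ∈ segment ℝ (p 6) (p 7) :=
      mem_of_D ⟨a6, b6⟩ (by linarith) (by linarith) (by linarith)
    exact no_incidence ho 2 3 6 rfl (by decide) (by decide) (by decide) hm
  · have hz : ((p 4).1 + (p 4).2) - ((p 8).1 + (p 8).2) = 0 := hi
    have hm : p 4 ∈ segment ℝ (p 8) (p 9) :=
      mem_of_U ⟨a8, b8⟩ (by linarith) (by linarith) (by linarith)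
    exact no_incidence ho 3 4 8 rfl (by decide) (by decide) (by decide) hm
  · have hz : ((p 4).1 - (p 4).2) - ((p 1).1 - (p 1).2) = 0 := hi
    have hm : p 4 ∈ segment ℝ (p 1) (p 2) :=
      mem_of_D ⟨a1, b1⟩ (by linarith) (by linarith) (by linarith)
    exact no_incidence ho 3 4 1 rfl (by decide) (by decide) (by decide) hm
  · have hz : (p 5).2 - (p 7).2 = 0 := hi
    have hm : p 5 ∈ segment ℝ (p 7) (p 8) :=
      mem_of_R ⟨a7, b7⟩ (by linarith) (by linarith) (by linarith)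
    exact no_incidence ho 4 5 7 rfl (by decide) (by decide) (by decide) hm
  · have hz : (p 7).2 - (p 2).2 = 0 := hi
    have hm : p 2 ∈ segment ℝ (p 7) (p 8) :=
      mem_of_R ⟨a7, b7⟩ (by linarith) (by linarith) (by linarith)
    exact no_incidence ho 1 2 7 rfl (by decide) (by decide) (by decide) hm

end Pool.Agent.Helper337.PolygonPattern
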