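import Mathlib
import Pool.Agent.Helper337.PolygonProofB

set_option autoImplicit false

namespace Pool.Agent.Helper337.PolygonPattern

open Set

/-! ### the labellings witnessing the parallelism -/

/-- integer test: `b - a` is a positive multiple of `d - c` -/
def parTest (a b c d : ℤ × ℤ) : Bool :=
  decide ((b.1 - a.1) * (d.2 - c.2) = (b.2 - a.2) * (d.1 - c.1)) &&
  decide (0 ≤ (b.1 - a.1) * (d.1 - c.1) + (b.2 - a.2) * (d.2 - c.2))

theorem parTest_of {a b c d : ℤ × ℤ}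
    (h : ∃ r : ℝ, 0 < r ∧ toR b - toR a = r • (toR d - toR c)) : parTest a b c d = true := by
  obtain ⟨r, hr, h⟩ := h
  have e1 := congrArg Prod.fst h
  have e2 := congrArg Prod.snd h
  simp only [toR, Prod.smul_fst, Prod.smul_snd, smul_eq_mul, Prod.fst_sub, Prod.snd_sub] at e1 e2
  simp only [parTest, Bool.and_eq_true, decide_eq_true_eq]
  constructor
  · have : ((b.1 : ℝ) - a.1) * (d.2 - c.2) = (b.2 - a.2) * (d.1 - c.1) := by
      rw [e1, e2]; ring
    exact_mod_cast this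
  · have : (0 : ℝ) ≤ ((b.1 : ℝ) - a.1) * (d.1 - c.1) + (b.2 - a.2) * (d.2 - c.2) := by
      rw [e1, e2]
      have : r * ((d.1 : ℝ) - c.1) * (d.1 - c.1) + r * (d.2 - c.2) * (d.2 - c.2) =
        r * ((d.1 - c.1) ^ 2 + (d.2 - c.2) ^ 2) := by ring
      rw [this]
      positivity
    exact_mod_cast this

theorem shift_test : ∀ c : ZMod 14, c ≠ 0 →
    ∃ i, parTest (YZ (c + i)) (YZ (c + (i + 1))) (XZ i) (XZ (i + 1)) = false := by
  decide +kernel

theorem rev_test : ∀ c : ZMod 14,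
    ∃ i, parTest (YZ (c - i)) (YZ (c - (i + 1))) (XZ i) (XZ (i + 1)) = false := by
  decide +kernel

theorem relabelling_unique {ρ : ZMod 14 → ZMod 14} (h : IsRelabelling ρ)
    (hp : ParallelEdges xx (yy ∘ ρ)) : yy ∘ ρ = yy := by
  obtain ⟨c, h | h⟩ := h
  · by_cases hc : c = 0
    · funext i
      simp [h, hc]
    · obtain ⟨i, hi⟩ := shift_test c hc
      have h1 := hp i
      simp only [Function.comp_apply, h] at h1
      rw [parTest_of h1] at hi
      exact absurd hi (by decide)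
  · obtain ⟨i, hi⟩ := rev_test c
    have h1 := hp i
    simp only [Function.comp_apply, h] at h1
    rw [parTest_of h1] at hi
    exact absurd hi (by decide)

/-! ### no deformation -/

theorem FF_xx_pos : ∀ i, 0 < FF xx i := by
  intro i
  fin_cases i <;> norm_num [FF, xx_0, xx_1, xx_2, xx_3, xx_4, xx_5, xx_6, xx_7, xx_8, xx_9, xx_10,
    xx_11, xx_12, xx_13, toR]

theorem FF_yy_neg : FF yy 0 < 0 := by
  have e6 : yy 6 = toR (-32, 4) := rfl
  have e12 : yy 12 = toR (-1, 15) := rfl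
  norm_num [FF, e6, e12, toR]

theorem FF_continuousOn {P : ℝ → ZMod 14 → Plane}
    (hc : ∀ i, ContinuousOn (fun t => P t i) (Icc 0 1)) (k : Fin 12) :
    ContinuousOn (fun t => FF (P t) k) (Icc 0 1) := by
  have h1 : ∀ i, ContinuousOn (fun t => (P t i).1) (Icc 0 1) := fun i =>
    continuous_fst.comp_continuousOn (hc i)
  have h2 : ∀ i, ContinuousOn (fun t => (P t i).2) (Icc 0 1) := fun i =>
    continuous_snd.comp_continuousOn (hc i)
  fin_cases k
  · exact ((h1 6).sub (h2 6)).sub ((h1 12).sub (h2 12))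
  · exact ((h1 10).add (h2 10)).sub ((h1 13).add (h2 13))
  · exact (h2 0).sub (h2 12)
  · exact ((h1 8).add (h2 8)).sub ((h1 5).add (h2 5))
  · exact (h2 10).sub (h2 6)
  · exact ((h1 11).sub (h2 11)).sub ((h1 1).sub (h2 1))
  · exact (h2 9).sub (h2 0)
  · exact ((h1 3).sub (h2 3)).sub ((h1 6).sub (h2 6))
  · exact ((h1 4).add (h2 4)).sub ((h1 8).add (h2 8))
  · exact ((h1 4).sub (h2 4)).sub ((h1 1).sub (h2 1))
  · exact (h2 5).sub (h2 7)
  · exact (h2 7).sub (h2 2)

/-- the two polygons cannot be connected by a parallel-edge deformation through ordinary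
polygons -/
theorem no_path {P : ℝ → ZMod 14 → Plane}
    (hc : ∀ i, ContinuousOn (fun t => P t i) (Icc 0 1)) (h0 : P 0 = xx) (h1 : P 1 = yy)
    (ho : ∀ t ∈ Icc (0 : ℝ) 1, Ordinary (P t)) (hp : ∀ t ∈ Icc (0 : ℝ) 1, ParallelEdges xx (P t)) :
    False := by
  have hne : (Finset.univ : Finset (Fin 12)).Nonempty := Finset.univ_nonempty
  have hm : ContinuousOn (fun t => Finset.univ.inf' hne (fun k => FF (P t) k)) (Icc 0 1) :=
    ContinuousOn.finset_inf'_apply hne (fun k _ => FF_continuousOn hc k)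
  have hm0 : 0 < Finset.univ.inf' hne (fun k => FF (P 0) k) := by
    rw [Finset.lt_inf'_iff, h0]
    exact fun i _ => FF_xx_pos i
  have hm1 : Finset.univ.inf' hne (fun k => FF (P 1) k) < 0 := by
    rw [Finset.inf'_lt_iff, h1]
    exact ⟨0, Finset.mem_univ _, FF_yy_neg⟩
  obtain ⟨t, ht, hmt⟩ := intermediate_value_Icc' (zero_le_one' ℝ) hm ⟨hm1.le, hm0.le⟩
  have hge : ∀ i, 0 ≤ FF (P t) i := fun i =>
    hmt ▸ Finset.inf'_le _ (Finset.mem_univ i)
  obtain ⟨i, -, hi⟩ := Finset.exists_mem_eq_inf' hne (fun k => FF (P t) k)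
  have hmt' : Finset.univ.inf' hne (fun k => FF (P t) k) = 0 := hmt
  rw [hi] at hmt'
  exact barrier (shape_of_parallel (hp t ht)) (ho t ht) hge i hmt'

theorem no_ordinary_path (ρ : ZMod 14 → ZMod 14) (h : IsRelabelling ρ)
    (hp : ParallelEdges xx (yy ∘ ρ)) (P : ℝ → ZMod 14 → Plane)
    (hc : ∀ i, ContinuousOn (fun t => P t i) (Icc 0 1)) (h0 : P 0 = xx) (h1 : P 1 = yy ∘ ρ)
    (hP : ∀ t ∈ Icc (0 : ℝ) 1, ParallelEdges xx (P t)) :
    ∃ t ∈ Icc (0 : ℝ) 1, ¬ Ordinary (P t) := by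
  by_contra hcon
  push Not at hcon
  rw [relabelling_unique h hp] at h1
  exact no_path hc h0 h1 hcon hP

theorem no_deformation (ρ : ZMod 14 → ZMod 14) (h : IsRelabelling ρ)
    (hp : ParallelEdges xx (yy ∘ ρ)) : ¬ ∃ P, IsDeformation xx (yy ∘ ρ) P := by
  rintro ⟨P, hc, h0, h1, hP⟩
  rw [relabelling_unique h hp] at h1
  exact no_path hc h0 h1 (fun t ht => (hP t ht).1.2.2.1) (fun t ht => (hP t ht).2)

end Pool.Agent.Helper337.PolygonPattern
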